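import Mathlib

set_option autoImplicit false

namespace Pool.Agent.H5.TB

open Finset Filter Topology

/-- A matrix `t = (t n j)` of scalars is consistent: bounded row norms, columns tending to
zero, row sums tending to one. -/
structure Consistent {𝕜 : Type*} [RCLike 𝕜] (t : ℕ → ℕ → 𝕜) : Prop where
  rows : ∃ C : ℝ, ∀ n, Summable (fun j => ‖t n j‖) ∧ ∑' j, ‖t n j‖ ≤ C
  cols : ∀ j, Tendsto (fun n => t n j) atTop (𝓝 0)
  lim : Tendsto (fun n => ∑' j, t n j) atTop (𝓝 1)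

section
variable {𝕜 E : Type*} [RCLike 𝕜] [NormedAddCommGroup E] [NormedSpace 𝕜 E]

/-- the partial sums of a formal series -/
def ps (x : ℕ → E) (a : ℕ → 𝕜) (j : ℕ) : E := ∑ i ∈ range (j + 1), a i • x i

/-- `σ_n = ∑_j t n j • (partial sum number j of ∑ a i • x i)` exists for every `n`
and `σ_n → y`. -/
def TSums (t : ℕ → ℕ → 𝕜) (x : ℕ → E) (a : ℕ → 𝕜) (y : E) : Prop :=
  ∃ σ : ℕ → E, (∀ n, Tendsto (fun N => ∑ j ∈ range N, t n j • ps x a j) atTop (𝓝 (σ n))) ∧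
    Tendsto σ atTop (𝓝 y)

/-- `x` is a `T`-basis for the matrix `t`. -/
def IsTBasis (t : ℕ → ℕ → 𝕜) (x : ℕ → E) : Prop := ∀ y : E, ∃! a : ℕ → 𝕜, TSums t x a y

/-- `P_(m)`, the span of the first `m` vectors. -/
def PP (𝕜 : Type*) {E : Type*} [RCLike 𝕜] [NormedAddCommGroup E] [NormedSpace 𝕜 E]
    (x : ℕ → E) (m : ℕ) : Submodule 𝕜 E := Submodule.span 𝕜 (x '' Set.Iio m)

lemma mem_PP (𝕜 : Type*) {E : Type*} [RCLike 𝕜] [NormedAddCommGroup E] [NormedSpace 𝕜 E]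
    (x : ℕ → E) {m i : ℕ} (hi : i < m) : x i ∈ PP 𝕜 x m := Submodule.subset_span ⟨i, hi, rfl⟩

/-- The sum of the first `m` terms of `∑ a i • x i`, as an element of `P_(m)`. -/
def fs (x : ℕ → E) (a : ℕ → 𝕜) (m : ℕ) : PP 𝕜 x m :=
  ⟨∑ i ∈ range m, a i • x i, Submodule.sum_mem _ (fun _ hi =>
    Submodule.smul_mem _ _ (mem_PP 𝕜 x (Finset.mem_range.mp hi)))⟩

/-- The iterated limit `lim_n lim_m u n m` exists and equals `y`. -/
def IterLim (u : ℕ → ℕ → E) (y : E) : Prop :=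
  ∃ w : ℕ → E, (∀ n, Tendsto (fun m => u n m) atTop (𝓝 (w n))) ∧ Tendsto w atTop (𝓝 y)

/-- Double operational basis: a complete minimal sequence (`f` is the biorthogonal sequence)
with linear maps `v n m` of `P_(m)` into itself such that `y = lim_n lim_m v n m (s_m y)`. -/
def IsDoubleOperationalBasis (𝕜 : Type*) {E : Type*} [RCLike 𝕜] [NormedAddCommGroup E]
    [NormedSpace 𝕜 E] (x : ℕ → E) : Prop :=
  (Submodule.span 𝕜 (Set.range x)).topologicalClosure = ⊤ ∧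
  ∃ f : ℕ → E →L[𝕜] 𝕜, (∀ i j, f i (x j) = if i = j then 1 else 0) ∧
    ∃ v : (n m : ℕ) → (PP 𝕜 x m →ₗ[𝕜] PP 𝕜 x m), ∀ y : E,
      IterLim (fun n m => (v n m (fs x (fun i => f i y) m) : E)) y

/-- Double generalized summation basis. -/
def IsDoubleGenSummationBasis (𝕜 : Type*) {E : Type*} [RCLike 𝕜] [NormedAddCommGroup E]
    [NormedSpace 𝕜 E] (x : ℕ → E) : Prop :=
  ∃ v : (n m : ℕ) → (PP 𝕜 x m →ₗ[𝕜] PP 𝕜 x m),
    (∀ i, IterLim (fun n m => (v n (m + (i + 1))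
      ⟨x i, mem_PP 𝕜 x (Nat.lt_add_left m (Nat.lt_succ_self i))⟩ : E)) (x i)) ∧
    ∀ y : E, ∃! a : ℕ → 𝕜, IterLim (fun n m => (v n m (fs x a m) : E)) y

end

end Pool.Agent.H5.TB
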