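import Mathlib
import Pool.Agent.H5.TB.Defs

set_option autoImplicit false

namespace Pool.Agent.H5.TB

open Finset Filter Topology

variable {𝕜 E : Type*} [RCLike 𝕜] [NormedAddCommGroup E] [NormedSpace 𝕜 E]

/-- the index used at stage `m` -/
def JJ (A : ℕ → ℕ → Finset ℕ) (n m : ℕ) : ℕ :=
  Nat.findGreatest (fun j => A n j ⊆ range m) m

lemma JJ_spec (A : ℕ → ℕ → Finset ℕ) (n j0 m : ℕ) (h1 : j0 ≤ m) (h2 : A n j0 ⊆ range m) :
    j0 ≤ JJ A n m ∧ A n (JJ A n m) ⊆ range m := by
  unfold JJ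
  constructor
  · exact Nat.le_findGreatest h1 h2
  · exact Nat.findGreatest_spec (P := fun j => A n j ⊆ range m) h1 h2

lemma JJ_large (A : ℕ → ℕ → Finset ℕ) (n j0 : ℕ) :
    ∃ m0, ∀ m ≥ m0, j0 ≤ JJ A n m ∧ A n (JJ A n m) ⊆ range m := by
  refine ⟨max j0 ((A n j0).sup id + 1), fun m hm => ?_⟩
  apply JJ_spec
  · exact (le_max_left _ _).trans hm
  · intro i hi
    have h1 : i ≤ (A n j0).sup id := Finset.le_sup (f := id) hi
    have h2 := (le_max_right j0 ((A n j0).sup id + 1)).trans hm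
    rw [Finset.mem_range]
    omega

lemma JJ_tendsto (A : ℕ → ℕ → Finset ℕ) (n : ℕ) : Tendsto (fun m => JJ A n m) atTop atTop := by
  rw [tendsto_atTop]
  intro j0
  obtain ⟨m0, hm0⟩ := JJ_large A n j0
  filter_upwards [eventually_ge_atTop m0] with m hm
  exact (hm0 m hm).1

/-- the operators -/
noncomputable def vv (A : ℕ → ℕ → Finset ℕ) (x : ℕ → E) (f : ℕ → E →L[𝕜] 𝕜) (n m : ℕ) :
    PP 𝕜 x m →ₗ[𝕜] PP 𝕜 x m where
  toFun z := ⟨∑ i ∈ (A n (JJ A n m)).filter (· < m), f i (z : E) • x i,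
    Submodule.sum_mem _ (fun _ hi => Submodule.smul_mem _ _
      (mem_PP 𝕜 x (Finset.mem_filter.mp hi).2))⟩
  map_add' z z' := by
    apply Subtype.ext
    simp only [Submodule.coe_add, map_add, add_smul, Finset.sum_add_distrib]
  map_smul' c z := by
    apply Subtype.ext
    simp only [Submodule.coe_smul, map_smul, smul_eq_mul, mul_smul, RingHom.id_apply,
      Finset.smul_sum]

variable {A : ℕ → ℕ → Finset ℕ} {x : ℕ → E} {f : ℕ → E →L[𝕜] 𝕜}

lemma f_fs (hf : ∀ i j, f i (x j) = if i = j then 1 else 0) (a : ℕ → 𝕜) (m i : ℕ) (hi : i < m) :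
    f i (fs x a m : E) = a i := by
  unfold fs
  simp only [map_sum, map_smul, hf, smul_eq_mul, mul_ite, mul_one, mul_zero]
  rw [Finset.sum_ite_eq, if_pos (Finset.mem_range.mpr hi)]

lemma vv_fs (hf : ∀ i j, f i (x j) = if i = j then 1 else 0) (n : ℕ) :
    ∃ m0, ∀ m ≥ m0, ∀ a : ℕ → 𝕜,
      (vv A x f n m (fs x a m) : E) = ∑ i ∈ A n (JJ A n m), a i • x i := by
  obtain ⟨m0, hm0⟩ := JJ_large A n 0
  refine ⟨m0, fun m hm a => ?_⟩
  have hsub := (hm0 m hm).2
  have e1 : (A n (JJ A n m)).filter (· < m) = A n (JJ A n m) := by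
    apply Finset.filter_true_of_mem
    intro i hi
    exact Finset.mem_range.mp (hsub hi)
  have e2 : (vv A x f n m (fs x a m) : E) =
      ∑ i ∈ (A n (JJ A n m)).filter (· < m), f i (fs x a m : E) • x i := rfl
  rw [e2, e1]
  apply Finset.sum_congr rfl
  intro i hi
  rw [f_fs hf a m i (Finset.mem_range.mp (hsub hi))]

/-- A sequence with a double block summation is a double operational basis and a double
generalized summation basis. -/
theorem blocks (hf : ∀ i j, f i (x j) = if i = j then 1 else 0) (Q : ℕ → E → E)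
    (h1 : ∀ n y, Tendsto (fun j => ∑ i ∈ A n j, f i y • x i) atTop (𝓝 (Q n y)))
    (h2 : ∀ y, Tendsto (fun n => Q n y) atTop (𝓝 y))
    (h3 : ∀ l, ∃ n0, ∀ n ≥ n0, ∀ᶠ j in atTop, l ∈ A n j) :
    IsDoubleOperationalBasis 𝕜 x ∧ IsDoubleGenSummationBasis 𝕜 x := by
  have hlim : ∀ n y, Tendsto (fun m => (vv A x f n m (fs x (fun i => f i y) m) : E)) atTop
      (𝓝 (Q n y)) := by
    intro n y
    have h4 := (h1 n y).comp (JJ_tendsto A n)
    obtain ⟨m0, hm0⟩ := vv_fs (A := A) hf n
    refine h4.congr' ?_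
    filter_upwards [eventually_ge_atTop m0] with m hm
    rw [hm0 m hm]
    rfl
  refine ⟨⟨?_, f, hf, vv A x f, fun y => ⟨fun n => Q n y, fun n => hlim n y, h2 y⟩⟩,
    vv A x f, ?_, ?_⟩
  · rw [Submodule.eq_top_iff']
    intro y
    have hcl : IsClosed (((Submodule.span 𝕜 (Set.range x)).topologicalClosure : Submodule 𝕜 E) :
        Set E) := Submodule.isClosed_topologicalClosure _
    apply hcl.mem_of_tendsto (h2 y)
    apply Eventually.of_forall
    intro n
    apply hcl.mem_of_tendsto (h1 n y)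
    apply Eventually.of_forall
    intro j
    apply Submodule.le_topologicalClosure
    apply Submodule.sum_mem
    intro i _
    exact Submodule.smul_mem _ _ (Submodule.subset_span ⟨i, rfl⟩)
  · intro i
    refine ⟨fun n => Q n (x i), fun n => ?_, h2 (x i)⟩
    have h4 := (hlim n (x i)).comp (tendsto_add_atTop_nat (i + 1))
    refine h4.congr (fun m => ?_)
    simp only [Function.comp]
    congr 2
    apply Subtype.ext
    change ∑ l ∈ range (m + (i + 1)), f l (x i) • x l = x i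
    simp only [hf, ite_smul, one_smul, zero_smul]
    rw [Finset.sum_ite_eq', if_pos (by rw [Finset.mem_range]; omega)]
  · intro y
    refine ⟨fun i => f i y, ⟨fun n => Q n y, fun n => hlim n y, h2 y⟩, ?_⟩
    rintro b ⟨w, hw1, hw2⟩
    funext l
    obtain ⟨n0, hn0⟩ := h3 l
    have h5 : ∀ n ≥ n0, f l (w n) = b l := by
      intro n hn
      have h6 : Tendsto (fun m => f l (vv A x f n m (fs x b m) : E)) atTop (𝓝 (f l (w n))) :=
        ((f l).continuous.tendsto _).comp (hw1 n)
      have h7 : Tendsto (fun m => f l (vv A x f n m (fs x b m) : E)) atTop (𝓝 (b l)) := by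
        apply tendsto_const_nhds.congr'
        obtain ⟨m0, hm0⟩ := vv_fs (A := A) hf n
        have h8 := (JJ_tendsto A n).eventually (hn0 n hn)
        filter_upwards [eventually_ge_atTop m0, h8] with m hm hm8
        rw [hm0 m hm, map_sum]
        simp only [map_smul, hf, smul_eq_mul, mul_ite, mul_one, mul_zero]
        rw [Finset.sum_ite_eq, if_pos hm8]
      exact tendsto_nhds_unique h6 h7
    have h6 : Tendsto (fun n => f l (w n)) atTop (𝓝 (f l y)) :=
      ((f l).continuous.tendsto _).comp hw2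
    have h7 : Tendsto (fun n => f l (w n)) atTop (𝓝 (b l)) := by
      apply tendsto_const_nhds.congr'
      filter_upwards [eventually_ge_atTop n0] with n hn
      exact (h5 n hn).symm
    exact tendsto_nhds_unique h7 h6

/-- The same, with an arbitrary denumerable index set. -/
theorem blocks' {ι : Type*} (e : ℕ ≃ ι) {A : ℕ → ℕ → Finset ι} {x : ι → E}
    {f : ι → E →L[𝕜] 𝕜}
    (hf : ∀ i, f i (x i) = 1) (hf' : ∀ i j, i ≠ j → f i (x j) = 0) (Q : ℕ → E → E)
    (h1 : ∀ n y, Tendsto (fun j => ∑ i ∈ A n j, f i y • x i) atTop (𝓝 (Q n y)))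
    (h2 : ∀ y, Tendsto (fun n => Q n y) atTop (𝓝 y))
    (h3 : ∀ l, ∃ n0, ∀ n ≥ n0, ∀ᶠ j in atTop, l ∈ A n j) :
    IsDoubleOperationalBasis 𝕜 (x ∘ e) ∧ IsDoubleGenSummationBasis 𝕜 (x ∘ e) := by
  apply blocks (A := fun n j => (A n j).map e.symm.toEmbedding) (f := f ∘ e) ?_ Q ?_ h2 ?_
  · intro i j
    by_cases h : i = j
    · subst h
      simp only [Function.comp, if_true]
      exact hf _
    · simp only [Function.comp, if_neg h]
      exact hf' _ _ (fun h' => h (e.injective h'))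
  · intro n y
    refine (h1 n y).congr (fun j => ?_)
    rw [Finset.sum_map]
    simp
  · intro l
    obtain ⟨n0, hn0⟩ := h3 (e l)
    refine ⟨n0, fun n hn => ?_⟩
    filter_upwards [hn0 n hn] with j hj
    rw [Finset.mem_map]
    exact ⟨e l, hj, by simp⟩

end Pool.Agent.H5.TB
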