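import Mathlib

/-!
Random signs, halving, and a Davie type system of sign arrays (for MP_43aa21_an).
-/

set_option autoImplicit false

namespace Pool.Agent.H5.TB

open Finset

/-- sign of a boolean -/
noncomputable def sg (b : Bool) : ℝ := if b then 1 else -1

lemma sg_mul_self (b : Bool) : sg b * sg b = 1 := by cases b <;> simp [sg]

lemma abs_sg (b : Bool) : |sg b| = 1 := by cases b <;> simp [sg]

/-- Random signs: all sums are small simultaneously. -/
lemma exists_signs {J X : Type*} [Fintype J] [Fintype X] [Nonempty X] [DecidableEq J]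
    (a : J → X → ℝ) (ha : ∀ j x, |a j x| ≤ 1) (l : ℝ) (hl : 0 < l) :
    ∃ c : J → Bool, ∀ x, |∑ j, sg (c j) * a j x| ≤
      Real.log (2 * Fintype.card X) / l + l * Fintype.card J / 2 := by
  classical
  have hcosh : ∀ j x, Real.exp (l * a j x) + Real.exp (-(l * a j x)) ≤
      2 * Real.exp (l ^ 2 / 2) := by
    intro j x
    have h1 := Real.cosh_le_exp_half_sq (l * a j x)
    rw [Real.cosh_eq] at h1
    have h2 : Real.exp ((l * a j x) ^ 2 / 2) ≤ Real.exp (l ^ 2 / 2) := by
      apply Real.exp_le_exp.mpr
      have h3 : (a j x) ^ 2 ≤ 1 := by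
        rw [← sq_abs]
        have := ha j x
        have h0 := abs_nonneg (a j x)
        nlinarith
      have h4 : (l * a j x) ^ 2 ≤ l ^ 2 := by
        rw [mul_pow]
        nlinarith [sq_nonneg l]
      linarith
    linarith
  have hprod : ∀ (x : X) (s : ℝ), (s = 1 ∨ s = -1) →
      ∑ c : J → Bool, Real.exp (s * (l * ∑ j, sg (c j) * a j x)) ≤
        2 ^ Fintype.card J * Real.exp (l ^ 2 * Fintype.card J / 2) := by
    intro x s hs
    have h1 : ∀ c : J → Bool, Real.exp (s * (l * ∑ j, sg (c j) * a j x)) =
        ∏ j, Real.exp (s * (l * (sg (c j) * a j x))) := by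
      intro c
      rw [← Real.exp_sum, Finset.mul_sum, Finset.mul_sum]
    have h2 : ∑ c : J → Bool, ∏ j, Real.exp (s * (l * (sg (c j) * a j x))) =
        ∏ j, ∑ b : Bool, Real.exp (s * (l * (sg b * a j x))) := by
      rw [Finset.prod_univ_sum, Fintype.piFinset_univ]
    rw [Finset.sum_congr rfl (fun c _ => h1 c), h2]
    have h3 : ∀ j, ∑ b : Bool, Real.exp (s * (l * (sg b * a j x))) ≤
        2 * Real.exp (l ^ 2 / 2) := by
      intro j
      rw [Fintype.sum_bool]
      have := hcosh j x
      rcases hs with rfl | rfl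
      · simp only [sg, if_true, Bool.false_eq_true, if_false, one_mul, neg_mul, mul_neg]
        exact this
      · simp only [sg, if_true, Bool.false_eq_true, if_false, one_mul, neg_mul, mul_neg, neg_neg]
        linarith
    calc ∏ j, ∑ b : Bool, Real.exp (s * (l * (sg b * a j x)))
        ≤ ∏ _j : J, (2 * Real.exp (l ^ 2 / 2)) := by
          apply Finset.prod_le_prod
          · intro j _
            exact Finset.sum_nonneg (fun b _ => (Real.exp_pos _).le)
          · intro j _
            exact h3 j
      _ = 2 ^ Fintype.card J * Real.exp (l ^ 2 * Fintype.card J / 2) := by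
          rw [Finset.prod_const, mul_pow, ← Real.exp_nat_mul]
          simp only [Finset.card_univ]
          congr 2
          ring
  -- total sum
  set f : (J → Bool) → ℝ := fun c => ∑ x, (Real.exp (1 * (l * ∑ j, sg (c j) * a j x)) +
    Real.exp (-1 * (l * ∑ j, sg (c j) * a j x))) with hf
  have htot : ∑ c, f c ≤ ∑ _c : J → Bool,
      (2 * Fintype.card X * Real.exp (l ^ 2 * Fintype.card J / 2)) := by
    have e1 : ∑ c, f c = ∑ x, (∑ c : J → Bool, Real.exp (1 * (l * ∑ j, sg (c j) * a j x)) +
        ∑ c : J → Bool, Real.exp (-1 * (l * ∑ j, sg (c j) * a j x))) := by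
      rw [hf, Finset.sum_comm]
      apply Finset.sum_congr rfl
      intro x _
      rw [Finset.sum_add_distrib]
    rw [e1]
    calc _ ≤ ∑ _x : X, (2 ^ Fintype.card J * Real.exp (l ^ 2 * Fintype.card J / 2) +
          2 ^ Fintype.card J * Real.exp (l ^ 2 * Fintype.card J / 2)) := by
          apply Finset.sum_le_sum
          intro x _
          exact add_le_add (hprod x 1 (Or.inl rfl)) (hprod x (-1) (Or.inr rfl))
      _ = _ := by
          rw [Finset.sum_const, Finset.sum_const]
          simp only [Finset.card_univ, nsmul_eq_mul, Fintype.card_fun, Fintype.card_bool]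
          push_cast
          ring
  obtain ⟨c, -, hc⟩ := Finset.exists_le_of_sum_le (Finset.univ_nonempty) htot
  refine ⟨c, fun x => ?_⟩
  set S := ∑ j, sg (c j) * a j x with hS
  have h1 : Real.exp (l * |S|) ≤ 2 * Fintype.card X * Real.exp (l ^ 2 * Fintype.card J / 2) := by
    refine le_trans ?_ hc
    have h2 : Real.exp (1 * (l * S)) + Real.exp (-1 * (l * S)) ≤ f c := by
      rw [hf]
      exact Finset.single_le_sum (f := fun x => (Real.exp (1 * (l * ∑ j, sg (c j) * a j x)) +
        Real.exp (-1 * (l * ∑ j, sg (c j) * a j x))))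
        (fun y _ => add_nonneg (Real.exp_pos _).le (Real.exp_pos _).le) (Finset.mem_univ x)
    refine le_trans ?_ h2
    rcases abs_cases S with ⟨h, _⟩ | ⟨h, _⟩
    · rw [h, one_mul]
      have := (Real.exp_pos (-1 * (l * S))).le
      linarith
    · rw [h]
      have := (Real.exp_pos (1 * (l * S))).le
      have e : l * -S = -1 * (l * S) := by ring
      rw [e]
      linarith
  have hX : (0:ℝ) < 2 * Fintype.card X := by
    have : 0 < Fintype.card X := Fintype.card_pos
    positivity
  have h2 : l * |S| ≤ Real.log (2 * Fintype.card X) + l ^ 2 * Fintype.card J / 2 := by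
    have h3 := Real.log_le_log (Real.exp_pos _) h1
    rw [Real.log_exp, Real.log_mul hX.ne' (Real.exp_pos _).ne', Real.log_exp] at h3
    exact h3
  rw [div_add_div _ _ hl.ne' two_ne_zero, le_div_iff₀ (by positivity)]
  nlinarith

/-- Halving. -/
lemma exists_halving {J X : Type*} [Fintype J] [Fintype X] [Nonempty X] [DecidableEq J]
    (p q : J → X → ℝ) (hp : ∀ j x, |p j x| ≤ 1) (hq : ∀ j x, |q j x| ≤ 1) (l : ℝ) (hl : 0 < l) :
    ∃ c : J → Bool, ∀ x, |∑ j, (if c j then p j x else q j x) - (1/2) * ∑ j, (p j x + q j x)| ≤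
      Real.log (2 * Fintype.card X) / l + l * Fintype.card J / 2 := by
  obtain ⟨c, hc⟩ := exists_signs (fun j x => (p j x - q j x) / 2)
    (fun j x => by
      have h1 := hp j x
      have h2 := hq j x
      rw [abs_le] at *
      constructor <;> linarith) l hl
  refine ⟨c, fun x => ?_⟩
  have e : ∑ j, (if c j then p j x else q j x) - (1/2) * ∑ j, (p j x + q j x) =
      ∑ j, sg (c j) * ((p j x - q j x) / 2) := by
    rw [Finset.mul_sum, ← Finset.sum_sub_distrib]
    apply Finset.sum_congr rfl
    intro j _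
    cases c j <;> simp [sg] <;> ring
  rw [e]
  exact hc x

/-- the Walsh matrix -/
noncomputable def W {m : ℕ} (a b : Fin m → Bool) : ℝ :=
  ∏ i, (if a i && b i then (-1 : ℝ) else 1)

lemma W_comm {m : ℕ} (a b : Fin m → Bool) : W a b = W b a := by
  unfold W
  apply Finset.prod_congr rfl
  intro i _
  rw [Bool.and_comm]

lemma abs_W {m : ℕ} (a b : Fin m → Bool) : |W a b| = 1 := by
  unfold W
  rw [Finset.abs_prod]
  apply Finset.prod_eq_one
  intro i _
  split_ifs <;> simp

lemma W_mul_self {m : ℕ} (a b : Fin m → Bool) : W a b * W a b = 1 := by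
  rw [← abs_mul_abs_self, abs_W]; norm_num

lemma W_orth {m : ℕ} (a a' : Fin m → Bool) :
    ∑ b, W a b * W a' b = if a = a' then (2 : ℝ) ^ m else 0 := by
  have h1 : ∀ b : Fin m → Bool, W a b * W a' b =
      ∏ i, ((if a i && b i then (-1 : ℝ) else 1) * (if a' i && b i then (-1 : ℝ) else 1)) := by
    intro b
    unfold W
    rw [Finset.prod_mul_distrib]
  rw [Finset.sum_congr rfl (fun b _ => h1 b)]
  have h2 : ∑ b : Fin m → Bool, ∏ i, ((if a i && b i then (-1 : ℝ) else 1) *
      (if a' i && b i then (-1 : ℝ) else 1)) =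
      ∏ i, ∑ β : Bool, ((if a i && β then (-1 : ℝ) else 1) *
      (if a' i && β then (-1 : ℝ) else 1)) := by
    rw [Finset.prod_univ_sum, Fintype.piFinset_univ]
  rw [h2]
  have h3 : ∀ i, ∑ β : Bool, ((if a i && β then (-1 : ℝ) else 1) *
      (if a' i && β then (-1 : ℝ) else 1)) = if a i = a' i then 2 else 0 := by
    intro i
    rw [Fintype.sum_bool]
    cases a i <;> cases a' i <;> norm_num
  rw [Finset.prod_congr rfl (fun i _ => h3 i), Finset.prod_ite_zero]
  by_cases h : a = a'
  · subst h
    simp
  · rw [if_neg h, if_neg]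
    intro h'
    exact h (funext fun i => h' i (Finset.mem_univ i))

lemma W_orth' {m : ℕ} (b b' : Fin m → Bool) :
    ∑ a, W a b * W a b' = if b = b' then (2 : ℝ) ^ m else 0 := by
  rw [← W_orth b b']
  apply Finset.sum_congr rfl
  intro a _
  rw [W_comm a b, W_comm a b']

end Pool.Agent.H5.TB
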