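import Mathlib
import Pool.Agent.H5.TB.Signs

set_option autoImplicit false

namespace Pool.Agent.H5.TB

open Finset

/-- a row index from a boolean and a shorter row index -/
def row {m : ℕ} (b : Bool) (k : Fin m → Bool) : Fin (m + 1) → Bool := Fin.cons b k

lemma row_inj {m : ℕ} {b b' : Bool} {k k' : Fin m → Bool} :
    row b k = row b' k' ↔ b = b' ∧ k = k' := by
  unfold row
  exact Fin.cons_inj

lemma sum_rows {m : ℕ} (F : (Fin (m + 1) → Bool) → ℝ) :
    ∑ a, F a = ∑ k, (F (row true k) + F (row false k)) := by
  have h := Fintype.sum_equiv (Fin.consEquiv (fun _ : Fin (m + 1) => Bool))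
    (fun x => F (Fin.consEquiv (fun _ : Fin (m + 1) => Bool) x)) F (fun _ => rfl)
  rw [← h, Fintype.sum_prod_type_right]
  apply Finset.sum_congr rfl
  intro k _
  rw [Fintype.sum_bool]
  rfl

lemma log_bound (k : ℕ) : Real.log (2 * 2 ^ k) ≤ k + 1 := by
  have h : (2 : ℝ) * 2 ^ k = 2 ^ (k + 1) := by ring
  rw [h, Real.log_pow]
  have h2 : Real.log 2 ≤ 1 := by
    have := Real.log_two_lt_d9
    linarith
  push_cast
  have : (0:ℝ) ≤ (k:ℝ) + 1 := by positivity
  nlinarith

/-- square root of two, to the power n -/
noncomputable def rt (n : ℕ) : ℝ := (Real.sqrt 2) ^ n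

lemma rt_pos (n : ℕ) : 0 < rt n := by
  unfold rt; positivity

lemma rt_sq (n : ℕ) : rt n * rt n = 2 ^ n := by
  unfold rt
  rw [← mul_pow, Real.mul_self_sqrt (by norm_num)]

lemma rt_div (n : ℕ) : rt n / 2 ^ n = 1 / rt n := by
  rw [← rt_sq n]
  have := rt_pos n
  field_simp

/-- the bound used at level n -/
noncomputable def rr (n : ℕ) : ℝ := (4 * n + 14) / rt n

lemma rr_pos (n : ℕ) : 0 < rr n := by
  unfold rr
  have := rt_pos n
  positivity

lemma summable_rr : Summable rr := by
  have h1 : Summable (fun n : ℕ => (n : ℝ) ^ 1 * (1 / Real.sqrt 2) ^ n) := by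
    apply summable_pow_mul_geometric_of_norm_lt_one
    rw [Real.norm_of_nonneg (by positivity)]
    rw [div_lt_one (by positivity)]
    exact Real.lt_sqrt_of_sq_lt (by norm_num)
  have h2 : Summable (fun n : ℕ => (1 / Real.sqrt 2) ^ n) := by
    apply summable_geometric_of_lt_one (by positivity)
    rw [div_lt_one (by positivity)]
    exact Real.lt_sqrt_of_sq_lt (by norm_num)
  have h3 := (h1.mul_left 4).add (h2.mul_left 14)
  refine h3.congr (fun n => ?_)
  unfold rr rt
  rw [div_pow, one_pow]
  ring

lemma exists_level (n : ℕ) :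
    ∃ (s : (Fin n → Bool) → (Fin (n + 2) → Bool) → ℝ)
      (t : (Fin (n + 1) → Bool) → (Fin (n + 2) → Bool) → ℝ),
      (∀ j g, |s j g| = 1) ∧ (∀ j g, |t j g| = 1) ∧
      (∀ j j', ∑ g, s j g * s j' g = if j = j' then (2 : ℝ) ^ (n + 2) else 0) ∧
      (∀ j j', ∑ g, t j g * t j' g = if j = j' then (2 : ℝ) ^ (n + 2) else 0) ∧
      (∀ j j', ∑ g, t j g * s j' g = 0) ∧
      (∀ g h, |(1 / 2 ^ (n + 1)) * ∑ j, t j g * t j h - (1 / 2 ^ n) * ∑ j, s j g * s j h| ≤
        rr n) := by
  classical
  have hl : (0 : ℝ) < 1 / rt n := by
    have := rt_pos n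
    positivity
  -- first halving
  obtain ⟨c, hc⟩ := exists_halving (J := Fin (n + 1) → Bool)
    (X := (Fin (n + 2) → Bool) × (Fin (n + 2) → Bool))
    (fun k x => W (row true k) x.1 * W (row true k) x.2)
    (fun k x => W (row false k) x.1 * W (row false k) x.2)
    (fun k x => by rw [abs_mul, abs_W, abs_W]; norm_num)
    (fun k x => by rw [abs_mul, abs_W, abs_W]; norm_num) (1 / rt n) hl
  obtain ⟨d, hd⟩ := exists_halving (J := Fin n → Bool)
    (X := (Fin (n + 2) → Bool) × (Fin (n + 2) → Bool))
    (fun l x => W (row (!c (row true l)) (row true l)) x.1 *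
      W (row (!c (row true l)) (row true l)) x.2)
    (fun l x => W (row (!c (row false l)) (row false l)) x.1 *
      W (row (!c (row false l)) (row false l)) x.2)
    (fun k x => by rw [abs_mul, abs_W, abs_W]; norm_num)
    (fun k x => by rw [abs_mul, abs_W, abs_W]; norm_num) (1 / rt n) hl
  refine ⟨fun l g => W (row (!c (row (d l) l)) (row (d l) l)) g, fun j g => W (row (c j) j) g,
    fun _ _ => abs_W _ _, fun _ _ => abs_W _ _, ?_, ?_, ?_, ?_⟩
  · intro j j'
    rw [W_orth]
    by_cases h : j = j'
    · subst h; simp
    · rw [if_neg h, if_neg]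
      intro h'
      rw [row_inj, row_inj] at h'
      exact h h'.2.2
  · intro j j'
    rw [W_orth]
    by_cases h : j = j'
    · subst h; simp
    · rw [if_neg h, if_neg]
      intro h'
      rw [row_inj] at h'
      exact h h'.2
  · intro j j'
    rw [W_orth, if_neg]
    intro h'
    rw [row_inj] at h'
    obtain ⟨h1, h2⟩ := h'
    rw [← h2] at h1
    cases hcj : c j <;> simp [hcj] at h1
  · intro g h
    by_cases hgh : g = h
    · subst hgh
      have e1 : ∀ j : Fin (n + 1) → Bool, W (row (c j) j) g * W (row (c j) j) g = 1 :=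
        fun j => W_mul_self _ _
      have e2 : ∀ l : Fin n → Bool, W (row (!c (row (d l) l)) (row (d l) l)) g *
          W (row (!c (row (d l) l)) (row (d l) l)) g = 1 := fun j => W_mul_self _ _
      rw [Finset.sum_congr rfl (fun j _ => e1 j), Finset.sum_congr rfl (fun j _ => e2 j)]
      simp only [Finset.sum_const, Finset.card_univ, Fintype.card_fun, Fintype.card_bool,
        Fintype.card_fin, nsmul_eq_mul, mul_one, Nat.cast_pow, Nat.cast_ofNat]
      have h1 : (1 : ℝ) / 2 ^ (n + 1) * 2 ^ (n + 1) = 1 := by field_simp
      have h2 : (1 : ℝ) / 2 ^ n * 2 ^ n = 1 := by field_simp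
      rw [h1, h2, sub_self, abs_zero]
      exact (rr_pos n).le
    · have hc' := hc (g, h)
      have hd' := hd (g, h)
      simp only at hc' hd'
      -- rewrite the chosen sums
      have e1 : ∑ k, (if c k then W (row true k) g * W (row true k) h
          else W (row false k) g * W (row false k) h) = ∑ k, W (row (c k) k) g * W (row (c k) k) h := by
        apply Finset.sum_congr rfl
        intro k _
        cases c k <;> simp
      have e2 : ∑ l, (if d l then W (row (!c (row true l)) (row true l)) g *
          W (row (!c (row true l)) (row true l)) h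
          else W (row (!c (row false l)) (row false l)) g *
            W (row (!c (row false l)) (row false l)) h) =
          ∑ l, W (row (!c (row (d l) l)) (row (d l) l)) g *
            W (row (!c (row (d l) l)) (row (d l) l)) h := by
        apply Finset.sum_congr rfl
        intro l _
        cases d l <;> simp
      have e3 : ∑ k, (W (row true k) g * W (row true k) h + W (row false k) g * W (row false k) h) =
          0 := by
        rw [← sum_rows (fun a => W a g * W a h), W_orth', if_neg hgh]
      have e4 : ∑ l, (W (row (!c (row true l)) (row true l)) g *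
          W (row (!c (row true l)) (row true l)) h +
          W (row (!c (row false l)) (row false l)) g *
            W (row (!c (row false l)) (row false l)) h) =
          - ∑ k, W (row (c k) k) g * W (row (c k) k) h := by
        rw [← sum_rows (fun k => W (row (!c k) k) g * W (row (!c k) k) h)]
        rw [eq_neg_iff_add_eq_zero, ← Finset.sum_add_distrib, ← e3]
        apply Finset.sum_congr rfl
        intro k _
        cases c k <;> simp [add_comm]
      rw [e1, e3, mul_zero, sub_zero] at hc'
      rw [e2, e4] at hd'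
      set A := ∑ k, W (row (c k) k) g * W (row (c k) k) h
      set B := ∑ l, W (row (!c (row (d l) l)) (row (d l) l)) g *
            W (row (!c (row (d l) l)) (row (d l) l)) h
      have hcard : (Fintype.card ((Fin (n + 2) → Bool) × (Fin (n + 2) → Bool)) : ℝ) =
          2 ^ (2 * n + 4) := by
        simp only [Fintype.card_prod, Fintype.card_fun, Fintype.card_bool, Fintype.card_fin]
        push_cast
        rw [← pow_add]
        congr 1
        omega
      rw [hcard] at hc' hd'
      have hlog : Real.log (2 * 2 ^ (2 * n + 4)) ≤ 2 * n + 5 := by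
        have := log_bound (2 * n + 4)
        push_cast at this
        linarith
      have hrt := rt_pos n
      have hrs := rt_sq n
      have hA : |A| ≤ (2 * n + 6) * rt n := by
        refine hc'.trans ?_
        simp only [Fintype.card_fun, Fintype.card_bool, Fintype.card_fin]
        push_cast
        have e5 : Real.log (2 * 2 ^ (2 * n + 4)) / (1 / rt n) =
            Real.log (2 * 2 ^ (2 * n + 4)) * rt n := by field_simp
        have e6 : 1 / rt n * 2 ^ (n + 1) / 2 = rt n := by
          rw [pow_succ, ← hrs]; field_simp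
        rw [e5, e6]
        nlinarith
      have hB : |B - 1 / 2 * -A| ≤ (2 * n + 6) * rt n := by
        refine hd'.trans ?_
        simp only [Fintype.card_fun, Fintype.card_bool, Fintype.card_fin]
        push_cast
        have e5 : Real.log (2 * 2 ^ (2 * n + 4)) / (1 / rt n) =
            Real.log (2 * 2 ^ (2 * n + 4)) * rt n := by field_simp
        have e6 : 1 / rt n * 2 ^ n / 2 = rt n / 2 := by
          rw [← hrs]; field_simp
        rw [e5, e6]
        nlinarith
      have e7 : (1 / 2 ^ (n + 1)) * A - (1 / 2 ^ n) * B =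
          (1 / 2 ^ n) * (A - (B - 1 / 2 * -A)) := by
        rw [pow_succ]; field_simp; ring
      rw [e7, abs_mul, abs_of_pos (by positivity : (0:ℝ) < 1 / 2 ^ n)]
      have h8 : |A - (B - 1 / 2 * -A)| ≤ 2 * ((2 * n + 6) * rt n) := by
        calc |A - (B - 1 / 2 * -A)| ≤ |A| + |B - 1 / 2 * -A| := abs_sub _ _
          _ ≤ _ := by linarith
      calc (1 / 2 ^ n) * |A - (B - 1 / 2 * -A)| ≤ (1 / 2 ^ n) * (2 * ((2 * n + 6) * rt n)) := by
            gcongr
        _ = (4 * n + 12) * (rt n / 2 ^ n) := by ring
        _ = (4 * n + 12) / rt n := by rw [rt_div]; ring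
        _ ≤ rr n := by
            unfold rr
            gcongr
            linarith

end Pool.Agent.H5.TB
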