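import Mathlib
import Pool.Agent.H5.TB.Level

set_option autoImplicit false

namespace Pool.Agent.H5.TB

open Finset

/-- decode a natural number as a bit string -/
noncomputable def dec (m i : ℕ) : Fin m → Bool :=
  if h : i < 2 ^ m then
    (Fintype.equivFinOfCardEq (α := Fin m → Bool) (n := 2 ^ m) (by simp)).symm ⟨i, h⟩
  else fun _ => true

lemma sum_dec (m : ℕ) (F : (Fin m → Bool) → ℝ) :
    ∑ i ∈ range (2 ^ m), F (dec m i) = ∑ a, F a := by
  rw [Finset.sum_range]
  rw [← Equiv.sum_comp (Fintype.equivFinOfCardEq (α := Fin m → Bool) (n := 2 ^ m) (by simp)).symm F]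
  apply Finset.sum_congr rfl
  intro i _
  unfold dec
  rw [dif_pos i.2]

lemma dec_inj {m i i' : ℕ} (hi : i < 2 ^ m) (hi' : i' < 2 ^ m) : dec m i = dec m i' ↔ i = i' := by
  unfold dec
  rw [dif_pos hi, dif_pos hi']
  rw [Equiv.apply_eq_iff_eq]
  simp

/-- A system of sign arrays: `s n j g`, `j < 2^n`, `g < 2^(n+2)` and `t n j g`,
`j < 2^(n+1)`, `g < 2^(n+2)`. -/
structure Sys (s t : ℕ → ℕ → ℕ → ℝ) : Prop where
  s_abs : ∀ n j g, |s n j g| = 1
  t_abs : ∀ n j g, |t n j g| = 1
  ss : ∀ n j j', j < 2 ^ n → j' < 2 ^ n →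
    ∑ g ∈ range (2 ^ (n + 2)), s n j g * s n j' g = if j = j' then (2 : ℝ) ^ (n + 2) else 0
  tt : ∀ n j j', j < 2 ^ (n + 1) → j' < 2 ^ (n + 1) →
    ∑ g ∈ range (2 ^ (n + 2)), t n j g * t n j' g = if j = j' then (2 : ℝ) ^ (n + 2) else 0
  ts : ∀ n j j', j < 2 ^ (n + 1) → j' < 2 ^ n →
    ∑ g ∈ range (2 ^ (n + 2)), t n j g * s n j' g = 0
  diag : ∀ n g h, g < 2 ^ (n + 2) → h < 2 ^ (n + 2) →
    |(1 / 2 ^ (n + 1)) * ∑ j ∈ range (2 ^ (n + 1)), t n j g * t n j h -
      (1 / 2 ^ n) * ∑ j ∈ range (2 ^ n), s n j g * s n j h| ≤ rr n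
  cross : ∀ n g h, g < 2 ^ (n + 3) → h < 2 ^ (n + 2) →
    |(1 / 2 ^ (n + 1)) * ∑ j ∈ range (2 ^ (n + 1)), s (n + 1) j g * t n j h| ≤ rr n

theorem exists_sys : ∃ s t : ℕ → ℕ → ℕ → ℝ, Sys s t := by
  classical
  choose s0 t0 hs ht hss htt hts hD using exists_level
  have hsig : ∃ eps : ∀ n : ℕ, (Fin n → Bool) → ℝ, (∀ n j, |eps n j| = 1) ∧
      ∀ n g h, |∑ j, eps (n + 1) j * (s0 (n + 1) j g * t0 n j h)| ≤ (2 * n + 7) * rt n := by
    choose c hc using (fun n : ℕ => exists_signs (J := Fin (n + 1) → Bool)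
      (X := (Fin (n + 1 + 2) → Bool) × (Fin (n + 2) → Bool))
      (fun j x => s0 (n + 1) j x.1 * t0 n j x.2)
      (fun j x => by rw [abs_mul, hs, ht]; norm_num) (1 / rt n)
      (by have := rt_pos n; positivity))
    refine ⟨fun n => match n with
      | 0 => fun _ => 1
      | (n + 1) => fun j => sg (c n j), ?_, ?_⟩
    · intro n j
      cases n with
      | zero => simp
      | succ n => exact abs_sg _
    · intro n g h
      have h1 := hc n (g, h)
      simp only at h1
      refine h1.trans ?_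
      simp only [Fintype.card_prod, Fintype.card_fun, Fintype.card_bool, Fintype.card_fin]
      have hrt := rt_pos n
      have hrs := rt_sq n
      have e0 : (2 * ((2 ^ (n + 1 + 2) * 2 ^ (n + 2) : ℕ) : ℝ)) = 2 * 2 ^ (2 * n + 5) := by
        push_cast
        rw [← pow_add]
        congr 2
        omega
      rw [e0]
      have hlog : Real.log (2 * 2 ^ (2 * n + 5)) ≤ 2 * n + 6 := by
        have := log_bound (2 * n + 5)
        push_cast at this
        linarith
      push_cast
      have e5 : Real.log (2 * 2 ^ (2 * n + 5)) / (1 / rt n) =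
          Real.log (2 * 2 ^ (2 * n + 5)) * rt n := by field_simp
      have e6 : 1 / rt n * 2 ^ (n + 1) / 2 = rt n := by
        rw [pow_succ, ← hrs]; field_simp
      rw [e5, e6]
      nlinarith
  obtain ⟨eps, heps, hcross⟩ := hsig
  have heps2 : ∀ n j, eps n j * eps n j = 1 := by
    intro n j
    rw [← abs_mul_abs_self, heps]; norm_num
  refine ⟨fun n j g => eps n (dec n j) * s0 n (dec n j) (dec (n + 2) g),
    fun n j g => t0 n (dec (n + 1) j) (dec (n + 2) g), ?_, ?_, ?_, ?_, ?_, ?_, ?_⟩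
  · intro n j g
    rw [abs_mul, heps, hs, one_mul]
  · intro n j g
    exact ht _ _ _
  · intro n j j' hj hj'
    have e1 : ∑ g ∈ range (2 ^ (n + 2)), eps n (dec n j) * s0 n (dec n j) (dec (n + 2) g) *
        (eps n (dec n j') * s0 n (dec n j') (dec (n + 2) g)) =
        (eps n (dec n j) * eps n (dec n j')) *
        ∑ g ∈ range (2 ^ (n + 2)), s0 n (dec n j) (dec (n + 2) g) *
          s0 n (dec n j') (dec (n + 2) g) := by
      rw [Finset.mul_sum]
      apply Finset.sum_congr rfl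
      intro g _
      ring
    rw [e1, sum_dec (n + 2) (fun g => s0 n (dec n j) g * s0 n (dec n j') g), hss]
    by_cases h : j = j'
    · subst h
      simp [heps2]
    · rw [if_neg h, if_neg (fun h' => h ((dec_inj hj hj').mp h')), mul_zero]
  · intro n j j' hj hj'
    rw [sum_dec (n + 2) (fun g => t0 n (dec (n + 1) j) g * t0 n (dec (n + 1) j') g), htt]
    by_cases h : j = j'
    · subst h
      simp
    · rw [if_neg h, if_neg (fun h' => h ((dec_inj hj hj').mp h'))]
  · intro n j j' _ _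
    have e1 : ∑ g ∈ range (2 ^ (n + 2)), t0 n (dec (n + 1) j) (dec (n + 2) g) *
        (eps n (dec n j') * s0 n (dec n j') (dec (n + 2) g)) =
        eps n (dec n j') *
        ∑ g ∈ range (2 ^ (n + 2)), t0 n (dec (n + 1) j) (dec (n + 2) g) *
          s0 n (dec n j') (dec (n + 2) g) := by
      rw [Finset.mul_sum]
      apply Finset.sum_congr rfl
      intro g _
      ring
    rw [e1, sum_dec (n + 2) (fun g => t0 n (dec (n + 1) j) g * s0 n (dec n j') g), hts, mul_zero]
  · intro n g h _ _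
    have e1 : ∑ j ∈ range (2 ^ (n + 1)), t0 n (dec (n + 1) j) (dec (n + 2) g) *
        t0 n (dec (n + 1) j) (dec (n + 2) h) =
        ∑ a, t0 n a (dec (n + 2) g) * t0 n a (dec (n + 2) h) :=
      sum_dec (n + 1) (fun a => t0 n a (dec (n + 2) g) * t0 n a (dec (n + 2) h))
    have e2 : ∑ j ∈ range (2 ^ n), eps n (dec n j) * s0 n (dec n j) (dec (n + 2) g) *
        (eps n (dec n j) * s0 n (dec n j) (dec (n + 2) h)) =
        ∑ a, s0 n a (dec (n + 2) g) * s0 n a (dec (n + 2) h) := by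
      rw [← sum_dec n (fun a => s0 n a (dec (n + 2) g) * s0 n a (dec (n + 2) h))]
      apply Finset.sum_congr rfl
      intro j _
      have := heps2 n (dec n j)
      calc eps n (dec n j) * s0 n (dec n j) (dec (n + 2) g) *
          (eps n (dec n j) * s0 n (dec n j) (dec (n + 2) h)) =
          (eps n (dec n j) * eps n (dec n j)) *
            (s0 n (dec n j) (dec (n + 2) g) * s0 n (dec n j) (dec (n + 2) h)) := by ring
        _ = _ := by rw [this, one_mul]
    rw [e1, e2]
    exact hD n _ _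
  · intro n g h _ _
    have e1 : ∑ j ∈ range (2 ^ (n + 1)), eps (n + 1) (dec (n + 1) j) *
        s0 (n + 1) (dec (n + 1) j) (dec (n + 1 + 2) g) * t0 n (dec (n + 1) j) (dec (n + 2) h) =
        ∑ a, eps (n + 1) a * (s0 (n + 1) a (dec (n + 1 + 2) g) * t0 n a (dec (n + 2) h)) := by
      rw [← sum_dec (n + 1) (fun a => eps (n + 1) a * (s0 (n + 1) a (dec (n + 1 + 2) g) *
        t0 n a (dec (n + 2) h)))]
      apply Finset.sum_congr rfl
      intro j _
      ring
    rw [e1, abs_mul, abs_of_pos (by positivity : (0:ℝ) < 1 / 2 ^ (n + 1))]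
    have h1 := hcross n (dec (n + 1 + 2) g) (dec (n + 2) h)
    have hrt := rt_pos n
    calc 1 / 2 ^ (n + 1) * |∑ a, eps (n + 1) a * (s0 (n + 1) a (dec (n + 1 + 2) g) *
          t0 n a (dec (n + 2) h))| ≤ 1 / 2 ^ (n + 1) * ((2 * n + 7) * rt n) := by gcongr
      _ = ((2 * n + 7) / 2) * (rt n / 2 ^ n) := by rw [pow_succ]; field_simp
      _ = ((2 * n + 7) / 2) / rt n := by rw [rt_div]; ring
      _ ≤ rr n := by
          unfold rr
          gcongr
          have : (0:ℝ) ≤ n := Nat.cast_nonneg n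
          linarith

end Pool.Agent.H5.TB
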