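import Mathlib
import Pool.Agent.H5.TB.System

set_option autoImplicit false

namespace Pool.Agent.H5.TB

open Finset Filter Topology

section aux

variable {𝕜 E F : Type*} [RCLike 𝕜] [NormedAddCommGroup E] [NormedSpace 𝕜 E]
  [NormedAddCommGroup F] [NormedSpace 𝕜 F]

lemma clm_smul_apply (c : 𝕜) (f : E →L[𝕜] F) (x : E) : (c • f) x = c • f x := rfl

lemma clm_sum_apply {ι : Type*} (u : Finset ι) (f : ι → E →L[𝕜] F) (x : E) :
    (∑ i ∈ u, f i) x = ∑ i ∈ u, f i x := by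
  simp

end aux

section lpone

variable {𝕜 : Type*} [RCLike 𝕜] {Y : ℕ → Type*} [∀ m, NormedAddCommGroup (Y m)]
  [∀ m, NormedSpace 𝕜 (Y m)]

lemma lp_one_summable (y : lp Y 1) : Summable (fun m => ‖y m‖) := by
  have h := (lp.memℓp y).summable (by simp)
  simpa using h

lemma lp_one_norm (y : lp Y 1) : ‖y‖ = ∑' m, ‖y m‖ := by
  have h := lp.norm_eq_tsum_rpow (p := 1) (by simp) y
  simpa using h

end lpone

variable (𝕜 : Type) [RCLike 𝕜] (s t : ℕ → ℕ → ℕ → ℝ)

/-- the elements of Davie's system, as functions on the points `(n', g)` -/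
noncomputable def ev (n j n' g : ℕ) : ℝ :=
  if j < 2 ^ n then (if n' = n then s n j g else if n' + 1 = n then t n' j g else 0) else 0

/-- the points of level at most `m` -/
abbrev Pt (m : ℕ) : Type := (n : Fin (m + 1)) × Fin (2 ^ ((n : ℕ) + 2))

/-- the restriction of the system to the points of level at most `m` -/
noncomputable def evP (m n j : ℕ) : Pt m → 𝕜 := fun p => ((ev s t n j p.1 p.2 : ℝ) : 𝕜)

/-- the span of the restrictions -/
def WW (m : ℕ) : Submodule 𝕜 (Pt m → 𝕜) :=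
  Submodule.span 𝕜 (Set.range (fun nj : ℕ × ℕ => evP 𝕜 s t m nj.1 nj.2))

/-- the span of the restrictions, as a normed space (sup norm) -/
def WT (m : ℕ) : Type := WW 𝕜 s t m

noncomputable instance (m : ℕ) : NormedAddCommGroup (WT 𝕜 s t m) :=
  inferInstanceAs (NormedAddCommGroup (WW 𝕜 s t m))

noncomputable instance (m : ℕ) : NormedSpace 𝕜 (WT 𝕜 s t m) :=
  inferInstanceAs (NormedSpace 𝕜 (WW 𝕜 s t m))

instance (m : ℕ) : FiniteDimensional 𝕜 (WT 𝕜 s t m) :=
  inferInstanceAs (FiniteDimensional 𝕜 (WW 𝕜 s t m))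

/-- the inclusion -/
noncomputable def incl (m : ℕ) : WT 𝕜 s t m →L[𝕜] (Pt m → 𝕜) := (WW 𝕜 s t m).subtypeL

/-- the restriction of the system, as an element of `WT m` -/
noncomputable def eW (m n j : ℕ) : WT 𝕜 s t m :=
  (⟨evP 𝕜 s t m n j, Submodule.subset_span ⟨(n, j), rfl⟩⟩ : WW 𝕜 s t m)

/-- The dual of `WT m`. -/
abbrev YY (m : ℕ) : Type := WT 𝕜 s t m →L[𝕜] 𝕜

lemma ext_WT (m : ℕ) (f f' : YY 𝕜 s t m) (key : ∀ n j, f (eW 𝕜 s t m n j) = f' (eW 𝕜 s t m n j)) :
    f = f' := by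
  refine ContinuousLinearMap.ext (fun w => ?_)
  obtain ⟨w, hw⟩ := w
  induction hw using Submodule.span_induction with
  | mem x hx =>
    obtain ⟨⟨n', j'⟩, rfl⟩ := hx
    exact key n' j'
  | zero => exact (map_zero f).trans (map_zero f').symm
  | add x y hx hy ihx ihy =>
    have e1 := map_add f (⟨x, hx⟩ : WW 𝕜 s t m) (⟨y, hy⟩ : WW 𝕜 s t m)
    have e2 := map_add f' (⟨x, hx⟩ : WW 𝕜 s t m) (⟨y, hy⟩ : WW 𝕜 s t m)
    exact e1.trans ((congrArg₂ (· + ·) ihx ihy).trans e2.symm)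
  | smul a x hx ihx =>
    have e1 := map_smul f a (⟨x, hx⟩ : WW 𝕜 s t m)
    have e2 := map_smul f' a (⟨x, hx⟩ : WW 𝕜 s t m)
    exact e1.trans ((congrArg (a • ·) ihx).trans e2.symm)

/-- The space `X`, the `l_1` sum of the `YY m`. -/
abbrev XX : Type := lp (fun m => YY 𝕜 s t m) 1

example (m : ℕ) : FiniteDimensional 𝕜 (YY 𝕜 s t m) := inferInstance

example : CompleteSpace (XX 𝕜 s t) := inferInstance

/-- evaluation at a point -/
noncomputable def dl (m n g : ℕ) : YY 𝕜 s t m :=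
  if h : n < m + 1 ∧ g < 2 ^ (n + 2) then
    (ContinuousLinearMap.proj (R := 𝕜) (φ := fun _ : Pt m => 𝕜)
      (⟨⟨n, h.1⟩, ⟨g, h.2⟩⟩ : Pt m)).comp (incl 𝕜 s t m)
  else 0

lemma dl_apply (m n g : ℕ) (h1 : n < m + 1) (h2 : g < 2 ^ (n + 2)) (w : WT 𝕜 s t m) :
    dl 𝕜 s t m n g w = incl 𝕜 s t m w ⟨⟨n, h1⟩, ⟨g, h2⟩⟩ := by
  unfold dl
  rw [dif_pos ⟨h1, h2⟩]
  rfl

lemma norm_dl_le (m n g : ℕ) : ‖dl 𝕜 s t m n g‖ ≤ 1 := by
  unfold dl
  split_ifs with h
  · apply ContinuousLinearMap.opNorm_le_bound _ zero_le_one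
    intro w
    rw [one_mul]
    exact norm_le_pi_norm (incl 𝕜 s t m w) _
  · rw [norm_zero]; exact zero_le_one

/-- the coordinate functionals, first representation -/
noncomputable def al (m n j : ℕ) : YY 𝕜 s t m :=
  ((1 / 2 ^ (n + 2) : ℝ) : 𝕜) • ∑ g ∈ range (2 ^ (n + 2)), ((s n j g : ℝ) : 𝕜) • dl 𝕜 s t m n g

/-- the coordinate functionals, second representation -/
noncomputable def al' (m n j : ℕ) : YY 𝕜 s t m :=
  ((1 / 2 ^ (n + 2) : ℝ) : 𝕜) • ∑ g ∈ range (2 ^ (n + 2)), ((t n j g : ℝ) : 𝕜) • dl 𝕜 s t m n g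

variable {s t}

lemma norm_al_le (h : Sys s t) (m n j : ℕ) : ‖al 𝕜 s t m n j‖ ≤ 1 := by
  unfold al
  rw [norm_smul, RCLike.norm_ofReal, abs_of_pos (by positivity)]
  have h1 : ‖∑ g ∈ range (2 ^ (n + 2)), ((s n j g : ℝ) : 𝕜) • dl 𝕜 s t m n g‖ ≤ 2 ^ (n + 2) := by
    refine (norm_sum_le _ _).trans ?_
    calc ∑ g ∈ range (2 ^ (n + 2)), ‖((s n j g : ℝ) : 𝕜) • dl 𝕜 s t m n g‖
        ≤ ∑ g ∈ range (2 ^ (n + 2)), (1 : ℝ) := by
          apply Finset.sum_le_sum
          intro g _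
          rw [norm_smul, RCLike.norm_ofReal, h.s_abs, one_mul]
          exact norm_dl_le 𝕜 s t m n g
      _ = 2 ^ (n + 2) := by simp
  calc 1 / 2 ^ (n + 2) * ‖∑ g ∈ range (2 ^ (n + 2)), ((s n j g : ℝ) : 𝕜) • dl 𝕜 s t m n g‖
      ≤ 1 / 2 ^ (n + 2) * 2 ^ (n + 2) := by gcongr
    _ = 1 := by field_simp

lemma dl_eW (m n g n' j' : ℕ) (h1 : n < m + 1) (h2 : g < 2 ^ (n + 2)) :
    dl 𝕜 s t m n g (eW 𝕜 s t m n' j') = ((ev s t n' j' n g : ℝ) : 𝕜) := by
  rw [dl_apply 𝕜 s t m n g h1 h2]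
  rfl

lemma al_eW (m n j n' j' : ℕ) (h1 : n < m + 1) :
    al 𝕜 s t m n j (eW 𝕜 s t m n' j') =
      (((1 / 2 ^ (n + 2)) * ∑ g ∈ range (2 ^ (n + 2)), s n j g * ev s t n' j' n g : ℝ) : 𝕜) := by
  unfold al
  rw [clm_smul_apply, clm_sum_apply, smul_eq_mul]
  push_cast
  congr 1
  apply Finset.sum_congr rfl
  intro g hg
  rw [Pi.smul_apply, dl_eW 𝕜 m n g n' j' h1 (Finset.mem_range.mp hg), smul_eq_mul]

lemma al'_eW (m n j n' j' : ℕ) (h1 : n < m + 1) :
    al' 𝕜 s t m n j (eW 𝕜 s t m n' j') =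
      (((1 / 2 ^ (n + 2)) * ∑ g ∈ range (2 ^ (n + 2)), t n j g * ev s t n' j' n g : ℝ) : 𝕜) := by
  unfold al'
  rw [clm_smul_apply, clm_sum_apply, smul_eq_mul]
  push_cast
  congr 1
  apply Finset.sum_congr rfl
  intro g hg
  rw [Pi.smul_apply, dl_eW 𝕜 m n g n' j' h1 (Finset.mem_range.mp hg), smul_eq_mul]

lemma al_diag (h : Sys s t) (m j : ℕ) (hj : j < 2 ^ m) :
    al 𝕜 s t m m j (eW 𝕜 s t m m j) = 1 := by
  rw [al_eW 𝕜 m m j m j (Nat.lt_succ_self m)]
  have e : ∀ g, ev s t m j m g = s m j g := by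
    intro g
    unfold ev
    rw [if_pos hj, if_pos rfl]
  simp only [e]
  rw [h.ss m j j hj hj, if_pos rfl]
  have : (1 : ℝ) / 2 ^ (m + 2) * 2 ^ (m + 2) = 1 := by field_simp
  rw [this]
  simp

/-- The two representations agree. -/
lemma al_eq_al' (h : Sys s t) (m n j : ℕ) (hn : n + 1 < m + 1) (hj : j < 2 ^ (n + 1)) :
    al 𝕜 s t m (n + 1) j = al' 𝕜 s t m n j := by
  have key : ∀ n' j', al 𝕜 s t m (n + 1) j (eW 𝕜 s t m n' j') =
      al' 𝕜 s t m n j (eW 𝕜 s t m n' j') := by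
    intro n' j'
    rw [al_eW 𝕜 m (n + 1) j n' j' hn, al'_eW 𝕜 m n j n' j' (by omega)]
    congr 1
    by_cases hj' : j' < 2 ^ n'
    · by_cases h1 : n' = n + 1
      · subst h1
        have e1 : ∀ g, ev s t (n + 1) j' (n + 1) g = s (n + 1) j' g := by
          intro g; unfold ev; rw [if_pos hj', if_pos rfl]
        have e2 : ∀ g, ev s t (n + 1) j' n g = t n j' g := by
          intro g; unfold ev; rw [if_pos hj', if_neg (by omega), if_pos rfl]
        simp only [e1, e2]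
        rw [h.ss (n + 1) j j' hj hj', h.tt n j j' hj hj']
        split_ifs
        · have a1 : (1 : ℝ) / 2 ^ (n + 1 + 2) * 2 ^ (n + 1 + 2) = 1 := by field_simp
          have a2 : (1 : ℝ) / 2 ^ (n + 2) * 2 ^ (n + 2) = 1 := by field_simp
          rw [a1, a2]
        · simp
      · by_cases h2 : n' = n + 2
        · subst h2
          have e1 : ∀ g, ev s t (n + 2) j' (n + 1) g = t (n + 1) j' g := by
            intro g; unfold ev; rw [if_pos hj', if_neg (by omega), if_pos (by omega)]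
          have e2 : ∀ g, ev s t (n + 2) j' n g = 0 := by
            intro g; unfold ev; rw [if_pos hj', if_neg (by omega), if_neg (by omega)]
          simp only [e1, e2]
          have h3 := h.ts (n + 1) j' j hj' hj
          have e3 : ∑ g ∈ range (2 ^ (n + 1 + 2)), s (n + 1) j g * t (n + 1) j' g = 0 := by
            rw [← h3]
            apply Finset.sum_congr rfl
            intro g _
            ring
          rw [e3]
          simp
        · by_cases h4 : n' = n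
          · subst h4
            have e1 : ∀ g, ev s t n' j' (n' + 1) g = 0 := by
              intro g; unfold ev; rw [if_pos hj', if_neg (by omega), if_neg (by omega)]
            have e2 : ∀ g, ev s t n' j' n' g = s n' j' g := by
              intro g; unfold ev; rw [if_pos hj', if_pos rfl]
            simp only [e1, e2]
            rw [h.ts n' j j' hj hj']
            simp
          · have e1 : ∀ g, ev s t n' j' (n + 1) g = 0 := by
              intro g; unfold ev; rw [if_pos hj', if_neg (by omega), if_neg (by omega)]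
            have e2 : ∀ g, ev s t n' j' n g = 0 := by
              intro g; unfold ev; rw [if_pos hj', if_neg (by omega), if_neg (by omega)]
            simp only [e1, e2]
            simp
    · have e1 : ∀ g n'', ev s t n' j' n'' g = 0 := by
        intro g n''; unfold ev; rw [if_neg hj']
      simp only [e1]
      simp
  exact ext_WT 𝕜 s t m _ _ key

end Pool.Agent.H5.TB
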