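import Mathlib
import Pool.Agent.H5.TB.Space

set_option autoImplicit false

namespace Pool.Agent.H5.TB

open Finset Filter Topology

/-- the dual space, wrapped -/
def Du (𝕜 : Type) [RCLike 𝕜] (X : Type) [NormedAddCommGroup X] [NormedSpace 𝕜 X] : Type :=
  X →L[𝕜] 𝕜

variable {𝕜 : Type} [RCLike 𝕜] {X : Type} [NormedAddCommGroup X] [NormedSpace 𝕜 X]

noncomputable instance : NormedAddCommGroup (Du 𝕜 X) :=
  inferInstanceAs (NormedAddCommGroup (X →L[𝕜] 𝕜))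

noncomputable instance : NormedSpace 𝕜 (Du 𝕜 X) :=
  inferInstanceAs (NormedSpace 𝕜 (X →L[𝕜] 𝕜))

/-- unwrap -/
def ud (f : Du 𝕜 X) : X →L[𝕜] 𝕜 := f

/-- wrap -/
def wd (f : X →L[𝕜] 𝕜) : Du 𝕜 X := f

lemma norm_ud (f : Du 𝕜 X) : ‖ud f‖ = ‖f‖ := rfl

lemma norm_wd (f : X →L[𝕜] 𝕜) : ‖wd f‖ = ‖f‖ := rfl

/-- evaluation on a space of functionals -/
noncomputable def evF (F : Submodule 𝕜 (Du 𝕜 X)) : X →L[𝕜] (F →L[𝕜] 𝕜) :=
  ((ContinuousLinearMap.compL 𝕜 F (Du 𝕜 X) 𝕜).flip F.subtypeL).comp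
    (NormedSpace.inclusionInDoubleDual 𝕜 X : X →L[𝕜] (Du 𝕜 X →L[𝕜] 𝕜))

lemma evF_apply (F : Submodule 𝕜 (Du 𝕜 X)) (x : X) (f : F) :
    evF F x f = ud (f : Du 𝕜 X) x := rfl

lemma norm_evF_le (F : Submodule 𝕜 (Du 𝕜 X)) (x : X) : ‖evF F x‖ ≤ ‖x‖ := by
  apply ContinuousLinearMap.opNorm_le_bound _ (norm_nonneg x)
  intro f
  rw [evF_apply, mul_comm]
  exact (ud (f : Du 𝕜 X)).le_opNorm x

/-- the map defining the new norm -/
noncomputable def Th (F : Submodule 𝕜 (Du 𝕜 X)) (M : ℝ) : X →L[𝕜] X × (F →L[𝕜] 𝕜) :=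
  (((M⁻¹ : ℝ) : 𝕜) • ContinuousLinearMap.id 𝕜 X).prod (evF F)

/-- `X` with the norm `max (‖x‖ / M) (sup of |f x| over the unit ball of F)` -/
noncomputable def ER (F : Submodule 𝕜 (Du 𝕜 X)) (M : ℝ) : Submodule 𝕜 (X × (F →L[𝕜] 𝕜)) :=
  LinearMap.range (Th F M : X →ₗ[𝕜] X × (F →L[𝕜] 𝕜))

/-- `ER` as a normed space -/
def ET (F : Submodule 𝕜 (Du 𝕜 X)) (M : ℝ) : Type := ER F M

noncomputable instance (F : Submodule 𝕜 (Du 𝕜 X)) (M : ℝ) : NormedAddCommGroup (ET F M) :=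
  inferInstanceAs (NormedAddCommGroup (ER F M))

noncomputable instance (F : Submodule 𝕜 (Du 𝕜 X)) (M : ℝ) : NormedSpace 𝕜 (ET F M) :=
  inferInstanceAs (NormedSpace 𝕜 (ER F M))

/-- the identity, from `X` to the renormed space -/
noncomputable def toE (F : Submodule 𝕜 (Du 𝕜 X)) (M : ℝ) : X →L[𝕜] ET F M :=
  (Th F M).codRestrict (ER F M) (fun x => ⟨x, rfl⟩)

/-- the identity, from the renormed space to `X` -/
noncomputable def fromE (F : Submodule 𝕜 (Du 𝕜 X)) (M : ℝ) : ET F M →L[𝕜] X :=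
  ((M : ℝ) : 𝕜) • ((ContinuousLinearMap.fst 𝕜 X (F →L[𝕜] 𝕜)).comp (ER F M).subtypeL)

variable (F : Submodule 𝕜 (Du 𝕜 X)) {M : ℝ}

lemma norm_toE (hM : 1 ≤ M) (x : X) : ‖toE F M x‖ = max (‖x‖ / M) ‖evF F x‖ := by
  have e : ‖toE F M x‖ = ‖Th F M x‖ := rfl
  rw [e]
  unfold Th
  rw [ContinuousLinearMap.prod_apply, Prod.norm_def]
  simp only [clm_smul_apply, ContinuousLinearMap.id_apply]
  rw [norm_smul, RCLike.norm_ofReal, abs_of_pos (by positivity)]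
  congr 1
  field_simp

lemma norm_toE_le (hM : 1 ≤ M) (x : X) : ‖toE F M x‖ ≤ ‖x‖ := by
  rw [norm_toE F hM]
  apply max_le
  · rw [div_le_iff₀ (by linarith)]
    have := norm_nonneg x
    nlinarith
  · exact norm_evF_le F x

lemma norm_evF_le_toE (hM : 1 ≤ M) (x : X) : ‖evF F x‖ ≤ ‖toE F M x‖ := by
  rw [norm_toE F hM]
  exact le_max_right _ _

lemma fromE_toE (hM : 1 ≤ M) (x : X) : fromE F M (toE F M x) = x := by
  have e : fromE F M (toE F M x) = ((M : ℝ) : 𝕜) • (((M⁻¹ : ℝ) : 𝕜) • x) := rfl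
  rw [e, smul_smul, ← RCLike.ofReal_mul, mul_inv_cancel₀ (by linarith), RCLike.ofReal_one, one_smul]

lemma toE_fromE (hM : 1 ≤ M) (y : ET F M) : toE F M (fromE F M y) = y := by
  obtain ⟨x, hx⟩ : ∃ x, toE F M x = y := by
    obtain ⟨y, x, hx⟩ := y
    exact ⟨x, Subtype.ext hx⟩
  rw [← hx, fromE_toE F hM]

lemma norm_fromE_le (hM : 1 ≤ M) (y : ET F M) : ‖fromE F M y‖ ≤ M * ‖y‖ := by
  have h1 := norm_toE F hM (fromE F M y)
  rw [toE_fromE F hM] at h1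
  have h2 : ‖fromE F M y‖ / M ≤ ‖y‖ := by
    rw [h1]; exact le_max_left _ _
  rwa [div_le_iff₀ (by linarith), mul_comm] at h2

/-- the equivalence of `X` with the renormed space -/
noncomputable def eqE (hM : 1 ≤ M) : X ≃L[𝕜] ET F M :=
  ContinuousLinearEquiv.equivOfInverse (toE F M) (fromE F M) (fromE_toE F hM) (toE_fromE F hM)

lemma complete_ET [CompleteSpace X] (hM : 1 ≤ M) : CompleteSpace (ET F M) :=
  (completeSpace_congr (e := (eqE F hM).toEquiv) (eqE F hM).isUniformEmbedding).mp inferInstance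

/-- functionals vanishing on the joint kernel of a finite dimensional space of functionals -/
lemma mem_of_vanish [FiniteDimensional 𝕜 F] (g : Du 𝕜 X)
    (hg : ∀ x, evF F x = 0 → ud g x = 0) : g ∈ F := by
  let b := Module.finBasis 𝕜 F
  have h1 : ⨅ i, LinearMap.ker ((ud (b i : Du 𝕜 X)) : X →ₗ[𝕜] 𝕜) ≤
      LinearMap.ker (ud g : X →ₗ[𝕜] 𝕜) := by
    intro x hx
    rw [LinearMap.mem_ker]
    apply hg
    have h2 : ∀ i, ud (b i : Du 𝕜 X) x = 0 := by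
      intro i
      have := (Submodule.mem_iInf _).mp hx i
      exact this
    refine ContinuousLinearMap.ext (fun f => ?_)
    have h3 := b.sum_repr f
    rw [← h3, map_sum]
    rw [Finset.sum_eq_zero]
    · rfl
    · intro i _
      rw [map_smul, evF_apply, h2, smul_zero]
  have h4 := mem_span_of_iInf_ker_le_ker h1
  obtain ⟨c, hc⟩ := (Submodule.mem_span_range_iff_exists_fun 𝕜).mp h4
  have h5 : g = ((∑ i, c i • b i : F) : Du 𝕜 X) := by
    have e1 : ud g = ∑ i, c i • ud (b i : Du 𝕜 X) := by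
      refine ContinuousLinearMap.ext (fun x => ?_)
      have h6 := congrArg (fun L : X →ₗ[𝕜] 𝕜 => L x) hc
      simp only [LinearMap.sum_apply, LinearMap.smul_apply] at h6
      rw [clm_sum_apply]
      exact h6.symm
    have e2 : ((∑ i, c i • b i : F) : Du 𝕜 X) = ∑ i, c i • (b i : Du 𝕜 X) := by
      simp
    rw [e2]
    exact e1
  rw [h5]
  exact Submodule.coe_mem _

lemma apply_le_evF (f : Du 𝕜 X) (hf : f ∈ F) (y : X) : ‖ud f y‖ ≤ ‖f‖ * ‖evF F y‖ := by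
  have h1 := (evF F y).le_opNorm (⟨f, hf⟩ : F)
  rw [evF_apply] at h1
  rw [mul_comm]
  exact h1

/-- First step of the Figiel-Johnson argument. -/
lemma near_F [FiniteDimensional 𝕜 F] (hM : 1 ≤ M) (T : ET F M →L[𝕜] ET F M) (l : ℝ)
    (hT : ‖T‖ ≤ l) (f : Du 𝕜 X) (hf : f ∈ F) :
    ∃ g ∈ F, ‖(ud f).comp ((fromE F M).comp (T.comp (toE F M))) - ud g‖ ≤ l * ‖f‖ / M := by
  set S := (fromE F M).comp (T.comp (toE F M)) with hS
  set φ := (ud f).comp S with hφ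
  have hl : 0 ≤ l := (norm_nonneg T).trans hT
  have h1 : ∀ x, ‖φ x‖ ≤ ‖f‖ * (l * max (‖x‖ / M) ‖evF F x‖) := by
    intro x
    have e1 : φ x = ud f (S x) := rfl
    rw [e1]
    refine (apply_le_evF F f hf (S x)).trans ?_
    gcongr
    refine (norm_evF_le_toE F hM (S x)).trans ?_
    have e2 : toE F M (S x) = T (toE F M x) := toE_fromE F hM (T (toE F M x))
    rw [e2, ← norm_toE F hM]
    refine (T.le_opNorm _).trans ?_
    gcongr
  -- restrict to the kernel of evF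
  let X0 : Submodule 𝕜 X := LinearMap.ker (evF F : X →ₗ[𝕜] (F →L[𝕜] 𝕜))
  obtain ⟨h, hh1, hh2⟩ := exists_extension_norm_eq X0 (φ.comp X0.subtypeL)
  have hh3 : ‖h‖ ≤ l * ‖f‖ / M := by
    rw [hh2]
    apply ContinuousLinearMap.opNorm_le_bound _ (by positivity)
    intro x
    have hx : evF F (x : X) = 0 := x.2
    have h2 := h1 (x : X)
    rw [hx, norm_zero, max_eq_left (by positivity)] at h2
    calc ‖(φ.comp X0.subtypeL) x‖ = ‖φ (x : X)‖ := rfl
      _ ≤ ‖f‖ * (l * (‖(x : X)‖ / M)) := h2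
      _ = l * ‖f‖ / M * ‖x‖ := by
          rw [Submodule.coe_norm]; ring
  refine ⟨wd (φ - h), ?_, ?_⟩
  · apply mem_of_vanish
    intro x hx
    have h3 := hh1 (⟨x, hx⟩ : X0)
    have h4 : (φ.comp X0.subtypeL) (⟨x, hx⟩ : X0) = φ x := rfl
    rw [h4] at h3
    have h5 : ud (wd (φ - h)) x = φ x - h x := rfl
    rw [h5, ← h3]
    exact sub_self _
  · have e : φ - ud (wd (φ - h)) = h := by
      have : ud (wd (φ - h)) = φ - h := rfl
      rw [this]; abel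
    rw [e]
    exact hh3

/-- A finite set of vectors of norm at most one which is 2-norming for `F`. -/
lemma exists_norming [FiniteDimensional 𝕜 F] :
    ∃ V : Finset X, (∀ v ∈ V, ‖v‖ ≤ 1) ∧
      ∀ g ∈ F, ∀ r : ℝ, 0 ≤ r → (∀ v ∈ V, ‖ud g v‖ ≤ r) → ‖g‖ ≤ 2 * r := by
  classical
  have : ProperSpace F := FiniteDimensional.proper_rclike 𝕜 F
  have hcomp : IsCompact (Metric.sphere (0 : F) 1) := isCompact_sphere _ _
  have hex : ∀ f : F, ∃ v : X, ‖v‖ ≤ 1 ∧ (‖f‖ = 1 → 3 / 4 < ‖ud (f : Du 𝕜 X) v‖) := by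
    intro f
    by_cases hf : ‖f‖ = 1
    · have h1 : (3 / 4 : ℝ) < ‖ud (f : Du 𝕜 X)‖ := by
        have : ‖ud (f : Du 𝕜 X)‖ = 1 := hf
        rw [this]; norm_num
      obtain ⟨x, hx1, hx2⟩ := ContinuousLinearMap.exists_lt_apply_of_lt_opNorm _ h1
      exact ⟨x, hx1.le, fun _ => hx2⟩
    · exact ⟨0, by simp, fun h => absurd h hf⟩
  choose v hv1 hv2 using hex
  obtain ⟨t, ht1, ht2⟩ := hcomp.elim_nhds_subcover (fun f => Metric.ball f (1/4))
    (fun f _ => Metric.ball_mem_nhds f (by norm_num))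
  refine ⟨t.image v, ?_, ?_⟩
  · intro w hw
    obtain ⟨f, -, rfl⟩ := Finset.mem_image.mp hw
    exact hv1 f
  · intro g hg r hr hgr
    by_cases hg0 : g = 0
    · rw [hg0, norm_zero]; positivity
    have hgn : 0 < ‖g‖ := norm_pos_iff.mpr hg0
    let f : F := (((‖g‖⁻¹ : ℝ)) : 𝕜) • (⟨g, hg⟩ : F)
    have hf1 : ‖f‖ = 1 := by
      have : ‖f‖ = ‖g‖⁻¹ * ‖g‖ := by
        change ‖(((‖g‖⁻¹ : ℝ)) : 𝕜) • (⟨g, hg⟩ : F)‖ = _
        rw [norm_smul, RCLike.norm_ofReal, abs_of_pos (by positivity)]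
        rfl
      rw [this, inv_mul_cancel₀ hgn.ne']
    have hfs : f ∈ Metric.sphere (0 : F) 1 := by
      rw [mem_sphere_zero_iff_norm]; exact hf1
    have := ht2 hfs
    simp only [Set.mem_iUnion] at this
    obtain ⟨f0, hf0t, hf0⟩ := this
    rw [Metric.mem_ball, dist_eq_norm] at hf0
    have h0 : ‖f0‖ = 1 := mem_sphere_zero_iff_norm.mp (ht1 f0 hf0t)
    have h3 := hv2 f0 h0
    have h4 : ‖ud (f : Du 𝕜 X) (v f0) - ud (f0 : Du 𝕜 X) (v f0)‖ ≤ 1 / 4 := by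
      have h5 := (ud ((f - f0 : F) : Du 𝕜 X)).le_opNorm (v f0)
      have h6 : ‖ud ((f - f0 : F) : Du 𝕜 X)‖ = ‖f - f0‖ := rfl
      have h7 := hv1 f0
      have h8 := norm_nonneg (v f0)
      rw [h6] at h5
      have h9 : ud ((f - f0 : F) : Du 𝕜 X) (v f0) =
          ud (f : Du 𝕜 X) (v f0) - ud (f0 : Du 𝕜 X) (v f0) := rfl
      rw [h9] at h5
      have h10 := norm_nonneg (f - f0)
      nlinarith
    have h5 : 1 / 2 ≤ ‖ud (f : Du 𝕜 X) (v f0)‖ := by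
      have h6 := norm_sub_norm_le (ud (f0 : Du 𝕜 X) (v f0)) (ud (f : Du 𝕜 X) (v f0))
      rw [norm_sub_rev] at h6
      linarith
    have h6 : ‖ud (f : Du 𝕜 X) (v f0)‖ = ‖g‖⁻¹ * ‖ud g (v f0)‖ := by
      have : ud (f : Du 𝕜 X) (v f0) = (((‖g‖⁻¹ : ℝ)) : 𝕜) • ud g (v f0) := rfl
      rw [this, norm_smul, RCLike.norm_ofReal, abs_of_pos (by positivity)]
    have h7 := hgr (v f0) (Finset.mem_image_of_mem v hf0t)
    rw [h6] at h5
    have h8 : 1 / 2 * ‖g‖ ≤ ‖ud g (v f0)‖ := by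
      have h9 : ‖g‖⁻¹ * ‖ud g (v f0)‖ * ‖g‖ = ‖ud g (v f0)‖ := by
        field_simp
      calc 1 / 2 * ‖g‖ ≤ ‖g‖⁻¹ * ‖ud g (v f0)‖ * ‖g‖ := by gcongr
        _ = _ := h9
    linarith

/-- Second step of the Figiel-Johnson argument. -/
lemma adj_close [FiniteDimensional 𝕜 F] (hM : 1 ≤ M) (T : ℕ → ET F M →L[𝕜] ET F M) (l : ℝ)
    (hT : ∀ n, ‖T n‖ ≤ l) (hlim : ∀ y, Tendsto (fun n => T n y) atTop (𝓝 y))
    (d : ℝ) (hd : 3 * l / M < d) :
    ∃ n, ∀ f ∈ F, ‖(ud f).comp ((fromE F M).comp ((T n).comp (toE F M))) - ud f‖ ≤ d * ‖f‖ := by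
  classical
  obtain ⟨V, hV1, hV2⟩ := exists_norming F
  have hl : 0 ≤ l := (norm_nonneg _).trans (hT 0)
  set η := (d - 3 * l / M) / 2 with hη
  have hη0 : 0 < η := by rw [hη]; linarith
  have hev : ∀ᶠ n in atTop, ∀ v ∈ V, ‖T n (toE F M v) - toE F M v‖ ≤ η := by
    rw [Filter.eventually_all_finset]
    intro v _
    have h1 := (hlim (toE F M v)).sub_const (toE F M v)
    rw [sub_self] at h1
    have h2 := h1.norm
    rw [norm_zero] at h2
    exact h2.eventually_le_const hη0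
  obtain ⟨n, hn⟩ := hev.exists
  refine ⟨n, fun f hf => ?_⟩
  obtain ⟨g, hg, hg2⟩ := near_F F hM (T n) l (hT n) f hf
  set S := (fromE F M).comp ((T n).comp (toE F M)) with hS
  have h3 : ‖g - f‖ ≤ 2 * (‖f‖ * η + l * ‖f‖ / M) := by
    apply hV2 (g - f) (F.sub_mem hg hf) _ (by positivity)
    intro v hv
    have e1 : ud (g - f) v = (ud f (S v) - ud f v) - (((ud f).comp S - ud g) v) := by
      have a1 : ud (g - f) v = ud g v - ud f v := rfl
      have a2 : ((ud f).comp S - ud g) v = ud f (S v) - ud g v := rfl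
      rw [a1, a2]; ring
    rw [e1]
    refine (norm_sub_le _ _).trans ?_
    apply add_le_add
    · rw [← map_sub]
      refine (apply_le_evF F f hf _).trans ?_
      gcongr
      refine (norm_evF_le_toE F hM _).trans ?_
      rw [map_sub]
      have e2 : toE F M (S v) = T n (toE F M v) := toE_fromE F hM (T n (toE F M v))
      rw [e2]
      exact hn v hv
    · refine (((ud f).comp S - ud g).le_opNorm v).trans ?_
      have := hV1 v hv
      have h5 := norm_nonneg ((ud f).comp S - ud g)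
      have h6 := norm_nonneg v
      nlinarith
  have e : (ud f).comp S - ud f = ((ud f).comp S - ud g) + (ud g - ud f) := by abel
  have h3' : ‖ud g - ud f‖ ≤ 2 * (‖f‖ * η + l * ‖f‖ / M) := h3
  rw [e]
  refine (norm_add_le _ _).trans ?_
  calc ‖(ud f).comp S - ud g‖ + ‖ud g - ud f‖ ≤ l * ‖f‖ / M + 2 * (‖f‖ * η + l * ‖f‖ / M) :=
        add_le_add hg2 h3'
    _ = (3 * l / M + 2 * η) * ‖f‖ := by ring
    _ = d * ‖f‖ := by rw [hη]; ring

end Pool.Agent.H5.TB
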