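import Mathlib
import Pool.Agent.H5.TB.Space

set_option autoImplicit false

namespace Pool.Agent.H5.TB

open Finset Filter Topology

section pairing

variable {𝕜 : Type} [RCLike 𝕜] {Z : ℕ → Type} [∀ m, NormedAddCommGroup (Z m)]
  [∀ m, NormedSpace 𝕜 (Z m)]

lemma pair_summable (z : lp Z ⊤) (y : lp (fun m => Z m →L[𝕜] 𝕜) 1) :
    Summable (fun m => y m (z m)) := by
  apply Summable.of_norm_bounded (g := fun m => ‖y m‖ * ‖z‖)
    ((lp_one_summable y).mul_right _)
  intro m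
  refine ((y m).le_opNorm _).trans ?_
  gcongr
  exact lp.norm_apply_le_norm (by simp) z m

/-- the duality pairing between the `l_1` sum of the duals and the `l_∞` sum -/
noncomputable def pair (z : lp Z ⊤) : lp (fun m => Z m →L[𝕜] 𝕜) 1 →L[𝕜] 𝕜 :=
  LinearMap.mkContinuous
    { toFun := fun y => ∑' m, y m (z m)
      map_add' := by
        intro y y'
        rw [← (pair_summable z y).tsum_add (pair_summable z y')]
        rfl
      map_smul' := by
        intro c y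
        rw [RingHom.id_apply, smul_eq_mul, ← tsum_mul_left]
        rfl }
    ‖z‖
    (by
      intro y
      have h1 : ‖∑' m, y m (z m)‖ ≤ ∑' m, ‖y m‖ * ‖z‖ := by
        apply tsum_of_norm_bounded ((lp_one_summable y).mul_right _).hasSum
        intro m
        refine ((y m).le_opNorm _).trans ?_
        gcongr
        exact lp.norm_apply_le_norm (by simp) z m
      rw [tsum_mul_right, ← lp_one_norm, mul_comm] at h1
      exact h1)

lemma pair_apply (z : lp Z ⊤) (y : lp (fun m => Z m →L[𝕜] 𝕜) 1) :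
    pair z y = ∑' m, y m (z m) := rfl

lemma norm_pair_le (z : lp Z ⊤) : ‖(pair z : lp (fun m => Z m →L[𝕜] 𝕜) 1 →L[𝕜] 𝕜)‖ ≤ ‖z‖ :=
  LinearMap.mkContinuous_norm_le _ (norm_nonneg _) _

lemma pair_add (z z' : lp Z ⊤) :
    (pair (z + z') : lp (fun m => Z m →L[𝕜] 𝕜) 1 →L[𝕜] 𝕜) = pair z + pair z' := by
  refine ContinuousLinearMap.ext (fun y => ?_)
  rw [add_apply, pair_apply, pair_apply, pair_apply,
    ← (pair_summable z y).tsum_add (pair_summable z' y)]
  apply tsum_congr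
  intro m
  rw [← map_add]
  rfl

lemma pair_smul (c : 𝕜) (z : lp Z ⊤) :
    (pair (c • z) : lp (fun m => Z m →L[𝕜] 𝕜) 1 →L[𝕜] 𝕜) = c • pair z := by
  refine ContinuousLinearMap.ext (fun y => ?_)
  rw [clm_smul_apply, pair_apply, pair_apply, smul_eq_mul, ← tsum_mul_left]
  apply tsum_congr
  intro m
  rw [← smul_eq_mul, ← map_smul]
  rfl

/-- `pair` as a linear map -/
noncomputable def pairL : lp Z ⊤ →ₗ[𝕜] (lp (fun m => Z m →L[𝕜] 𝕜) 1 →L[𝕜] 𝕜) where
  toFun := pair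
  map_add' := pair_add
  map_smul' := pair_smul

/-- the inclusion of one summand -/
noncomputable abbrev io (m : ℕ) (y : Z m →L[𝕜] 𝕜) : lp (fun m => Z m →L[𝕜] 𝕜) 1 :=
  lp.single 1 m y

lemma pair_io (z : lp Z ⊤) (m : ℕ) (y : Z m →L[𝕜] 𝕜) : pair z (io m y) = y (z m) := by
  rw [pair_apply, tsum_eq_single m]
  · rw [lp.single_apply_self]
  · intro m' hm'
    rw [lp.single_apply_ne _ _ _ hm']
    rfl

end pairing

variable (𝕜 : Type) [RCLike 𝕜] {s t : ℕ → ℕ → ℕ → ℝ}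

lemma abs_ev_le (h : Sys s t) (n j n' g : ℕ) : |ev s t n j n' g| ≤ 1 := by
  unfold ev
  split_ifs
  · rw [h.s_abs]
  · rw [h.t_abs]
  · simp
  · simp

lemma norm_WT_le (m : ℕ) (w : WT 𝕜 s t m) (C : ℝ) (hC : 0 ≤ C)
    (h : ∀ p, ‖incl 𝕜 s t m w p‖ ≤ C) : ‖w‖ ≤ C := by
  have : ‖incl 𝕜 s t m w‖ ≤ C := (pi_norm_le_iff_of_nonneg hC).mpr h
  exact this

lemma norm_eW_le (h : Sys s t) (m n j : ℕ) : ‖eW 𝕜 s t m n j‖ ≤ 1 := by
  apply norm_WT_le 𝕜 m _ 1 zero_le_one
  intro p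
  have e : incl 𝕜 s t m (eW 𝕜 s t m n j) p = ((ev s t n j p.1 p.2 : ℝ) : 𝕜) := rfl
  rw [e, RCLike.norm_ofReal]
  exact abs_ev_le h n j p.1 p.2

/-- the system, in the `l_∞` sum -/
noncomputable def eX (h : Sys s t) (n j : ℕ) : lp (fun m => WT 𝕜 s t m) ⊤ :=
  ⟨fun m => eW 𝕜 s t m n j, memℓp_infty ⟨1, by rintro _ ⟨m, rfl⟩; exact norm_eW_le 𝕜 h m n j⟩⟩

lemma norm_eX_le (h : Sys s t) (n j : ℕ) : ‖eX 𝕜 h n j‖ ≤ 1 :=
  lp.norm_le_of_forall_le zero_le_one (fun m => norm_eW_le 𝕜 h m n j)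

/-- the functions `Φ` -/
noncomputable def Ph (h : Sys s t) (n g : ℕ) : lp (fun m => WT 𝕜 s t m) ⊤ :=
  ((1 / 2 ^ (n + 1) : ℝ) : 𝕜) • ∑ j ∈ range (2 ^ (n + 1)), ((t n j g : ℝ) : 𝕜) • eX 𝕜 h (n + 1) j -
  ((1 / 2 ^ n : ℝ) : 𝕜) • ∑ j ∈ range (2 ^ n), ((s n j g : ℝ) : 𝕜) • eX 𝕜 h n j

lemma Ph_apply (h : Sys s t) (n g m : ℕ) (p : Pt m) :
    incl 𝕜 s t m ((Ph 𝕜 h n g : ∀ m, WT 𝕜 s t m) m) p =
      (((1 / 2 ^ (n + 1)) * ∑ j ∈ range (2 ^ (n + 1)), t n j g * ev s t (n + 1) j p.1 p.2 -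
        (1 / 2 ^ n) * ∑ j ∈ range (2 ^ n), s n j g * ev s t n j p.1 p.2 : ℝ) : 𝕜) := by
  have e : ∀ (N : ℕ) (r : ℕ → 𝕜) (J : Finset ℕ),
      ((∑ j ∈ J, r j • eX 𝕜 h N j : lp (fun m => WT 𝕜 s t m) ⊤) : ∀ m, WT 𝕜 s t m) m =
        ∑ j ∈ J, r j • eW 𝕜 s t m N j := by
    intro N r J
    rw [lp.coeFn_sum, Finset.sum_apply]
    rfl
  have e2 : (Ph 𝕜 h n g : ∀ m, WT 𝕜 s t m) m =
      ((1 / 2 ^ (n + 1) : ℝ) : 𝕜) • ∑ j ∈ range (2 ^ (n + 1)), ((t n j g : ℝ) : 𝕜) •
        eW 𝕜 s t m (n + 1) j -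
      ((1 / 2 ^ n : ℝ) : 𝕜) • ∑ j ∈ range (2 ^ n), ((s n j g : ℝ) : 𝕜) • eW 𝕜 s t m n j := by
    rw [← e, ← e]
    rfl
  rw [e2, map_sub, map_smul, map_smul, map_sum, map_sum, Pi.sub_apply, Pi.smul_apply,
    Pi.smul_apply, Finset.sum_apply, Finset.sum_apply]
  have e3 : ∀ N j, incl 𝕜 s t m (eW 𝕜 s t m N j) p = ((ev s t N j p.1 p.2 : ℝ) : 𝕜) :=
    fun _ _ => rfl
  simp only [map_smul, Pi.smul_apply, e3, smul_eq_mul]
  push_cast
  rfl

/-- the bound for `Φ` -/
noncomputable def bb (n : ℕ) : ℝ := rr n + rr (n - 1)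

lemma bb_nonneg (n : ℕ) : 0 ≤ bb n := by
  unfold bb
  have := rr_pos n
  have := rr_pos (n - 1)
  positivity

lemma summable_bb : Summable bb := by
  unfold bb
  apply summable_rr.add
  rw [← summable_nat_add_iff 1]
  simpa using summable_rr

lemma norm_Ph_le (h : Sys s t) (n g : ℕ) (hg : g < 2 ^ (n + 2)) : ‖Ph 𝕜 h n g‖ ≤ bb n := by
  apply lp.norm_le_of_forall_le (bb_nonneg n)
  intro m
  apply norm_WT_le 𝕜 m _ (bb n) (bb_nonneg n)
  rintro ⟨⟨n', hn'⟩, ⟨g', hg'⟩⟩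
  rw [Ph_apply, RCLike.norm_ofReal]
  simp only at hg' ⊢
  have hr1 := rr_pos n
  have hr2 := rr_pos (n - 1)
  by_cases h1 : n' = n
  · subst h1
    have e1 : ∀ j ∈ range (2 ^ (n' + 1)), t n' j g * ev s t (n' + 1) j n' g' =
        t n' j g * t n' j g' := by
      intro j hj
      unfold ev
      rw [if_pos (Finset.mem_range.mp hj), if_neg (by omega), if_pos rfl]
    have e2 : ∀ j ∈ range (2 ^ n'), s n' j g * ev s t n' j n' g' = s n' j g * s n' j g' := by
      intro j hj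
      unfold ev
      rw [if_pos (Finset.mem_range.mp hj), if_pos rfl]
    rw [Finset.sum_congr rfl e1, Finset.sum_congr rfl e2]
    refine (h.diag n' g g' hg hg').trans ?_
    unfold bb; linarith
  · by_cases h2 : n' = n + 1
    · subst h2
      have e1 : ∀ j ∈ range (2 ^ (n + 1)), t n j g * ev s t (n + 1) j (n + 1) g' =
          s (n + 1) j g' * t n j g := by
        intro j hj
        unfold ev
        rw [if_pos (Finset.mem_range.mp hj), if_pos rfl]
        ring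
      have e2 : ∀ j ∈ range (2 ^ n), s n j g * ev s t n j (n + 1) g' = 0 := by
        intro j hj
        unfold ev
        rw [if_pos (Finset.mem_range.mp hj), if_neg (by omega), if_neg (by omega), mul_zero]
      rw [Finset.sum_congr rfl e1, Finset.sum_congr rfl e2, Finset.sum_const_zero, mul_zero,
        sub_zero]
      refine (h.cross n g' g hg' hg).trans ?_
      unfold bb; linarith
    · by_cases h3 : n' + 1 = n
      · subst h3
        have e1 : ∀ j ∈ range (2 ^ (n' + 1 + 1)), t (n' + 1) j g * ev s t (n' + 1 + 1) j n' g' =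
            0 := by
          intro j hj
          unfold ev
          rw [if_pos (Finset.mem_range.mp hj), if_neg (by omega), if_neg (by omega), mul_zero]
        have e2 : ∀ j ∈ range (2 ^ (n' + 1)), s (n' + 1) j g * ev s t (n' + 1) j n' g' =
            s (n' + 1) j g * t n' j g' := by
          intro j hj
          unfold ev
          rw [if_pos (Finset.mem_range.mp hj), if_neg (by omega), if_pos rfl]
        rw [Finset.sum_congr rfl e1, Finset.sum_congr rfl e2, Finset.sum_const_zero, mul_zero,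
          zero_sub, abs_neg]
        refine (h.cross n' g g' hg hg').trans ?_
        unfold bb
        simp only [Nat.add_sub_cancel] at hr2 ⊢
        linarith
      · have e1 : ∀ j ∈ range (2 ^ (n + 1)), t n j g * ev s t (n + 1) j n' g' = 0 := by
          intro j hj
          unfold ev
          rw [if_pos (Finset.mem_range.mp hj), if_neg (by omega), if_neg (by omega), mul_zero]
        have e2 : ∀ j ∈ range (2 ^ n), s n j g * ev s t n j n' g' = 0 := by
          intro j hj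
          unfold ev
          rw [if_pos (Finset.mem_range.mp hj), if_neg (by omega), if_neg (by omega), mul_zero]
        rw [Finset.sum_congr rfl e1, Finset.sum_congr rfl e2]
        simp only [Finset.sum_const_zero, mul_zero, sub_zero, abs_zero]
        exact bb_nonneg n

end Pool.Agent.H5.TB
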