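import Mathlib
import Pool.Agent.H5.TB.Pairing

set_option autoImplicit false

namespace Pool.Agent.H5.TB

open Finset Filter Topology

variable (𝕜 : Type) [RCLike 𝕜] {s t : ℕ → ℕ → ℕ → ℝ}

lemma io_smul (m : ℕ) (c : 𝕜) (y : YY 𝕜 s t m) :
    (io m (c • y) : XX 𝕜 s t) = c • io m y := lp.single_smul 1 m c y

lemma io_sum (m : ℕ) (J : Finset ℕ) (y : ℕ → YY 𝕜 s t m) :
    (io m (∑ j ∈ J, y j) : XX 𝕜 s t) = ∑ j ∈ J, io m (y j) :=
  map_sum (lp.singleContinuousLinearMap 𝕜 (fun m => YY 𝕜 s t m) 1 m) y J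

lemma norm_io (m : ℕ) (y : YY 𝕜 s t m) : ‖(io m y : XX 𝕜 s t)‖ = ‖y‖ :=
  lp.norm_single (by simp) m y

/-- the approximate traces -/
noncomputable def be (h : Sys s t) (m n : ℕ) (T : XX 𝕜 s t →L[𝕜] XX 𝕜 s t) : 𝕜 :=
  ((1 / 2 ^ n : ℝ) : 𝕜) * ∑ j ∈ range (2 ^ n), pair (eX 𝕜 h n j) (T (io m (al 𝕜 s t m n j)))

lemma T_al (m n j : ℕ) (T : XX 𝕜 s t →L[𝕜] XX 𝕜 s t) :
    T (io m (al 𝕜 s t m n j)) = ((1 / 2 ^ (n + 2) : ℝ) : 𝕜) •
      ∑ g ∈ range (2 ^ (n + 2)), ((s n j g : ℝ) : 𝕜) • T (io m (dl 𝕜 s t m n g)) := by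
  unfold al
  rw [io_smul, io_sum, map_smul, map_sum]
  congr 1
  apply Finset.sum_congr rfl
  intro g _
  rw [io_smul, map_smul]

lemma T_al' (m n j : ℕ) (T : XX 𝕜 s t →L[𝕜] XX 𝕜 s t) :
    T (io m (al' 𝕜 s t m n j)) = ((1 / 2 ^ (n + 2) : ℝ) : 𝕜) •
      ∑ g ∈ range (2 ^ (n + 2)), ((t n j g : ℝ) : 𝕜) • T (io m (dl 𝕜 s t m n g)) := by
  unfold al'
  rw [io_smul, io_sum, map_smul, map_sum]
  congr 1
  apply Finset.sum_congr rfl
  intro g _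
  rw [io_smul, map_smul]

lemma pair_Ph (h : Sys s t) (n g : ℕ) (x : XX 𝕜 s t) :
    pair (Ph 𝕜 h n g) x = ((1 / 2 ^ (n + 1) : ℝ) : 𝕜) * ∑ j ∈ range (2 ^ (n + 1)),
      ((t n j g : ℝ) : 𝕜) * pair (eX 𝕜 h (n + 1) j) x -
      ((1 / 2 ^ n : ℝ) : 𝕜) * ∑ j ∈ range (2 ^ n), ((s n j g : ℝ) : 𝕜) * pair (eX 𝕜 h n j) x := by
  have e : (pair (Ph 𝕜 h n g) : XX 𝕜 s t →L[𝕜] 𝕜) =
      pairL (𝕜 := 𝕜) (Z := fun m => WT 𝕜 s t m) (Ph 𝕜 h n g) := rfl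
  rw [e]
  unfold Ph
  rw [map_sub, map_smul, map_smul, map_sum, map_sum]
  simp only [map_smul]
  rw [sub_apply, clm_smul_apply, clm_smul_apply, clm_sum_apply, clm_sum_apply]
  rfl

lemma be_tele (h : Sys s t) (m n : ℕ) (hn : n + 1 ≤ m) (T : XX 𝕜 s t →L[𝕜] XX 𝕜 s t) :
    be 𝕜 h m (n + 1) T - be 𝕜 h m n T = ((1 / 2 ^ (n + 2) : ℝ) : 𝕜) *
      ∑ g ∈ range (2 ^ (n + 2)), pair (Ph 𝕜 h n g) (T (io m (dl 𝕜 s t m n g))) := by
  unfold be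
  have e1 : ∑ j ∈ range (2 ^ (n + 1)), pair (eX 𝕜 h (n + 1) j) (T (io m (al 𝕜 s t m (n + 1) j))) =
      ((1 / 2 ^ (n + 2) : ℝ) : 𝕜) * ∑ g ∈ range (2 ^ (n + 2)), ∑ j ∈ range (2 ^ (n + 1)),
        ((t n j g : ℝ) : 𝕜) * pair (eX 𝕜 h (n + 1) j) (T (io m (dl 𝕜 s t m n g))) := by
    rw [Finset.sum_comm, Finset.mul_sum]
    apply Finset.sum_congr rfl
    intro j hj
    rw [al_eq_al' 𝕜 h m n j (by omega) (Finset.mem_range.mp hj), T_al', map_smul, map_sum,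
      smul_eq_mul]
    congr 1
    apply Finset.sum_congr rfl
    intro g _
    rw [map_smul, smul_eq_mul]
  have e2 : ∑ j ∈ range (2 ^ n), pair (eX 𝕜 h n j) (T (io m (al 𝕜 s t m n j))) =
      ((1 / 2 ^ (n + 2) : ℝ) : 𝕜) * ∑ g ∈ range (2 ^ (n + 2)), ∑ j ∈ range (2 ^ n),
        ((s n j g : ℝ) : 𝕜) * pair (eX 𝕜 h n j) (T (io m (dl 𝕜 s t m n g))) := by
    rw [Finset.sum_comm, Finset.mul_sum]
    apply Finset.sum_congr rfl
    intro j hj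
    rw [T_al, map_smul, map_sum, smul_eq_mul]
    congr 1
    apply Finset.sum_congr rfl
    intro g _
    rw [map_smul, smul_eq_mul]
  rw [e1, e2]
  simp only [pair_Ph]
  rw [Finset.sum_sub_distrib, ← Finset.mul_sum, ← Finset.mul_sum]
  ring

lemma be_step (h : Sys s t) (m n : ℕ) (hn : n + 1 ≤ m) (T : XX 𝕜 s t →L[𝕜] XX 𝕜 s t) (c : ℝ)
    (hc : ∀ g, g < 2 ^ (n + 2) → ‖(pair (Ph 𝕜 h n g)).comp T‖ ≤ c) :
    ‖be 𝕜 h m (n + 1) T - be 𝕜 h m n T‖ ≤ c := by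
  rw [be_tele 𝕜 h m n hn T, norm_mul, RCLike.norm_ofReal, abs_of_pos (by positivity)]
  have h1 : ‖∑ g ∈ range (2 ^ (n + 2)), pair (Ph 𝕜 h n g) (T (io m (dl 𝕜 s t m n g)))‖ ≤
      2 ^ (n + 2) * c := by
    refine (norm_sum_le _ _).trans ?_
    calc ∑ g ∈ range (2 ^ (n + 2)), ‖pair (Ph 𝕜 h n g) (T (io m (dl 𝕜 s t m n g)))‖
        ≤ ∑ g ∈ range (2 ^ (n + 2)), c := by
          apply Finset.sum_le_sum
          intro g hg
          have h2 := ((pair (Ph 𝕜 h n g)).comp T).le_opNorm (io m (dl 𝕜 s t m n g))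
          rw [norm_io] at h2
          have h3 := hc g (Finset.mem_range.mp hg)
          have h4 := norm_dl_le 𝕜 s t m n g
          have h5 := norm_nonneg (dl 𝕜 s t m n g)
          have h6 := norm_nonneg ((pair (Ph 𝕜 h n g)).comp T)
          refine h2.trans ?_
          nlinarith
      _ = 2 ^ (n + 2) * c := by simp
  calc 1 / 2 ^ (n + 2) * ‖∑ g ∈ range (2 ^ (n + 2)), pair (Ph 𝕜 h n g)
        (T (io m (dl 𝕜 s t m n g)))‖ ≤ 1 / 2 ^ (n + 2) * (2 ^ (n + 2) * c) := by gcongr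
    _ = c := by field_simp

lemma be_zero (h : Sys s t) (m : ℕ) (T : XX 𝕜 s t →L[𝕜] XX 𝕜 s t) (c : ℝ)
    (hc : ‖(pair (eX 𝕜 h 0 0)).comp T‖ ≤ c) : ‖be 𝕜 h m 0 T‖ ≤ c := by
  unfold be
  simp only [pow_zero, div_one, RCLike.ofReal_one, one_mul, Finset.range_one,
    Finset.sum_singleton]
  have h2 := ((pair (eX 𝕜 h 0 0)).comp T).le_opNorm (io m (al 𝕜 s t m 0 0))
  rw [norm_io] at h2
  have h4 := norm_al_le 𝕜 h m 0 0
  have h5 := norm_nonneg (al 𝕜 s t m 0 0)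
  have h6 := norm_nonneg ((pair (eX 𝕜 h 0 0)).comp T)
  refine h2.trans ?_
  nlinarith

lemma be_bound (h : Sys s t) (m : ℕ) (T : XX 𝕜 s t →L[𝕜] XX 𝕜 s t) (c0 : ℝ) (c : ℕ → ℝ)
    (h0 : ‖(pair (eX 𝕜 h 0 0)).comp T‖ ≤ c0)
    (hc : ∀ n g, g < 2 ^ (n + 2) → ‖(pair (Ph 𝕜 h n g)).comp T‖ ≤ c n) (n : ℕ) (hn : n ≤ m) :
    ‖be 𝕜 h m n T‖ ≤ c0 + ∑ i ∈ range n, c i := by
  induction n with
  | zero => simpa using be_zero 𝕜 h m T c0 h0
  | succ n ih =>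
    have h1 := ih (by omega)
    have h2 := be_step 𝕜 h m n hn T (c n) (hc n)
    rw [Finset.sum_range_succ]
    calc ‖be 𝕜 h m (n + 1) T‖ = ‖be 𝕜 h m n T + (be 𝕜 h m (n + 1) T - be 𝕜 h m n T)‖ := by
          congr 1; ring
      _ ≤ _ := norm_add_le _ _
      _ ≤ _ := by linarith

lemma be_id (h : Sys s t) (m : ℕ) : be 𝕜 h m m (ContinuousLinearMap.id 𝕜 (XX 𝕜 s t)) = 1 := by
  unfold be
  have e : ∀ j ∈ range (2 ^ m), pair (eX 𝕜 h m j)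
      ((ContinuousLinearMap.id 𝕜 (XX 𝕜 s t)) (io m (al 𝕜 s t m m j))) = 1 := by
    intro j hj
    rw [ContinuousLinearMap.id_apply, pair_io]
    exact al_diag 𝕜 h m j (Finset.mem_range.mp hj)
  rw [Finset.sum_congr rfl e]
  simp only [Finset.sum_const, Finset.card_range, nsmul_eq_mul, mul_one]
  push_cast
  field_simp

/-- the tails of an element of `X` -/
noncomputable def tail (x : XX 𝕜 s t) (n : ℕ) : ℝ := ∑' k, ‖x (k + n)‖

lemma tail_nonneg (x : XX 𝕜 s t) (n : ℕ) : 0 ≤ tail 𝕜 x n := tsum_nonneg (fun _ => norm_nonneg _)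

lemma tendsto_tail (x : XX 𝕜 s t) : Tendsto (tail 𝕜 x) atTop (𝓝 0) :=
  tendsto_sum_nat_add (fun k => ‖x k‖)

lemma eW_zero (m n j : ℕ) (hm : m < n) : eW 𝕜 s t m (n + 1) j = 0 := by
  have e : incl 𝕜 s t m (eW 𝕜 s t m (n + 1) j) = 0 := by
    funext p
    have e1 : incl 𝕜 s t m (eW 𝕜 s t m (n + 1) j) p = ((ev s t (n + 1) j p.1 p.2 : ℝ) : 𝕜) := rfl
    have hp := p.1.2
    rw [e1]
    unfold ev
    split_ifs
    · omega
    · omega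
    · simp
    · simp
  exact Subtype.ext e

lemma pair_eX_le (h : Sys s t) (n j : ℕ) (x : XX 𝕜 s t) :
    ‖pair (eX 𝕜 h (n + 1) j) x‖ ≤ tail 𝕜 x n := by
  rw [pair_apply]
  have hs := pair_summable (eX 𝕜 h (n + 1) j) x
  rw [← hs.sum_add_tsum_nat_add n]
  have e0 : ∑ i ∈ range n, x i ((eX 𝕜 h (n + 1) j : ∀ m, WT 𝕜 s t m) i) = 0 := by
    apply Finset.sum_eq_zero
    intro i hi
    have : (eX 𝕜 h (n + 1) j : ∀ m, WT 𝕜 s t m) i = eW 𝕜 s t i (n + 1) j := rfl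
    rw [this, eW_zero 𝕜 i n j (Finset.mem_range.mp hi), map_zero]
  rw [e0, zero_add]
  unfold tail
  have hs2 : Summable (fun k => ‖x (k + n)‖) :=
    (summable_nat_add_iff n).mpr (lp_one_summable x)
  apply tsum_of_norm_bounded hs2.hasSum
  intro k
  refine ((x (k + n)).le_opNorm _).trans ?_
  have h1 : ‖(eX 𝕜 h (n + 1) j : ∀ m, WT 𝕜 s t m) (k + n)‖ ≤ 1 := norm_eW_le 𝕜 h _ _ _
  have h2 := norm_nonneg (x (k + n))
  nlinarith

/-- rank decomposition of a finite rank operator -/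
lemma exists_decomp {E F : Type} [NormedAddCommGroup E] [NormedSpace 𝕜 E]
    [NormedAddCommGroup F] [NormedSpace 𝕜 F] (S : E →L[𝕜] F)
    (hS : FiniteDimensional 𝕜 (LinearMap.range (S : E →ₗ[𝕜] F))) :
    ∃ (r : ℕ) (c : Fin r → (E →L[𝕜] 𝕜)) (v : Fin r → F), ∀ x, S x = ∑ i, c i x • v i := by
  set V := LinearMap.range (S : E →ₗ[𝕜] F) with hV
  let b := Module.finBasis 𝕜 V
  let S' : E →L[𝕜] V := S.codRestrict V (fun x => ⟨x, rfl⟩)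
  refine ⟨Module.finrank 𝕜 V, fun i => (LinearMap.toContinuousLinearMap (b.coord i)).comp S',
    fun i => (b i : F), fun x => ?_⟩
  have h1 := b.sum_repr (S' x)
  have h2 : (S' x : F) = S x := rfl
  rw [← h2]
  conv_lhs => rw [← h1]
  simp only [Submodule.coe_sum, Submodule.coe_smul]
  rfl

lemma be_finite_rank (h : Sys s t) (S : XX 𝕜 s t →L[𝕜] XX 𝕜 s t)
    (hS : FiniteDimensional 𝕜 (LinearMap.range (S : XX 𝕜 s t →ₗ[𝕜] XX 𝕜 s t))) :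
    Tendsto (fun m => be 𝕜 h m m S) atTop (𝓝 0) := by
  obtain ⟨r, c, v, hcv⟩ := exists_decomp 𝕜 S hS
  rw [← tendsto_add_atTop_iff_nat 1]
  have hlim : Tendsto (fun m => ∑ i, ‖c i‖ * tail 𝕜 (v i) m) atTop (𝓝 0) := by
    have := tendsto_finsetSum (Finset.univ : Finset (Fin r))
      (fun i _ => (tendsto_tail 𝕜 (v i)).const_mul ‖c i‖)
    simpa using this
  refine squeeze_zero_norm (fun m => ?_) hlim
  unfold be
  rw [norm_mul, RCLike.norm_ofReal, abs_of_pos (by positivity)]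
  have h1 : ‖∑ j ∈ range (2 ^ (m + 1)), pair (eX 𝕜 h (m + 1) j)
      (S (io (m + 1) (al 𝕜 s t (m + 1) (m + 1) j)))‖ ≤
      2 ^ (m + 1) * ∑ i, ‖c i‖ * tail 𝕜 (v i) m := by
    refine (norm_sum_le _ _).trans ?_
    calc ∑ j ∈ range (2 ^ (m + 1)), ‖pair (eX 𝕜 h (m + 1) j)
          (S (io (m + 1) (al 𝕜 s t (m + 1) (m + 1) j)))‖
        ≤ ∑ j ∈ range (2 ^ (m + 1)), ∑ i, ‖c i‖ * tail 𝕜 (v i) m := by
          apply Finset.sum_le_sum
          intro j _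
          rw [hcv, map_sum]
          refine (norm_sum_le _ _).trans ?_
          apply Finset.sum_le_sum
          intro i _
          rw [map_smul, norm_smul]
          have h2 := pair_eX_le 𝕜 h m j (v i)
          have h3 := (c i).le_opNorm (io (m + 1) (al 𝕜 s t (m + 1) (m + 1) j))
          rw [norm_io] at h3
          have h4 := norm_al_le 𝕜 h (m + 1) (m + 1) j
          have h5 : ‖c i (io (m + 1) (al 𝕜 s t (m + 1) (m + 1) j))‖ ≤ ‖c i‖ := by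
            have := norm_nonneg (c i)
            have := norm_nonneg (al 𝕜 s t (m + 1) (m + 1) j)
            nlinarith
          exact mul_le_mul h5 h2 (norm_nonneg _) (norm_nonneg _)
      _ = _ := by simp
  calc 1 / 2 ^ (m + 1) * ‖∑ j ∈ range (2 ^ (m + 1)), pair (eX 𝕜 h (m + 1) j)
        (S (io (m + 1) (al 𝕜 s t (m + 1) (m + 1) j)))‖
      ≤ 1 / 2 ^ (m + 1) * (2 ^ (m + 1) * ∑ i, ‖c i‖ * tail 𝕜 (v i) m) := by gcongr
    _ = _ := by field_simp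

lemma be_sub (h : Sys s t) (m n : ℕ) (T S : XX 𝕜 s t →L[𝕜] XX 𝕜 s t) :
    be 𝕜 h m n (T - S) = be 𝕜 h m n T - be 𝕜 h m n S := by
  unfold be
  rw [← mul_sub, ← Finset.sum_sub_distrib]
  congr 1
  apply Finset.sum_congr rfl
  intro j _
  rw [sub_apply, map_sub]

/-- The key inequality: a finite rank operator cannot be close to the identity in the
adjoint sense on the system. -/
theorem key_ineq (h : Sys s t) (S : XX 𝕜 s t →L[𝕜] XX 𝕜 s t)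
    (hS : FiniteDimensional 𝕜 (LinearMap.range (S : XX 𝕜 s t →ₗ[𝕜] XX 𝕜 s t)))
    (c0 : ℝ) (c : ℕ → ℝ) (hsum : Summable c)
    (h0 : ‖(pair (eX 𝕜 h 0 0)).comp (ContinuousLinearMap.id 𝕜 (XX 𝕜 s t) - S)‖ ≤ c0)
    (hc : ∀ n g, g < 2 ^ (n + 2) →
      ‖(pair (Ph 𝕜 h n g)).comp (ContinuousLinearMap.id 𝕜 (XX 𝕜 s t) - S)‖ ≤ c n) :
    1 ≤ c0 + ∑' n, c n := by
  have hcn : ∀ n, 0 ≤ c n := by
    intro n
    have h1 := hc n 0 (by positivity)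
    have h2 := norm_nonneg ((pair (Ph 𝕜 h n 0)).comp (ContinuousLinearMap.id 𝕜 (XX 𝕜 s t) - S))
    linarith
  have h1 : ∀ m, ‖be 𝕜 h m m (ContinuousLinearMap.id 𝕜 (XX 𝕜 s t) - S)‖ ≤ c0 + ∑' n, c n := by
    intro m
    refine (be_bound 𝕜 h m _ c0 c h0 hc m le_rfl).trans ?_
    have := hsum.sum_le_tsum (range m) (fun i _ => hcn i)
    linarith
  have h2 : Tendsto (fun m => ‖be 𝕜 h m m (ContinuousLinearMap.id 𝕜 (XX 𝕜 s t) - S)‖) atTop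
      (𝓝 1) := by
    have h3 : Tendsto (fun m => be 𝕜 h m m (ContinuousLinearMap.id 𝕜 (XX 𝕜 s t) - S)) atTop
        (𝓝 (1 - 0)) := by
      have h4 := (tendsto_const_nhds (x := (1 : 𝕜))).sub (be_finite_rank 𝕜 h S hS)
      refine h4.congr (fun m => ?_)
      rw [be_sub, be_id]
    have h5 := h3.norm
    simpa using h5
  exact le_of_tendsto h2 (Eventually.of_forall h1)

end Pool.Agent.H5.TB
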