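import Mathlib
import Pool.Agent.H5.TB.Trace
import Pool.Agent.H5.TB.Renorm

set_option autoImplicit false

namespace Pool.Agent.H5.TB

open Finset Filter Topology

variable (𝕜 : Type) [RCLike 𝕜] {s t : ℕ → ℕ → ℕ → ℝ}

/-- Every `l` is beaten: there is an equivalent renorming of `X` without the `l`-bounded
approximation property (sequential form). -/
theorem exists_bad (h : Sys s t) (l : ℝ) (hl : 0 ≤ l) :
    ∃ (F : Submodule 𝕜 (Du 𝕜 (XX 𝕜 s t))) (M : ℝ), 1 ≤ M ∧
      ¬ ∃ T : ℕ → ET F M →L[𝕜] ET F M,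
        (∀ n, FiniteDimensional 𝕜 (LinearMap.range (T n : ET F M →ₗ[𝕜] ET F M))) ∧
        (∀ n, ‖T n‖ ≤ l) ∧ ∀ y, Tendsto (fun n => T n y) atTop (𝓝 y) := by
  set A := ∑' n, bb n with hA
  have hA0 : 0 ≤ A := tsum_nonneg bb_nonneg
  set δ := 1 / (4 * (1 + A)) with hδ
  have hδ0 : 0 < δ := by rw [hδ]; positivity
  set M := 1 + 3 * l / δ with hM
  have hM1 : 1 ≤ M := by
    rw [hM]
    have : 0 ≤ 3 * l / δ := by positivity
    linarith
  have hMd : 3 * l / M < δ := by
    rw [div_lt_iff₀ (by linarith), hM]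
    have : δ * (1 + 3 * l / δ) = δ + 3 * l := by field_simp
    rw [this]; linarith
  set K := M * l with hK
  have hK0 : 0 ≤ K := by rw [hK]; positivity
  have htail := tendsto_sum_nat_add bb
  obtain ⟨N, hN⟩ := (htail.eventually_lt_const
    (show (0:ℝ) < 1 / (4 * (1 + K)) by positivity)).exists
  set G : Set (Du 𝕜 (XX 𝕜 s t)) := {wd (pair (eX 𝕜 h 0 0))} ∪
    (fun p : ℕ × ℕ => wd (pair (Ph 𝕜 h p.1 p.2))) '' (Set.Iio N ×ˢ Set.Iio (2 ^ (N + 2))) with hG
  have hGfin : G.Finite := by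
    rw [hG]
    exact (Set.finite_singleton _).union
      (((Set.finite_Iio N).prod (Set.finite_Iio (2 ^ (N + 2)))).image _)
  refine ⟨Submodule.span 𝕜 G, M, hM1, ?_⟩
  have hFD : FiniteDimensional 𝕜 (Submodule.span 𝕜 G) := FiniteDimensional.span_of_finite 𝕜 hGfin
  set F := Submodule.span 𝕜 G with hF
  rintro ⟨T, hT1, hT2, hT3⟩
  obtain ⟨n, hn⟩ := adj_close F hM1 T l hT2 hT3 δ hMd
  set S : XX 𝕜 s t →L[𝕜] XX 𝕜 s t := (fromE F M).comp ((T n).comp (toE F M)) with hS
  have hSfin : FiniteDimensional 𝕜 (LinearMap.range (S : XX 𝕜 s t →ₗ[𝕜] XX 𝕜 s t)) := by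
    have := hT1 n
    have h1 : LinearMap.range (S : XX 𝕜 s t →ₗ[𝕜] XX 𝕜 s t) ≤
        (LinearMap.range (T n : ET F M →ₗ[𝕜] ET F M)).map (fromE F M : ET F M →ₗ[𝕜] XX 𝕜 s t) := by
      rintro _ ⟨x, rfl⟩
      exact ⟨T n (toE F M x), ⟨toE F M x, rfl⟩, rfl⟩
    exact Submodule.finiteDimensional_of_le h1
  have hSnorm : ‖S‖ ≤ K := by
    apply ContinuousLinearMap.opNorm_le_bound _ hK0
    intro x
    have e : S x = fromE F M (T n (toE F M x)) := rfl
    rw [e]
    refine (norm_fromE_le F hM1 _).trans ?_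
    rw [hK, mul_assoc]
    gcongr
    refine ((T n).le_opNorm _).trans ?_
    exact mul_le_mul (hT2 n) (norm_toE_le F hM1 x) (norm_nonneg _) hl
  have hclose : ∀ f ∈ F, ‖(ud f).comp (ContinuousLinearMap.id 𝕜 (XX 𝕜 s t) - S)‖ ≤ δ * ‖f‖ := by
    intro f hf
    apply ContinuousLinearMap.opNorm_le_bound _ (by positivity)
    intro x
    have e : ((ud f).comp (ContinuousLinearMap.id 𝕜 (XX 𝕜 s t) - S)) x =
        -(((ud f).comp S - ud f) x) := by
      have a1 : ((ud f).comp (ContinuousLinearMap.id 𝕜 (XX 𝕜 s t) - S)) x = ud f (x - S x) := rfl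
      have a2 : ((ud f).comp S - ud f) x = ud f (S x) - ud f x := rfl
      rw [a1, a2, map_sub]; ring
    rw [e, norm_neg]
    refine (((ud f).comp S - ud f).le_opNorm x).trans ?_
    gcongr
    exact hn f hf
  set c : ℕ → ℝ := fun n => if n < N then δ * bb n else (1 + K) * bb n with hc
  have hcsum : Summable c := by
    apply Summable.of_nonneg_of_le (f := fun n => (δ + (1 + K)) * bb n)
    · intro n
      simp only [hc]
      have := bb_nonneg n
      split_ifs <;> positivity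
    · intro n
      simp only [hc]
      have := bb_nonneg n
      have h1 : 0 ≤ δ * bb n := by positivity
      have h2 : 0 ≤ (1 + K) * bb n := by positivity
      split_ifs <;> linarith
    · exact summable_bb.mul_left _
  have hkey := key_ineq 𝕜 h S hSfin δ c hcsum ?_ ?_
  · -- contradiction
    have e1 : ∑' n, c n = ∑ n ∈ range N, c n + ∑' n, c (n + N) := (hcsum.sum_add_tsum_nat_add N).symm
    have e2 : ∑ n ∈ range N, c n ≤ δ * A := by
      have : ∑ n ∈ range N, c n = δ * ∑ n ∈ range N, bb n := by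
        rw [Finset.mul_sum]
        apply Finset.sum_congr rfl
        intro n hn
        simp only [hc]
        rw [if_pos (Finset.mem_range.mp hn)]
      rw [this]
      gcongr
      exact summable_bb.sum_le_tsum (range N) (fun i _ => bb_nonneg i)
    have e3 : ∑' n, c (n + N) = (1 + K) * ∑' n, bb (n + N) := by
      rw [← tsum_mul_left]
      apply tsum_congr
      intro n
      simp only [hc]
      rw [if_neg (by omega)]
    have e4 : (1 + K) * ∑' n, bb (n + N) ≤ 1 / 4 := by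
      have : (1 + K) * (1 / (4 * (1 + K))) = 1 / 4 := by field_simp
      rw [← this]
      gcongr
    have e5 : δ + δ * A = 1 / 4 := by
      rw [hδ]; field_simp
    rw [e1, e3] at hkey
    linarith
  · -- first functional
    have hmem : wd (pair (eX 𝕜 h 0 0)) ∈ F := Submodule.subset_span (Or.inl rfl)
    have h1 := hclose _ hmem
    have h2 : ‖wd (pair (eX 𝕜 h 0 0) : XX 𝕜 s t →L[𝕜] 𝕜)‖ ≤ 1 :=
      (norm_pair_le (eX 𝕜 h 0 0)).trans (norm_eX_le 𝕜 h 0 0)
    refine le_trans h1 ?_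
    nlinarith
  · intro n g hg
    simp only [hc]
    have hb := norm_Ph_le 𝕜 h n g hg
    split_ifs with hnN
    · have hmem : wd (pair (Ph 𝕜 h n g)) ∈ F := by
        apply Submodule.subset_span
        right
        refine ⟨(n, g), ⟨hnN, ?_⟩, rfl⟩
        exact lt_of_lt_of_le hg (Nat.pow_le_pow_right (by norm_num) (by omega))
      have h1 := hclose _ hmem
      have h2 : ‖wd (pair (Ph 𝕜 h n g) : XX 𝕜 s t →L[𝕜] 𝕜)‖ ≤ bb n :=
        (norm_pair_le (Ph 𝕜 h n g)).trans hb
      refine le_trans h1 ?_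
      gcongr
    · have h2 : ‖(pair (Ph 𝕜 h n g) : XX 𝕜 s t →L[𝕜] 𝕜)‖ ≤ bb n :=
        (norm_pair_le (Ph 𝕜 h n g)).trans hb
      have hbn := bb_nonneg n
      apply ContinuousLinearMap.opNorm_le_bound _ (by positivity)
      intro x
      have h3 : ‖x - S x‖ ≤ (1 + K) * ‖x‖ := by
        refine (norm_sub_le _ _).trans ?_
        have h4 := S.le_opNorm x
        have h5 := norm_nonneg x
        nlinarith
      have e : ((pair (Ph 𝕜 h n g)).comp (ContinuousLinearMap.id 𝕜 (XX 𝕜 s t) - S)) x =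
          pair (Ph 𝕜 h n g) (x - S x) := rfl
      rw [e]
      refine ((pair (Ph 𝕜 h n g) : XX 𝕜 s t →L[𝕜] 𝕜).le_opNorm _).trans ?_
      calc ‖(pair (Ph 𝕜 h n g) : XX 𝕜 s t →L[𝕜] 𝕜)‖ * ‖x - S x‖ ≤ bb n * ((1 + K) * ‖x‖) := by
            exact mul_le_mul h2 h3 (norm_nonneg _) hbn
        _ = (1 + K) * bb n * ‖x‖ := by ring

end Pool.Agent.H5.TB
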