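import Mathlib

set_option autoImplicit false

namespace Pool.Agent.H5.TB

open Finset Filter Topology

variable {𝕜 E : Type*} [RCLike 𝕜] [NormedAddCommGroup E] [NormedSpace 𝕜 E] [CompleteSpace E]

/-- A form of the open mapping theorem for a countable family of seminorms: countable
subadditivity implies continuity. -/
theorem baire_seminorm (𝕜 : Type*) {E : Type*} [RCLike 𝕜] [NormedAddCommGroup E]
    [NormedSpace 𝕜 E] [CompleteSpace E] (q : ℕ → E → ℝ)
    (hnn : ∀ k y, 0 ≤ q k y)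
    (hadd : ∀ k y z, q k (y + z) ≤ q k y + q k z)
    (hsmul : ∀ k (c : 𝕜) y, q k (c • y) = ‖c‖ * q k y)
    (hcp : ∀ (u : ℕ → E) (y : E), (∀ k, Summable (fun i => q k (u i))) →
      Tendsto (fun N => ∑ i ∈ range N, u i) atTop (𝓝 y) → ∀ k, q k y ≤ ∑' i, q k (u i)) :
    ∀ k, ∃ C, 0 ≤ C ∧ ∀ y, q k y ≤ C * ‖y‖ := by
  have hneg : ∀ k y, q k (-y) = q k y := by
    intro k y
    have := hsmul k (-1) y
    simpa using this
  have hrs : ∀ k (c : ℝ) y, 0 ≤ c → q k (((c : ℝ) : 𝕜) • y) = c * q k y := by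
    intro k c y hc
    rw [hsmul, RCLike.norm_ofReal, abs_of_nonneg hc]
  -- step 1
  have step1 : ∀ K : ℕ, ∃ ρ > 0, ∃ C > 0, ∀ y : E, ‖y‖ < ρ → ∀ η > 0,
      ∃ a, (∀ k < K, q k a ≤ C) ∧ ‖y - a‖ < η := by
    intro K
    have hU : ⋃ m : ℕ, closure {y : E | ∀ k < K, q k y ≤ m} = Set.univ := by
      rw [Set.eq_univ_iff_forall]
      intro y
      obtain ⟨m, hm⟩ := exists_nat_ge (∑ k ∈ range K, q k y)
      rw [Set.mem_iUnion]
      refine ⟨m, subset_closure ?_⟩
      intro k hk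
      refine le_trans ?_ hm
      exact Finset.single_le_sum (f := fun k => q k y) (fun i _ => hnn i y)
        (Finset.mem_range.mpr hk)
    obtain ⟨m, y0, hy0⟩ := nonempty_interior_of_iUnion_of_closed
      (fun m : ℕ => isClosed_closure (s := {y : E | ∀ k < K, q k y ≤ m})) hU
    rw [mem_interior_iff_mem_nhds, Metric.mem_nhds_iff] at hy0
    obtain ⟨ρ, hρ, hball⟩ := hy0
    refine ⟨ρ, hρ, 2 * m + 1, by positivity, ?_⟩
    intro y hy η hη
    have h1 : y0 + y ∈ closure {y : E | ∀ k < K, q k y ≤ m} := by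
      apply hball
      rw [Metric.mem_ball, dist_eq_norm]
      simpa using hy
    have h2 : y0 ∈ closure {y : E | ∀ k < K, q k y ≤ m} := hball (Metric.mem_ball_self hρ)
    obtain ⟨b1, hb1, hd1⟩ := Metric.mem_closure_iff.mp h1 (η / 2) (by positivity)
    obtain ⟨b2, hb2, hd2⟩ := Metric.mem_closure_iff.mp h2 (η / 2) (by positivity)
    refine ⟨b1 - b2, ?_, ?_⟩
    · intro k hk
      have h3 := hadd k b1 (-b2)
      rw [hneg, ← sub_eq_add_neg] at h3
      have h4 := hb1 k hk
      have h5 := hb2 k hk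
      linarith
    · rw [dist_eq_norm] at hd1 hd2
      have e : y - (b1 - b2) = (y0 + y - b1) - (y0 - b2) := by abel
      rw [e]
      refine (norm_sub_le _ _).trans_lt ?_
      linarith
  -- step 2
  have step2 : ∀ (K : ℕ) (ε : ℝ), 0 < ε → ∃ δ > 0, ∀ r : E, ‖r‖ < δ → ∀ η > 0,
      ∃ a, (∀ k < K, q k a ≤ ε) ∧ ‖r - a‖ < η := by
    intro K ε hε
    obtain ⟨ρ, hρ, C, hC, h⟩ := step1 K
    refine ⟨ρ * (ε / C), by positivity, ?_⟩
    intro r hr η hη
    have hr' : ‖(((C / ε : ℝ)) : 𝕜) • r‖ < ρ := by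
      rw [norm_smul, RCLike.norm_ofReal, abs_of_pos (by positivity)]
      calc C / ε * ‖r‖ < C / ε * (ρ * (ε / C)) := by gcongr
        _ = ρ := by field_simp
    obtain ⟨a, ha1, ha2⟩ := h _ hr' (η * (C / ε)) (by positivity)
    refine ⟨(((ε / C : ℝ)) : 𝕜) • a, ?_, ?_⟩
    · intro k hk
      rw [hrs k _ _ (by positivity)]
      calc ε / C * q k a ≤ ε / C * C := by gcongr; exact ha1 k hk
        _ = ε := by field_simp
    · have e : r - (((ε / C : ℝ)) : 𝕜) • a =
          (((ε / C : ℝ)) : 𝕜) • ((((C / ε : ℝ)) : 𝕜) • r - a) := by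
        rw [smul_sub, smul_smul, ← RCLike.ofReal_mul]
        have : ε / C * (C / ε) = 1 := by field_simp
        rw [this, RCLike.ofReal_one, one_smul]
      rw [e, norm_smul, RCLike.norm_ofReal, abs_of_pos (by positivity)]
      calc ε / C * ‖(((C / ε : ℝ)) : 𝕜) • r - a‖ < ε / C * (η * (C / ε)) := by gcongr
        _ = η := by field_simp
  choose dl hdl0 hdl using step2
  intro k0
  -- iterate with `K = k0 + 1`, `ε = 1`
  have he : ∀ i : ℕ, (0 : ℝ) < 1 / 2 ^ i := fun i => by positivity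
  set D : ℕ → ℝ := fun i => min (dl (k0 + 1 + i) (1 / 2 ^ i) (he i)) (1 / 2 ^ i) with hD
  have hDpos : ∀ i, 0 < D i := fun i => lt_min (hdl0 _ _ _) (he i)
  have hstep : ∀ (i : ℕ) (r : E), ∃ a, ‖r‖ < D i →
      (∀ k < k0 + 1 + i, q k a ≤ 1 / 2 ^ i) ∧ ‖r - a‖ < D (i + 1) := by
    intro i r
    by_cases hr : ‖r‖ < D i
    · obtain ⟨a, ha1, ha2⟩ := hdl (k0 + 1 + i) (1 / 2 ^ i) (he i) r
        (hr.trans_le (min_le_left _ _)) (D (i + 1)) (hDpos _)
      exact ⟨a, fun _ => ⟨ha1, ha2⟩⟩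
    · exact ⟨0, fun h => absurd h hr⟩
  choose f hf using hstep
  have main : ∀ y : E, ‖y‖ < D 0 → q k0 y ≤ 2 := by
    intro y hy
    let r : ℕ → E := fun n => Nat.rec y (fun i r => r - f i r) n
    have hr0 : r 0 = y := rfl
    have hrs' : ∀ i, r (i + 1) = r i - f i (r i) := fun i => rfl
    have hrD : ∀ i, ‖r i‖ < D i := by
      intro i
      induction i with
      | zero => exact hy
      | succ i ih => rw [hrs']; exact (hf i (r i) ih).2
    set u : ℕ → E := fun i => f i (r i) with hu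
    have hsum : ∀ N, ∑ i ∈ range N, u i = y - r N := by
      intro N
      induction N with
      | zero => simp [hr0]
      | succ N ih =>
        rw [Finset.sum_range_succ, ih, hrs']
        simp only [hu]
        abel
    have hrlim : Tendsto r atTop (𝓝 0) := by
      apply squeeze_zero_norm (a := fun i : ℕ => (1 / 2 : ℝ) ^ i)
      · intro i
        have h1 := (hrD i).le.trans (min_le_right _ _)
        rwa [one_div_pow]
      · exact tendsto_pow_atTop_nhds_zero_of_lt_one (by norm_num) (by norm_num)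
    have hlim : Tendsto (fun N => ∑ i ∈ range N, u i) atTop (𝓝 y) := by
      have h1 := (tendsto_const_nhds (x := y)).sub hrlim
      rw [sub_zero] at h1
      refine h1.congr (fun N => ?_)
      rw [hsum]
    have hqu : ∀ i k, k < k0 + 1 + i → q k (u i) ≤ (1 / 2) ^ i := by
      intro i k hk
      rw [one_div_pow]
      exact (hf i (r i) (hrD i)).1 k hk
    have hgeo : Summable (fun i : ℕ => (1 / 2 : ℝ) ^ i) :=
      summable_geometric_of_lt_one (by norm_num) (by norm_num)
    have hsummable : ∀ k, Summable (fun i => q k (u i)) := by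
      intro k
      rw [← summable_nat_add_iff k]
      apply Summable.of_nonneg_of_le (f := fun i => (1 / 2 : ℝ) ^ (i + k))
      · intro i; exact hnn _ _
      · intro i
        exact hqu (i + k) k (by omega)
      · exact (summable_nat_add_iff (f := fun i : ℕ => (1 / 2 : ℝ) ^ i) k).mpr hgeo
    refine (hcp u y hsummable hlim k0).trans ?_
    calc ∑' i, q k0 (u i) ≤ ∑' i : ℕ, (1 / 2 : ℝ) ^ i :=
          (hsummable k0).tsum_le_tsum (fun i => hqu i k0 (by omega)) hgeo
      _ = 2 := tsum_geometric_two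
  refine ⟨4 / D 0, by have := hDpos 0; positivity, ?_⟩
  intro y
  have hD0 := hDpos 0
  by_cases hy : y = 0
  · subst hy
    have : q k0 0 = 0 := by
      have := hsmul k0 0 0
      simpa using this
    rw [this]; simp
  · have hyn : 0 < ‖y‖ := norm_pos_iff.mpr hy
    have h1 := main ((((D 0 / (2 * ‖y‖) : ℝ)) : 𝕜) • y) (by
      rw [norm_smul, RCLike.norm_ofReal, abs_of_pos (by positivity)]
      have : D 0 / (2 * ‖y‖) * ‖y‖ = D 0 / 2 := by field_simp
      rw [this]; linarith)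
    rw [hrs k0 _ _ (by positivity)] at h1
    have h2 : q k0 y = (2 * ‖y‖ / D 0) * (D 0 / (2 * ‖y‖) * q k0 y) := by field_simp
    rw [h2]
    calc 2 * ‖y‖ / D 0 * (D 0 / (2 * ‖y‖) * q k0 y) ≤ 2 * ‖y‖ / D 0 * 2 := by gcongr
      _ = 4 / D 0 * ‖y‖ := by ring

end Pool.Agent.H5.TB
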