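import Mathlib
import Pool.Agent.H5.TB.Baire
import Pool.Agent.H5.TB.Defs

set_option autoImplicit false

namespace Pool.Agent.H5.TB

open Finset Filter Topology

section algebra

variable {𝕜 E : Type*} [RCLike 𝕜] [NormedAddCommGroup E] [NormedSpace 𝕜 E]

/-- partial sums of the row sums -/
def UU (t : ℕ → ℕ → 𝕜) (x : ℕ → E) (n N : ℕ) (a : ℕ → 𝕜) : E :=
  ∑ j ∈ range N, t n j • ps x a j

lemma ps_add (x : ℕ → E) (a b : ℕ → 𝕜) (j : ℕ) : ps x (a + b) j = ps x a j + ps x b j := by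
  unfold ps
  rw [← Finset.sum_add_distrib]
  apply Finset.sum_congr rfl
  intro i _
  rw [Pi.add_apply, add_smul]

lemma ps_smul (x : ℕ → E) (c : 𝕜) (a : ℕ → 𝕜) (j : ℕ) : ps x (c • a) j = c • ps x a j := by
  unfold ps
  rw [Finset.smul_sum]
  apply Finset.sum_congr rfl
  intro i _
  rw [Pi.smul_apply, smul_eq_mul, mul_smul]

lemma UU_add (t : ℕ → ℕ → 𝕜) (x : ℕ → E) (n N : ℕ) (a b : ℕ → 𝕜) :
    UU t x n N (a + b) = UU t x n N a + UU t x n N b := by
  unfold UU
  rw [← Finset.sum_add_distrib]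
  apply Finset.sum_congr rfl
  intro i _
  rw [ps_add, smul_add]

lemma UU_smul (t : ℕ → ℕ → 𝕜) (x : ℕ → E) (n N : ℕ) (c : 𝕜) (a : ℕ → 𝕜) :
    UU t x n N (c • a) = c • UU t x n N a := by
  unfold UU
  rw [Finset.smul_sum]
  apply Finset.sum_congr rfl
  intro i _
  rw [ps_smul, smul_comm]

lemma TSums_add {t : ℕ → ℕ → 𝕜} {x : ℕ → E} {a b : ℕ → 𝕜} {y z : E} (h1 : TSums t x a y)
    (h2 : TSums t x b z) : TSums t x (a + b) (y + z) := by
  obtain ⟨σ, hσ1, hσ2⟩ := h1
  obtain ⟨τ, hτ1, hτ2⟩ := h2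
  refine ⟨fun n => σ n + τ n, fun n => ?_, hσ2.add hτ2⟩
  refine ((hσ1 n).add (hτ1 n)).congr (fun N => ?_)
  exact (UU_add t x n N a b).symm

lemma TSums_smul {t : ℕ → ℕ → 𝕜} {x : ℕ → E} {a : ℕ → 𝕜} {y : E} (c : 𝕜)
    (h1 : TSums t x a y) : TSums t x (c • a) (c • y) := by
  obtain ⟨σ, hσ1, hσ2⟩ := h1
  refine ⟨fun n => c • σ n, fun n => ?_, hσ2.const_smul c⟩
  refine ((hσ1 n).const_smul c).congr (fun N => ?_)
  exact (UU_smul t x n N c a).symm

lemma TSums_zero (t : ℕ → ℕ → 𝕜) (x : ℕ → E) : TSums t x 0 0 := by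
  have e : ∀ j, ps x (0 : ℕ → 𝕜) j = 0 := by
    intro j; unfold ps; simp
  refine ⟨fun _ => 0, fun n => ?_, tendsto_const_nhds⟩
  simp only [e, smul_zero, Finset.sum_const_zero]
  exact tendsto_const_nhds

/-- A finitely supported sequence whose last partial sum is zero represents zero. -/
lemma TSums_of_ps_zero {t : ℕ → ℕ → 𝕜} (hc : Consistent t) (x : ℕ → E) (a : ℕ → 𝕜) (J : ℕ)
    (ha : ∀ j, J ≤ j → ps x a j = 0) : TSums t x a 0 := by
  refine ⟨fun n => ∑ j ∈ range J, t n j • ps x a j, fun n => ?_, ?_⟩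
  · apply tendsto_atTop_of_eventually_const (i₀ := J)
    intro N hN
    rw [← Finset.sum_range_add_sum_Ico _ hN]
    rw [Finset.sum_eq_zero (s := Finset.Ico J N), add_zero]
    intro j hj
    rw [ha j (Finset.mem_Ico.mp hj).1, smul_zero]
  · have h := tendsto_finsetSum (range J) (fun j _ => (hc.cols j).smul_const (ps x a j))
    simpa using h

end algebra

section main

variable {𝕜 E : Type*} [RCLike 𝕜] [NormedAddCommGroup E] [NormedSpace 𝕜 E]
  {t : ℕ → ℕ → 𝕜} {x : ℕ → E}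

lemma ps_congr {x : ℕ → E} {a b : ℕ → 𝕜} {j : ℕ} (h : ∀ i ≤ j, a i = b i) :
    ps x a j = ps x b j := by
  unfold ps
  apply Finset.sum_congr rfl
  intro i hi
  rw [h i (by rw [Finset.mem_range] at hi; omega)]

/-- the coefficients are controlled by the partial sums -/
lemma coeff_bound (hc : Consistent t) (hB : IsTBasis t x) (J : ℕ) :
    ∃ C, 0 ≤ C ∧ ∀ (a : ℕ → 𝕜) (i : ℕ), i ≤ J → ‖a i‖ ≤ C * ‖ps x a J‖ := by
  classical
  let L : (Fin (J + 1) → 𝕜) →ₗ[𝕜] E := Fintype.linearCombination 𝕜 (fun i : Fin (J + 1) => x i)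
  have hL : ∀ a : ℕ → 𝕜, L (fun i => a i) = ps x a J := by
    intro a
    unfold ps
    rw [Finset.sum_range]
    rfl
  have hker : LinearMap.ker L = ⊥ := by
    rw [LinearMap.ker_eq_bot']
    intro b hb
    let a : ℕ → 𝕜 := fun i => if h : i < J + 1 then b ⟨i, h⟩ else 0
    have hab : (fun i : Fin (J + 1) => a i) = b := by
      funext i
      simp only [a]
      rw [dif_pos i.2]
    have h1 : ps x a J = 0 := by rw [← hL, hab, hb]
    have h2 : ∀ j, J ≤ j → ps x a j = 0 := by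
      intro j hj
      induction j, hj using Nat.le_induction with
      | base => exact h1
      | succ j hj ih =>
        unfold ps at ih ⊢
        rw [Finset.sum_range_succ, ih, zero_add]
        have : a (j + 1) = 0 := by
          simp only [a]
          rw [dif_neg (by omega)]
        rw [this, zero_smul]
    have h3 := TSums_of_ps_zero hc x a J h2
    have h4 : a = 0 := (hB 0).unique h3 (TSums_zero t x)
    rw [← hab, h4]
    rfl
  obtain ⟨K, hK0, hK⟩ := L.exists_antilipschitzWith hker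
  refine ⟨K, K.2, fun a i hi => ?_⟩
  have h1 := hK.le_mul_dist (fun i : Fin (J + 1) => a i) 0
  rw [dist_zero_right, map_zero, dist_zero_right, hL] at h1
  refine le_trans ?_ h1
  exact norm_le_pi_norm (fun i : Fin (J + 1) => a i) ⟨i, by omega⟩

/-- there are nonzero entries arbitrarily far -/
lemma exists_entry (hc : Consistent t) (i : ℕ) : ∃ n j, i ≤ j ∧ t n j ≠ 0 := by
  by_contra hcon
  push Not at hcon
  have h1 : ∀ n, ∑' j, t n j = ∑ j ∈ range i, t n j := by
    intro n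
    apply tsum_eq_sum
    intro j hj
    rw [Finset.mem_range, not_lt] at hj
    exact hcon n j hj
  have h2 : Tendsto (fun n => ∑ j ∈ range i, t n j) atTop (𝓝 0) := by
    have h := tendsto_finsetSum (range i) (fun j _ => hc.cols j)
    simpa using h
  have h3 := hc.lim
  simp only [h1] at h3
  exact one_ne_zero (tendsto_nhds_unique h3 h2)

/-- the coefficients are controlled by the row partial sums -/
lemma coeff_bound2 (hc : Consistent t) (hB : IsTBasis t x) (i : ℕ) :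
    ∃ n, ∃ C, 0 ≤ C ∧ ∀ (a : ℕ → 𝕜) (q : ℝ), (∀ N, ‖UU t x n N a‖ ≤ q) → ‖a i‖ ≤ C * q := by
  obtain ⟨n, j, hij, hnj⟩ := exists_entry hc i
  obtain ⟨C, hC0, hC⟩ := coeff_bound hc hB j
  refine ⟨n, C * (2 / ‖t n j‖), by positivity, fun a q hq => ?_⟩
  refine (hC a i hij).trans ?_
  rw [mul_assoc]
  gcongr
  have h1 : t n j • ps x a j = UU t x n (j + 1) a - UU t x n j a := by
    unfold UU
    rw [Finset.sum_range_succ]
    abel
  have h2 : ‖t n j‖ * ‖ps x a j‖ ≤ 2 * q := by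
    rw [← norm_smul, h1]
    refine (norm_sub_le _ _).trans ?_
    have := hq (j + 1)
    have := hq j
    linarith
  have h3 : 0 < ‖t n j‖ := norm_pos_iff.mpr hnj
  rw [div_mul_eq_mul_div, le_div_iff₀ h3]
  linarith

end main

end Pool.Agent.H5.TB
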