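import Mathlib
import Pool.Agent.H5.TB.TBasis

set_option autoImplicit false

namespace Pool.Agent.H5.TB

open Finset Filter Topology

section coeff

variable {𝕜 E : Type*} [RCLike 𝕜] [NormedAddCommGroup E] [NormedSpace 𝕜 E]
  {t : ℕ → ℕ → 𝕜} {x : ℕ → E}

/-- the coefficients -/
noncomputable def co (hB : IsTBasis t x) (y : E) : ℕ → 𝕜 := (hB y).choose

lemma co_spec (hB : IsTBasis t x) (y : E) : TSums t x (co hB y) y := (hB y).choose_spec.1

lemma co_unique (hB : IsTBasis t x) {y : E} {a : ℕ → 𝕜} (h : TSums t x a y) : co hB y = a :=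
  (hB y).unique (co_spec hB y) h

lemma co_add (hB : IsTBasis t x) (y z : E) : co hB (y + z) = co hB y + co hB z :=
  co_unique hB (TSums_add (co_spec hB y) (co_spec hB z))

lemma co_smul (hB : IsTBasis t x) (c : 𝕜) (y : E) : co hB (c • y) = c • co hB y :=
  co_unique hB (TSums_smul c (co_spec hB y))

/-- the means -/
noncomputable def sig (hB : IsTBasis t x) (n : ℕ) (y : E) : E := (co_spec hB y).choose n

lemma sig_spec (hB : IsTBasis t x) (n : ℕ) (y : E) :
    Tendsto (fun N => UU t x n N (co hB y)) atTop (𝓝 (sig hB n y)) :=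
  (co_spec hB y).choose_spec.1 n

lemma sig_lim (hB : IsTBasis t x) (y : E) : Tendsto (fun n => sig hB n y) atTop (𝓝 y) :=
  (co_spec hB y).choose_spec.2

lemma sig_unique (hB : IsTBasis t x) {n : ℕ} {y z : E}
    (h : Tendsto (fun N => UU t x n N (co hB y)) atTop (𝓝 z)) : sig hB n y = z :=
  tendsto_nhds_unique (sig_spec hB n y) h

lemma sig_add (hB : IsTBasis t x) (n : ℕ) (y z : E) :
    sig hB n (y + z) = sig hB n y + sig hB n z := by
  apply sig_unique
  refine ((sig_spec hB n y).add (sig_spec hB n z)).congr (fun N => ?_)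
  rw [co_add, UU_add]

lemma sig_smul (hB : IsTBasis t x) (n : ℕ) (c : 𝕜) (y : E) :
    sig hB n (c • y) = c • sig hB n y := by
  apply sig_unique
  refine ((sig_spec hB n y).const_smul c).congr (fun N => ?_)
  rw [co_smul, UU_smul]

/-- supremum of the norms of a sequence -/
noncomputable def sn (f : ℕ → E) : ℝ := ⨆ n, ‖f n‖

lemma sn_nonneg (f : ℕ → E) : 0 ≤ sn f := Real.iSup_nonneg (fun _ => norm_nonneg _)

lemma le_sn {f : ℕ → E} {z : E} (h : Tendsto f atTop (𝓝 z)) (n : ℕ) : ‖f n‖ ≤ sn f :=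
  le_ciSup (h.norm.bddAbove_range) n

lemma sn_le {f : ℕ → E} {C : ℝ} (h : ∀ n, ‖f n‖ ≤ C) : sn f ≤ C := ciSup_le h

/-- the family of seminorms -/
noncomputable def qq (hB : IsTBasis t x) (k : ℕ) (y : E) : ℝ :=
  match k with
  | 0 => sn (fun n => sig hB n y)
  | (n + 1) => sn (fun N => UU t x n N (co hB y))

lemma qq_zero (hB : IsTBasis t x) (y : E) : qq hB 0 y = sn (fun n => sig hB n y) := rfl

lemma qq_succ (hB : IsTBasis t x) (n : ℕ) (y : E) :
    qq hB (n + 1) y = sn (fun N => UU t x n N (co hB y)) := rfl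

lemma le_qq_zero (hB : IsTBasis t x) (n : ℕ) (y : E) : ‖sig hB n y‖ ≤ qq hB 0 y :=
  le_sn (f := fun n => sig hB n y) (sig_lim hB y) n

lemma le_qq_succ (hB : IsTBasis t x) (n N : ℕ) (y : E) :
    ‖UU t x n N (co hB y)‖ ≤ qq hB (n + 1) y :=
  le_sn (f := fun N => UU t x n N (co hB y)) (sig_spec hB n y) N

lemma norm_le_qq_zero (hB : IsTBasis t x) (y : E) : ‖y‖ ≤ qq hB 0 y :=
  le_of_tendsto (sig_lim hB y).norm (Eventually.of_forall (fun n => le_qq_zero hB n y))

lemma sig_le_qq_succ (hB : IsTBasis t x) (n : ℕ) (y : E) : ‖sig hB n y‖ ≤ qq hB (n + 1) y :=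
  le_of_tendsto (sig_spec hB n y).norm (Eventually.of_forall (fun N => le_qq_succ hB n N y))

lemma qq_nonneg (hB : IsTBasis t x) (k : ℕ) (y : E) : 0 ≤ qq hB k y := by
  cases k with
  | zero => exact sn_nonneg _
  | succ n => exact sn_nonneg _

lemma qq_add (hB : IsTBasis t x) (k : ℕ) (y z : E) :
    qq hB k (y + z) ≤ qq hB k y + qq hB k z := by
  cases k with
  | zero =>
    apply sn_le
    intro n
    rw [sig_add]
    exact (norm_add_le _ _).trans (add_le_add (le_qq_zero hB n y) (le_qq_zero hB n z))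
  | succ n =>
    apply sn_le
    intro N
    rw [co_add, UU_add]
    exact (norm_add_le _ _).trans (add_le_add (le_qq_succ hB n N y) (le_qq_succ hB n N z))

lemma qq_smul_le (hB : IsTBasis t x) (k : ℕ) (c : 𝕜) (y : E) :
    qq hB k (c • y) ≤ ‖c‖ * qq hB k y := by
  cases k with
  | zero =>
    apply sn_le
    intro n
    rw [sig_smul, norm_smul]
    gcongr
    exact le_qq_zero hB n y
  | succ n =>
    apply sn_le
    intro N
    rw [co_smul, UU_smul, norm_smul]
    gcongr
    exact le_qq_succ hB n N y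

lemma qq_smul (hB : IsTBasis t x) (k : ℕ) (c : 𝕜) (y : E) :
    qq hB k (c • y) = ‖c‖ * qq hB k y := by
  apply le_antisymm (qq_smul_le hB k c y)
  by_cases hc : c = 0
  · subst hc
    rw [norm_zero, zero_mul]
    exact qq_nonneg hB k _
  · have h1 := qq_smul_le hB k c⁻¹ (c • y)
    rw [smul_smul, inv_mul_cancel₀ hc, one_smul, norm_inv] at h1
    have hcn : 0 < ‖c‖ := norm_pos_iff.mpr hc
    calc ‖c‖ * qq hB k y ≤ ‖c‖ * (‖c‖⁻¹ * qq hB k (c • y)) := by gcongr
      _ = qq hB k (c • y) := by field_simp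

lemma hasSum_ps (u : ℕ → ℕ → 𝕜) (a : ℕ → 𝕜) (h : ∀ l, HasSum (fun i => u i l) (a l)) (j : ℕ) :
    HasSum (fun i => ps x (u i) j) (ps x a j) := by
  unfold ps
  exact hasSum_sum (fun l _ => (h l).smul_const (x l))

lemma hasSum_UU (u : ℕ → ℕ → 𝕜) (a : ℕ → 𝕜) (h : ∀ l, HasSum (fun i => u i l) (a l))
    (n N : ℕ) : HasSum (fun i => UU t x n N (u i)) (UU t x n N a) := by
  unfold UU
  exact hasSum_sum (fun j _ => (hasSum_ps u a h j).const_smul (t n j))

lemma qq_cp [CompleteSpace E] (hc : Consistent t) (hB : IsTBasis t x) (u : ℕ → E) (y : E)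
    (hs : ∀ k, Summable (fun i => qq hB k (u i)))
    (hy : Tendsto (fun N => ∑ i ∈ range N, u i) atTop (𝓝 y)) (k : ℕ) :
    qq hB k y ≤ ∑' i, qq hB k (u i) := by
  have hus : Summable u := Summable.of_norm_bounded (hs 0) (fun i => norm_le_qq_zero hB (u i))
  have hyt : ∑' i, u i = y := tendsto_nhds_unique hus.hasSum.tendsto_sum_nat hy
  -- coordinates
  have hcoord : ∀ l, Summable (fun i => co hB (u i) l) := by
    intro l
    obtain ⟨n, C, hC0, hC⟩ := coeff_bound2 hc hB l
    apply Summable.of_norm_bounded ((hs (n + 1)).mul_left C)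
    intro i
    exact hC _ _ (fun N => le_qq_succ hB n N (u i))
  set a : ℕ → 𝕜 := fun l => ∑' i, co hB (u i) l with ha
  have hasum : ∀ l, HasSum (fun i => co hB (u i) l) (a l) := fun l => (hcoord l).hasSum
  have hUU : ∀ n N, ∑' i, UU t x n N (co hB (u i)) = UU t x n N a := fun n N =>
    (hasSum_UU (fun i => co hB (u i)) a hasum n N).tsum_eq
  have h1 : ∀ n, Tendsto (fun N => UU t x n N a) atTop (𝓝 (∑' i, sig hB n (u i))) := by
    intro n
    have := tendsto_tsum_of_dominated_convergence (𝓕 := atTop)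
      (f := fun N i => UU t x n N (co hB (u i))) (g := fun i => sig hB n (u i)) (hs (n + 1))
      (fun i => sig_spec hB n (u i)) (Eventually.of_forall (fun N i => le_qq_succ hB n N (u i)))
    refine this.congr (fun N => ?_)
    exact hUU n N
  have h2 : Tendsto (fun n => ∑' i, sig hB n (u i)) atTop (𝓝 y) := by
    have := tendsto_tsum_of_dominated_convergence (𝓕 := atTop)
      (f := fun n i => sig hB n (u i)) (g := u) (hs 0)
      (fun i => sig_lim hB (u i)) (Eventually.of_forall (fun n i => le_qq_zero hB n (u i)))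
    rw [hyt] at this
    exact this
  have hTS : TSums t x a y := ⟨fun n => ∑' i, sig hB n (u i), h1, h2⟩
  have hco : co hB y = a := co_unique hB hTS
  have hsig : ∀ n, sig hB n y = ∑' i, sig hB n (u i) := by
    intro n
    apply sig_unique
    rw [hco]
    exact h1 n
  cases k with
  | zero =>
    apply sn_le
    intro n
    rw [hsig]
    exact tsum_of_norm_bounded (hs 0).hasSum (fun i => le_qq_zero hB n (u i))
  | succ n =>
    apply sn_le
    intro N
    rw [hco, ← hUU]
    exact tsum_of_norm_bounded (hs (n + 1)).hasSum (fun i => le_qq_succ hB n N (u i))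

lemma qq_cont [CompleteSpace E] (hc : Consistent t) (hB : IsTBasis t x) :
    ∀ k, ∃ C, 0 ≤ C ∧ ∀ y, qq hB k y ≤ C * ‖y‖ :=
  baire_seminorm 𝕜 (qq hB) (qq_nonneg hB) (qq_add hB) (qq_smul hB) (qq_cp hc hB)

end coeff

section bap

variable {𝕜 E : Type*} [RCLike 𝕜] [NormedAddCommGroup E] [NormedSpace 𝕜 E]
  {t : ℕ → ℕ → 𝕜} {x : ℕ → E}

/-- tails of the rows -/
noncomputable def ta (t : ℕ → ℕ → 𝕜) (n i : ℕ) : 𝕜 := ∑' k, t n (k + i)

lemma ta_succ (hc : Consistent t) (n i : ℕ) : ta t n i = t n i + ta t n (i + 1) := by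
  obtain ⟨C, hC⟩ := hc.rows
  have hs : Summable (fun j => t n j) := (hC n).1.of_norm
  have hs2 : Summable (fun k => t n (k + i)) := (summable_nat_add_iff i).mpr hs
  unfold ta
  rw [hs2.tsum_eq_zero_add, zero_add]
  congr 1
  apply tsum_congr
  intro k
  congr 1
  omega

lemma ta_lim (t : ℕ → ℕ → 𝕜) (n : ℕ) : Tendsto (fun i => ta t n i) atTop (𝓝 0) :=
  tendsto_sum_nat_add (fun j => t n j)

lemma ta_col (hc : Consistent t) (i : ℕ) : Tendsto (fun n => ta t n i) atTop (𝓝 1) := by
  obtain ⟨C, hC⟩ := hc.rows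
  have e : ∀ n, ta t n i = ∑' j, t n j - ∑ j ∈ range i, t n j := by
    intro n
    have hs : Summable (fun j => t n j) := (hC n).1.of_norm
    rw [← hs.sum_add_tsum_nat_add i]
    unfold ta
    ring
  simp only [e]
  have h1 := tendsto_finsetSum (range i) (fun j _ => hc.cols j)
  have h2 := hc.lim.sub h1
  simpa using h2

/-- the unit sequences -/
def un (i : ℕ) : ℕ → 𝕜 := fun l => if l = i then 1 else 0

lemma ps_un (x : ℕ → E) (i j : ℕ) : ps x (un (𝕜 := 𝕜) i) j = if i ≤ j then x i else 0 := by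
  unfold ps un
  simp only [ite_smul, one_smul, zero_smul]
  rw [Finset.sum_ite_eq']
  simp only [Finset.mem_range]
  by_cases h : i ≤ j
  · rw [if_pos (by omega), if_pos h]
  · rw [if_neg (by omega), if_neg h]

lemma UU_un (hc : Consistent t) (x : ℕ → E) (n i : ℕ) :
    Tendsto (fun N => UU t x n N (un (𝕜 := 𝕜) i)) atTop (𝓝 (ta t n i • x i)) := by
  obtain ⟨C, hC⟩ := hc.rows
  have hs : Summable (fun j => t n j) := (hC n).1.of_norm
  have hs2 : Summable (fun k => t n (k + i)) := (summable_nat_add_iff i).mpr hs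
  rw [← tendsto_add_atTop_iff_nat i]
  have e : ∀ N, UU t x n (N + i) (un (𝕜 := 𝕜) i) = (∑ k ∈ range N, t n (k + i)) • x i := by
    intro N
    unfold UU
    rw [add_comm N i, Finset.sum_range_add, Finset.sum_eq_zero, zero_add, Finset.sum_smul]
    · apply Finset.sum_congr rfl
      intro k _
      rw [ps_un, if_pos (by omega), add_comm i k]
    · intro j hj
      rw [ps_un, if_neg (by rw [Finset.mem_range] at hj; omega), smul_zero]
  simp only [e]
  exact hs2.hasSum.tendsto_sum_nat.smul_const (x i)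

lemma TSums_un (hc : Consistent t) (x : ℕ → E) (i : ℕ) : TSums t x (un (𝕜 := 𝕜) i) (x i) := by
  refine ⟨fun n => ta t n i • x i, fun n => UU_un hc x n i, ?_⟩
  have := (ta_col hc i).smul_const (x i)
  simpa using this

lemma sig_x (hc : Consistent t) (hB : IsTBasis t x) (n i : ℕ) :
    sig hB n (x i) = ta t n i • x i := by
  apply sig_unique
  rw [co_unique hB (TSums_un hc x i)]
  exact UU_un hc x n i

lemma sig_ps (hc : Consistent t) (hB : IsTBasis t x) (n : ℕ) (a : ℕ → 𝕜) (j : ℕ) :
    sig hB n (ps x a j) = UU t x n j a + ta t n j • ps x a j := by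
  have h0 : ∀ (c : 𝕜) (i : ℕ), sig hB n (c • x i) = (c * ta t n i) • x i := by
    intro c i
    rw [sig_smul, sig_x hc, smul_smul]
  induction j with
  | zero =>
    have e : ps x a 0 = a 0 • x 0 := by unfold ps; simp
    have e2 : UU t x n 0 a = 0 := by unfold UU; simp
    rw [e, e2, h0, zero_add, smul_smul, mul_comm]
  | succ j ih =>
    have e : ps x a (j + 1) = ps x a j + a (j + 1) • x (j + 1) := by
      unfold ps
      rw [Finset.sum_range_succ]
    have e2 : UU t x n (j + 1) a = UU t x n j a + t n j • ps x a j := by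
      unfold UU
      rw [Finset.sum_range_succ]
    rw [e, sig_add, ih, h0, e2, ta_succ hc n j]
    rw [add_smul, smul_add, smul_smul, mul_comm (ta t n (j + 1))]
    abel

/-- the approximants of the square of a mean -/
def RR (t : ℕ → ℕ → 𝕜) (x : ℕ → E) (n N : ℕ) (a : ℕ → 𝕜) : E :=
  ∑ j ∈ range N, t n j • (UU t x n j a + UU t x n (j + 1) a)

lemma sig_zero (hB : IsTBasis t x) (n : ℕ) : sig hB n 0 = 0 := by
  have := sig_smul hB n 0 0
  simpa using this

/-- Abel summation -/
lemma abel_id (hc : Consistent t) (hB : IsTBasis t x) (n : ℕ) (a : ℕ → 𝕜) (N : ℕ) :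
    sig hB n (UU t x n N a) = RR t x n N a + ta t n N • UU t x n N a := by
  induction N with
  | zero =>
    have e2 : UU t x n 0 a = 0 := by unfold UU; simp
    have e3 : RR t x n 0 a = 0 := by unfold RR; simp
    rw [e2, e3, sig_zero]; simp
  | succ N ih =>
    have e2 : UU t x n (N + 1) a = UU t x n N a + t n N • ps x a N := by
      unfold UU
      rw [Finset.sum_range_succ]
    have e3 : RR t x n (N + 1) a = RR t x n N a +
        t n N • (UU t x n N a + UU t x n (N + 1) a) := by
      unfold RR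
      rw [Finset.sum_range_succ]
    rw [e3, e2, sig_add, ih, sig_smul, sig_ps hc, ta_succ hc n N]
    simp only [smul_add, add_smul, smul_smul]
    rw [mul_comm (ta t n (N + 1)) (t n N)]
    abel

end bap

end Pool.Agent.H5.TB
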