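import Mathlib
import Pool.Agent.H5.TB.TBasis2

set_option autoImplicit false

namespace Pool.Agent.H5.TB

open Finset Filter Topology

variable {𝕜 E : Type*} [RCLike 𝕜] [NormedAddCommGroup E] [NormedSpace 𝕜 E] [CompleteSpace E]
  {t : ℕ → ℕ → 𝕜} {x : ℕ → E}

/-- Every `T`-basis, for any consistent matrix `T` (triangular or not), gives the bounded
approximation property. -/
theorem tbasis_bap (hc : Consistent t) (hB : IsTBasis t x) :
    ∃ l : ℝ, 0 ≤ l ∧ ∃ B : ℕ → E →L[𝕜] E,
      (∀ n, FiniteDimensional 𝕜 (LinearMap.range (B n : E →ₗ[𝕜] E))) ∧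
      (∀ n, ‖B n‖ ≤ l) ∧ ∀ y, Tendsto (fun n => B n y) atTop (𝓝 y) := by
  choose C hC0 hC using qq_cont hc hB
  -- the operators
  let sigC : ℕ → E →L[𝕜] E := fun n =>
    LinearMap.mkContinuous
      { toFun := fun y => sig hB n y
        map_add' := sig_add hB n
        map_smul' := sig_smul hB n } (C 0)
      (fun y => (le_qq_zero hB n y).trans (hC 0 y))
  let UC : ℕ → ℕ → E →L[𝕜] E := fun n N =>
    LinearMap.mkContinuous
      { toFun := fun y => UU t x n N (co hB y)
        map_add' := fun y z => by rw [co_add, UU_add]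
        map_smul' := fun c y => by rw [co_smul, UU_smul, RingHom.id_apply] } (C (n + 1))
      (fun y => (le_qq_succ hB n N y).trans (hC (n + 1) y))
  have hsigC : ∀ n y, sigC n y = sig hB n y := fun _ _ => rfl
  have hUC : ∀ n N y, UC n N y = UU t x n N (co hB y) := fun _ _ _ => rfl
  have hsignorm : ∀ n, ‖sigC n‖ ≤ C 0 := fun n => LinearMap.mkContinuous_norm_le _ (hC0 0) _
  have hUCnorm : ∀ n N, ‖UC n N‖ ≤ C (n + 1) := fun n N =>
    LinearMap.mkContinuous_norm_le _ (hC0 (n + 1)) _
  let RC : ℕ → ℕ → E →L[𝕜] E := fun n N => ∑ j ∈ range N, t n j • (UC n j + UC n (j + 1))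
  have hRC : ∀ n N y, RC n N y = RR t x n N (co hB y) := by
    intro n N y
    simp only [RC, RR]
    rw [_root_.sum_apply]
    rfl
  -- norm convergence
  have hsum : ∀ n, Summable (fun j => t n j • (UC n j + UC n (j + 1))) := by
    intro n
    obtain ⟨D, hD⟩ := hc.rows
    apply Summable.of_norm_bounded ((hD n).1.mul_right (2 * C (n + 1)))
    intro j
    rw [norm_smul]
    gcongr
    refine (norm_add_le _ _).trans ?_
    have := hUCnorm n j
    have := hUCnorm n (j + 1)
    linarith
  have hlim : ∀ n, Tendsto (fun N => RC n N) atTop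
      (𝓝 (∑' j, t n j • (UC n j + UC n (j + 1)))) := fun n => (hsum n).hasSum.tendsto_sum_nat
  have hpt : ∀ n y, Tendsto (fun N => RC n N y) atTop (𝓝 (sig hB n (sig hB n y))) := by
    intro n y
    have h1 : Tendsto (fun N => sig hB n (UU t x n N (co hB y))) atTop
        (𝓝 (sig hB n (sig hB n y))) := by
      have := ((sigC n).continuous.tendsto (sig hB n y)).comp (sig_spec hB n y)
      exact this
    have h2 : Tendsto (fun N => ta t n N • UU t x n N (co hB y)) atTop (𝓝 0) := by
      have := (ta_lim t n).smul (sig_spec hB n y)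
      simpa using this
    have h3 := h1.sub h2
    rw [sub_zero] at h3
    refine h3.congr (fun N => ?_)
    rw [hRC, abel_id hc hB]
    abel
  set LL : ℕ → E →L[𝕜] E := fun n => ∑' j, t n j • (UC n j + UC n (j + 1)) with hLL
  have hLLpt : ∀ n y, LL n y = sig hB n (sig hB n y) := by
    intro n y
    have h1 : Tendsto (fun N => RC n N y) atTop (𝓝 (LL n y)) :=
      ((ContinuousLinearMap.apply 𝕜 E y).continuous.tendsto _).comp (hlim n)
    exact tendsto_nhds_unique h1 (hpt n y)
  have hLLnorm : ∀ n, ‖LL n‖ ≤ C 0 * C 0 := by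
    intro n
    apply ContinuousLinearMap.opNorm_le_bound _ (mul_nonneg (hC0 0) (hC0 0))
    intro y
    rw [hLLpt]
    calc ‖sig hB n (sig hB n y)‖ ≤ C 0 * ‖sig hB n y‖ :=
          (le_qq_zero hB n _).trans (hC 0 _)
      _ ≤ C 0 * (C 0 * ‖y‖) := by
          have := hC0 0
          gcongr
          exact (le_qq_zero hB n _).trans (hC 0 _)
      _ = C 0 * C 0 * ‖y‖ := by ring
  -- choose N
  have hex : ∀ n : ℕ, ∃ N, ‖RC n N - LL n‖ ≤ 1 / (n + 1 : ℝ) := by
    intro n
    have h1 := (hlim n).sub_const (LL n)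
    rw [show (∑' j, t n j • (UC n j + UC n (j + 1))) = LL n from rfl, sub_self] at h1
    have h2 := h1.norm
    rw [norm_zero] at h2
    exact (h2.eventually_le_const (show (0:ℝ) < 1 / (n + 1 : ℝ) by positivity)).exists
  choose Nn hNn using hex
  refine ⟨C 0 * C 0 + 1, by have := hC0 0; positivity, fun n => RC n (Nn n), ?_, ?_, ?_⟩
  · intro n
    have hle : LinearMap.range (RC n (Nn n) : E →ₗ[𝕜] E) ≤
        Submodule.span 𝕜 (x '' (Set.Iio (Nn n + 1))) := by
      rintro _ ⟨y, rfl⟩
      have e : (RC n (Nn n) : E →ₗ[𝕜] E) y = RR t x n (Nn n) (co hB y) := hRC n (Nn n) y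
      rw [e]
      have hps : ∀ j, j < Nn n + 1 → ps x (co hB y) j ∈
          Submodule.span 𝕜 (x '' (Set.Iio (Nn n + 1))) := by
        intro j hj
        unfold ps
        apply Submodule.sum_mem
        intro i hi
        apply Submodule.smul_mem
        apply Submodule.subset_span
        rw [Finset.mem_range] at hi
        exact ⟨i, by rw [Set.mem_Iio]; omega, rfl⟩
      have hUU : ∀ j, j < Nn n + 1 → UU t x n j (co hB y) ∈
          Submodule.span 𝕜 (x '' (Set.Iio (Nn n + 1))) := by
        intro j hj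
        unfold UU
        apply Submodule.sum_mem
        intro i hi
        apply Submodule.smul_mem
        apply hps
        rw [Finset.mem_range] at hi
        omega
      unfold RR
      apply Submodule.sum_mem
      intro j hj
      rw [Finset.mem_range] at hj
      apply Submodule.smul_mem
      exact Submodule.add_mem _ (hUU j (by omega)) (hUU (j + 1) (by omega))
    have hfin : FiniteDimensional 𝕜 (Submodule.span 𝕜 (x '' (Set.Iio (Nn n + 1)))) :=
      FiniteDimensional.span_of_finite 𝕜 ((Set.finite_Iio _).image x)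
    exact Submodule.finiteDimensional_of_le hle
  · intro n
    have h1 : ‖RC n (Nn n)‖ ≤ ‖RC n (Nn n) - LL n‖ + ‖LL n‖ := by
      calc ‖RC n (Nn n)‖ = ‖(RC n (Nn n) - LL n) + LL n‖ := by congr 1; abel
        _ ≤ _ := norm_add_le _ _
    have h2 := hNn n
    have h3 := hLLnorm n
    have h4 : 1 / (n + 1 : ℝ) ≤ 1 := by
      rw [div_le_one (by positivity)]
      have : (0:ℝ) ≤ n := Nat.cast_nonneg n
      linarith
    linarith
  · intro y
    have h1 : Tendsto (fun n => LL n y) atTop (𝓝 y) := by
      have h2 : Tendsto (fun n => sig hB n (sig hB n y - y)) atTop (𝓝 0) := by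
        have h3 : Tendsto (fun n => C 0 * ‖sig hB n y - y‖) atTop (𝓝 0) := by
          have h4 := (sig_lim hB y).sub_const y
          rw [sub_self] at h4
          have h5 := h4.norm.const_mul (C 0)
          simpa using h5
        apply squeeze_zero_norm (fun n => ?_) h3
        exact (le_qq_zero hB n _).trans (hC 0 _)
      have h3 := h2.add (sig_lim hB y)
      rw [zero_add] at h3
      refine h3.congr (fun n => ?_)
      rw [hLLpt, ← sig_add]
      congr 1
      abel
    have h2 : Tendsto (fun n => (RC n (Nn n) - LL n) y) atTop (𝓝 0) := by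
      have h3 : Tendsto (fun n : ℕ => 1 / (n + 1 : ℝ) * ‖y‖) atTop (𝓝 0) := by
        have h4 := (tendsto_one_div_add_atTop_nhds_zero_nat (𝕜 := ℝ)).mul_const ‖y‖
        simpa using h4
      apply squeeze_zero_norm (fun n => ?_) h3
      refine ((RC n (Nn n) - LL n).le_opNorm y).trans ?_
      gcongr
      exact hNn n
    have h3 := h2.add h1
    rw [zero_add] at h3
    refine h3.congr (fun n => ?_)
    rw [sub_apply]
    abel

end Pool.Agent.H5.TB
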