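import Mathlib
import Pool.Agent.H5.TB.FJ
import Pool.Agent.H5.TB.Blocks
import Pool.Agent.H5.TB.TBasis3

set_option autoImplicit false

namespace Pool.Agent.H5.TB

open Finset Filter Topology

section sum

variable (𝕜 : Type) [RCLike 𝕜] {s t : ℕ → ℕ → ℕ → ℝ}
  (F : ℕ → Submodule 𝕜 (Du 𝕜 (XX 𝕜 s t))) (M : ℕ → ℝ)

/-- The final space. -/
abbrev EE : Type := lp (fun k => ET (F k) (M k)) 1

/-- the index set of the basis -/
abbrev Ix (s t : ℕ → ℕ → ℕ → ℝ) : Type :=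
  (p : ℕ × ℕ) × Fin (Module.finrank 𝕜 (YY 𝕜 s t p.2))

/-- basis of the m-th block -/
noncomputable def bs (s t : ℕ → ℕ → ℕ → ℝ) (m : ℕ) :
    Module.Basis (Fin (Module.finrank 𝕜 (YY 𝕜 s t m))) 𝕜 (YY 𝕜 s t m) :=
  Module.finBasis 𝕜 (YY 𝕜 s t m)

/-- the basis vectors -/
noncomputable def xx (i : Ix 𝕜 s t) : EE 𝕜 F M :=
  lp.single 1 i.1.1 (toE (F i.1.1) (M i.1.1) (lp.single 1 i.1.2 (bs 𝕜 s t i.1.2 i.2)))

/-- the component of a vector in a block -/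
noncomputable def cpt (k m : ℕ) : EE 𝕜 F M →L[𝕜] YY 𝕜 s t m :=
  (lp.evalCLM 𝕜 (fun m => YY 𝕜 s t m) 1 m).comp
    ((fromE (F k) (M k)).comp (lp.evalCLM 𝕜 (fun k => ET (F k) (M k)) 1 k))

/-- the biorthogonal functionals -/
noncomputable def ff (i : Ix 𝕜 s t) : EE 𝕜 F M →L[𝕜] 𝕜 :=
  (LinearMap.toContinuousLinearMap ((bs 𝕜 s t i.1.2).coord i.2)).comp (cpt 𝕜 F M i.1.1 i.1.2)

lemma cpt_apply (k m : ℕ) (y : EE 𝕜 F M) :
    cpt 𝕜 F M k m y = (fromE (F k) (M k) (y k) : ∀ m, YY 𝕜 s t m) m := rfl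

lemma ff_apply (i : Ix 𝕜 s t) (y : EE 𝕜 F M) :
    ff 𝕜 F M i y = (bs 𝕜 s t i.1.2).coord i.2 (cpt 𝕜 F M i.1.1 i.1.2 y) := rfl

lemma cpt_xx_ne1 (k m k' m' : ℕ) (a : Fin (Module.finrank 𝕜 (YY 𝕜 s t m'))) (h : k ≠ k') :
    cpt 𝕜 F M k m (xx 𝕜 F M ⟨(k', m'), a⟩) = 0 := by
  rw [cpt_apply]
  unfold xx
  rw [lp.single_apply_ne _ _ _ h, map_zero]
  rfl

lemma cpt_xx_ne2 (hM : ∀ k, 1 ≤ M k) (k m m' : ℕ) (a : Fin (Module.finrank 𝕜 (YY 𝕜 s t m')))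
    (h : m ≠ m') : cpt 𝕜 F M k m (xx 𝕜 F M ⟨(k, m'), a⟩) = 0 := by
  rw [cpt_apply]
  unfold xx
  rw [lp.single_apply_self, fromE_toE (F k) (hM k)]
  exact lp.single_apply_ne _ _ _ h

lemma cpt_xx_self (hM : ∀ k, 1 ≤ M k) (k m : ℕ) (a : Fin (Module.finrank 𝕜 (YY 𝕜 s t m))) :
    cpt 𝕜 F M k m (xx 𝕜 F M ⟨(k, m), a⟩) = bs 𝕜 s t m a := by
  rw [cpt_apply]
  unfold xx
  rw [lp.single_apply_self, fromE_toE (F k) (hM k)]
  exact lp.single_apply_self _ _ _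

lemma ff_xx (hM : ∀ k, 1 ≤ M k) (i : Ix 𝕜 s t) : ff 𝕜 F M i (xx 𝕜 F M i) = 1 := by
  obtain ⟨⟨k, m⟩, a⟩ := i
  rw [ff_apply]
  simp only
  rw [cpt_xx_self 𝕜 F M hM]
  simp

lemma ff_xx_ne (hM : ∀ k, 1 ≤ M k) (i j : Ix 𝕜 s t) (hij : i ≠ j) :
    ff 𝕜 F M i (xx 𝕜 F M j) = 0 := by
  obtain ⟨⟨k, m⟩, a⟩ := i
  obtain ⟨⟨k', m'⟩, a'⟩ := j
  rw [ff_apply]
  simp only
  by_cases hk : k = k'
  · subst hk
    by_cases hm : m = m'
    · subst hm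
      rw [cpt_xx_self 𝕜 F M hM]
      have ha : a ≠ a' := fun h => hij (by rw [h])
      rw [Module.Basis.coord_apply, Module.Basis.repr_self, Finsupp.single_apply, if_neg (Ne.symm ha)]
    · rw [cpt_xx_ne2 𝕜 F M hM k m m' a' hm, map_zero]
  · rw [cpt_xx_ne1 𝕜 F M k m k' m' a' hk, map_zero]

/-- the embedding of a block -/
noncomputable def TT (k m : ℕ) : YY 𝕜 s t m →L[𝕜] EE 𝕜 F M :=
  (lp.singleContinuousLinearMap 𝕜 (fun k => ET (F k) (M k)) 1 k).comp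
    ((toE (F k) (M k)).comp (lp.singleContinuousLinearMap 𝕜 (fun m => YY 𝕜 s t m) 1 m))

lemma TT_sum (k m : ℕ) (y : EE 𝕜 F M) :
    ∑ a : Fin (Module.finrank 𝕜 (YY 𝕜 s t m)),
      ff 𝕜 F M (⟨(k, m), a⟩ : Ix 𝕜 s t) y • xx 𝕜 F M (⟨(k, m), a⟩ : Ix 𝕜 s t) =
      TT 𝕜 F M k m (cpt 𝕜 F M k m y) := by
  have h1 := (bs 𝕜 s t m).sum_repr (cpt 𝕜 F M k m y)
  conv_rhs => rw [← h1, map_sum]
  apply Finset.sum_congr rfl
  intro a _
  rw [map_smul]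
  rfl

/-- the finite sets of indices -/
noncomputable def AA (s t : ℕ → ℕ → ℕ → ℝ) (n j : ℕ) : Finset (Ix 𝕜 s t) :=
  Finset.sigma (range n ×ˢ range j) (fun _ => Finset.univ)

lemma AA_sum (n j : ℕ) (y : EE 𝕜 F M) :
    ∑ i ∈ AA 𝕜 s t n j, ff 𝕜 F M i y • xx 𝕜 F M i =
      ∑ k ∈ range n, ∑ m ∈ range j, TT 𝕜 F M k m (cpt 𝕜 F M k m y) := by
  unfold AA
  rw [Finset.sum_sigma, Finset.sum_product]
  apply Finset.sum_congr rfl
  intro k _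
  apply Finset.sum_congr rfl
  intro m _
  exact TT_sum 𝕜 F M k m y

lemma tendsto_block (hM : ∀ k, 1 ≤ M k) (k : ℕ) (y : EE 𝕜 F M) :
    Tendsto (fun j => ∑ m ∈ range j, TT 𝕜 F M k m (cpt 𝕜 F M k m y)) atTop
      (𝓝 (lp.single 1 k (y k))) := by
  have h1 := (lp.hasSum_single (E := fun m => YY 𝕜 s t m) (p := 1) ENNReal.one_ne_top
    (fromE (F k) (M k) (y k))).tendsto_sum_nat
  have hc : Continuous (fun z : XX 𝕜 s t =>
      (lp.singleContinuousLinearMap 𝕜 (fun k => ET (F k) (M k)) 1 k) (toE (F k) (M k) z)) := by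
    fun_prop
  have h2 := (hc.tendsto (fromE (F k) (M k) (y k))).comp h1
  have e : (lp.singleContinuousLinearMap 𝕜 (fun k => ET (F k) (M k)) 1 k)
      (toE (F k) (M k) (fromE (F k) (M k) (y k))) = lp.single 1 k (y k) := by
    rw [toE_fromE (F k) (hM k)]
    rfl
  rw [e] at h2
  refine h2.congr (fun j => ?_)
  simp only [Function.comp, map_sum]
  rfl

lemma tendsto_Q (y : EE 𝕜 F M) :
    Tendsto (fun n => ∑ k ∈ range n, (lp.single 1 k (y k) : EE 𝕜 F M)) atTop (𝓝 y) :=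
  (lp.hasSum_single (E := fun k => ET (F k) (M k)) (p := 1) ENNReal.one_ne_top y).tendsto_sum_nat

lemma finrank_pos_zero (h : Sys s t) : 0 < Module.finrank 𝕜 (YY 𝕜 s t 0) := by
  have : Nontrivial (YY 𝕜 s t 0) := by
    refine ⟨al 𝕜 s t 0 0 0, 0, fun h0 => ?_⟩
    have h1 := al_diag 𝕜 h 0 0 (by norm_num)
    rw [h0] at h1
    exact zero_ne_one h1
  exact Module.finrank_pos

lemma exists_enum (h : Sys s t) : Nonempty (ℕ ≃ Ix 𝕜 s t) := by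
  have hinf : Infinite (Ix 𝕜 s t) := by
    apply Infinite.of_injective (fun k : ℕ => (⟨(k, 0), ⟨0, finrank_pos_zero 𝕜 h⟩⟩ : Ix 𝕜 s t))
    intro k k' hkk
    have := congrArg (fun i : Ix 𝕜 s t => i.1.1) hkk
    exact this
  obtain ⟨hd⟩ := nonempty_denumerable (Ix 𝕜 s t)
  exact ⟨(Denumerable.eqv (Ix 𝕜 s t)).symm⟩

theorem EE_basis (h : Sys s t) (hM : ∀ k, 1 ≤ M k) :
    ∃ x : ℕ → EE 𝕜 F M, IsDoubleOperationalBasis 𝕜 x ∧ IsDoubleGenSummationBasis 𝕜 x := by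
  obtain ⟨e⟩ := exists_enum 𝕜 h
  refine ⟨xx 𝕜 F M ∘ e, ?_⟩
  apply blocks' e (A := AA 𝕜 s t) (f := ff 𝕜 F M) (ff_xx 𝕜 F M hM) (ff_xx_ne 𝕜 F M hM)
    (fun n y => ∑ k ∈ range n, (lp.single 1 k (y k) : EE 𝕜 F M))
  · intro n y
    simp only [AA_sum]
    exact tendsto_finsetSum _ (fun k _ => tendsto_block 𝕜 F M hM k y)
  · exact tendsto_Q 𝕜 F M
  · rintro ⟨⟨k, m⟩, a⟩
    refine ⟨k + 1, fun n hn => ?_⟩
    filter_upwards [eventually_ge_atTop (m + 1)] with j hj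
    unfold AA
    rw [Finset.mem_sigma, Finset.mem_product, Finset.mem_range, Finset.mem_range]
    simp only
    exact ⟨⟨by omega, by omega⟩, Finset.mem_univ _⟩

theorem EE_no_tbasis (hM : ∀ k, 1 ≤ M k)
    (hbad : ∀ k : ℕ, ¬ ∃ T : ℕ → ET (F k) (M k) →L[𝕜] ET (F k) (M k),
        (∀ n, FiniteDimensional 𝕜 (LinearMap.range (T n : ET (F k) (M k) →ₗ[𝕜] ET (F k) (M k)))) ∧
        (∀ n, ‖T n‖ ≤ k) ∧ ∀ y, Tendsto (fun n => T n y) atTop (𝓝 y)) :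
    ¬ ∃ (τ : ℕ → ℕ → 𝕜) (x : ℕ → EE 𝕜 F M), Consistent τ ∧ IsTBasis τ x := by
  rintro ⟨τ, x, hc, hB⟩
  have hcomp : ∀ k, CompleteSpace (ET (F k) (M k)) := fun k => complete_ET (F k) (hM k)
  obtain ⟨l, hl, B, hB1, hB2, hB3⟩ := tbasis_bap hc hB
  obtain ⟨k, hk⟩ := exists_nat_ge l
  apply hbad k
  refine ⟨fun n => (lp.evalCLM 𝕜 (fun k => ET (F k) (M k)) 1 k).comp ((B n).comp
    (lp.singleContinuousLinearMap 𝕜 (fun k => ET (F k) (M k)) 1 k)), ?_, ?_, ?_⟩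
  · intro n
    have := hB1 n
    have h1 : LinearMap.range (((lp.evalCLM 𝕜 (fun k => ET (F k) (M k)) 1 k).comp ((B n).comp
        (lp.singleContinuousLinearMap 𝕜 (fun k => ET (F k) (M k)) 1 k)) :
          ET (F k) (M k) →L[𝕜] ET (F k) (M k)) : ET (F k) (M k) →ₗ[𝕜] ET (F k) (M k)) ≤
        (LinearMap.range (B n : EE 𝕜 F M →ₗ[𝕜] EE 𝕜 F M)).map
          (lp.evalCLM 𝕜 (fun k => ET (F k) (M k)) 1 k : EE 𝕜 F M →ₗ[𝕜] ET (F k) (M k)) := by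
      rintro _ ⟨y, rfl⟩
      exact ⟨B n (lp.single 1 k y), ⟨lp.single 1 k y, rfl⟩, rfl⟩
    exact Submodule.finiteDimensional_of_le h1
  · intro n
    apply ContinuousLinearMap.opNorm_le_bound _ (Nat.cast_nonneg k)
    intro y
    have e : ((lp.evalCLM 𝕜 (fun k => ET (F k) (M k)) 1 k).comp ((B n).comp
      (lp.singleContinuousLinearMap 𝕜 (fun k => ET (F k) (M k)) 1 k))) y =
      (B n (lp.single 1 k y) : ∀ k, ET (F k) (M k)) k := rfl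
    rw [e]
    refine (lp.norm_apply_le_norm (by simp) _ k).trans ?_
    refine ((B n).le_opNorm _).trans ?_
    rw [lp.norm_single (by simp)]
    gcongr
    exact (hB2 n).trans hk
  · intro y
    have h1 := hB3 (lp.single 1 k y)
    have h2 := ((lp.evalCLM 𝕜 (fun k => ET (F k) (M k)) 1 k).continuous.tendsto
      (lp.single 1 k y)).comp h1
    have e : (lp.evalCLM 𝕜 (fun k => ET (F k) (M k)) 1 k) (lp.single 1 k y) = y :=
      lp.single_apply_self (E := fun k => ET (F k) (M k)) 1 k y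
    rw [e] at h2
    exact h2

end sum

/-- The main theorem. -/
theorem main (𝕜 : Type) [RCLike 𝕜] :
    (∀ (E : Type) [NormedAddCommGroup E] [NormedSpace 𝕜 E] [CompleteSpace E]
      (t : ℕ → ℕ → 𝕜) (x : ℕ → E), Consistent t → IsTBasis t x →
      ∃ l : ℝ, 0 ≤ l ∧ ∃ B : ℕ → E →L[𝕜] E,
        (∀ n, FiniteDimensional 𝕜 (LinearMap.range (B n : E →ₗ[𝕜] E))) ∧
        (∀ n, ‖B n‖ ≤ l) ∧ ∀ y, Tendsto (fun n => B n y) atTop (𝓝 y)) ∧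
    ∃ (E : Type) (_ : NormedAddCommGroup E) (_ : NormedSpace 𝕜 E), CompleteSpace E ∧
      (∃ x : ℕ → E, IsDoubleOperationalBasis 𝕜 x ∧ IsDoubleGenSummationBasis 𝕜 x) ∧
      ¬ ∃ (t : ℕ → ℕ → 𝕜) (x : ℕ → E), Consistent t ∧ IsTBasis t x := by
  refine ⟨fun E _ _ _ t x hc hB => tbasis_bap hc hB, ?_⟩
  obtain ⟨s, t, h⟩ := exists_sys
  choose F M hM hbad using fun k : ℕ => exists_bad 𝕜 h (k : ℝ) (Nat.cast_nonneg k)
  have hcomp : ∀ k, CompleteSpace (ET (F k) (M k)) := fun k => complete_ET (F k) (hM k)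
  exact ⟨EE 𝕜 F M, inferInstance, inferInstance, inferInstance, EE_basis 𝕜 F M h hM,
    EE_no_tbasis 𝕜 F M hM hbad⟩

end Pool.Agent.H5.TB
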