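import Mathlib
import Pool.Agent.H5.TB.TBasis2

set_option autoImplicit false

namespace Pool.Agent.H5.TB

open Finset Filter Topology

section

variable {𝕜 E : Type*} [RCLike 𝕜] [NormedAddCommGroup E] [NormedSpace 𝕜 E]
  {t : ℕ → ℕ → 𝕜} {x : ℕ → E}

/-- the entries of the truncated square of the mean `n` -/
def cc (t : ℕ → ℕ → 𝕜) (n N i : ℕ) : 𝕜 :=
  if i < N then t n i * (t n i + 2 * ∑ j ∈ Finset.Ico (i + 1) N, t n j) else 0

lemma RR_eq (t : ℕ → ℕ → 𝕜) (x : ℕ → E) (n N : ℕ) (a : ℕ → 𝕜) :
    RR t x n N a = ∑ i ∈ range N, cc t n N i • ps x a i := by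
  induction N with
  | zero => simp [RR]
  | succ N ih =>
    have e3 : RR t x n (N + 1) a = RR t x n N a +
        t n N • (UU t x n N a + UU t x n (N + 1) a) := by
      unfold RR
      rw [Finset.sum_range_succ]
    have e2 : UU t x n (N + 1) a = UU t x n N a + t n N • ps x a N := by
      unfold UU
      rw [Finset.sum_range_succ]
    rw [e3, ih, e2, Finset.sum_range_succ]
    have e4 : cc t n (N + 1) N = t n N * t n N := by
      unfold cc
      rw [if_pos (Nat.lt_succ_self N)]
      simp
    rw [e4]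
    have e5 : ∑ i ∈ range N, cc t n (N + 1) i • ps x a i =
        ∑ i ∈ range N, cc t n N i • ps x a i + (2 * t n N) • UU t x n N a := by
      unfold UU
      rw [Finset.smul_sum, ← Finset.sum_add_distrib]
      apply Finset.sum_congr rfl
      intro i hi
      rw [Finset.mem_range] at hi
      unfold cc
      rw [if_pos (by omega), if_pos hi, Finset.sum_Ico_succ_top (by omega), smul_smul, ← add_smul]
      congr 1
      ring
    rw [e5, smul_add, smul_add, smul_smul, two_mul, add_smul]
    abel

lemma cc_sum (t : ℕ → ℕ → 𝕜) (n N : ℕ) :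
    ∑ i ∈ range N, cc t n N i = (∑ i ∈ range N, t n i) ^ 2 := by
  induction N with
  | zero => simp
  | succ N ih =>
    rw [Finset.sum_range_succ, Finset.sum_range_succ (fun i => t n i)]
    have e4 : cc t n (N + 1) N = t n N * t n N := by
      unfold cc
      rw [if_pos (Nat.lt_succ_self N)]
      simp
    have e5 : ∑ i ∈ range N, cc t n (N + 1) i =
        ∑ i ∈ range N, cc t n N i + (2 * t n N) * ∑ i ∈ range N, t n i := by
      rw [Finset.mul_sum, ← Finset.sum_add_distrib]
      apply Finset.sum_congr rfl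
      intro i hi
      rw [Finset.mem_range] at hi
      unfold cc
      rw [if_pos (by omega), if_pos hi, Finset.sum_Ico_succ_top (by omega)]
      ring
    rw [e4, e5, ih]
    ring

lemma tail_bound {C : ℝ} (hC : ∀ n, Summable (fun j => ‖t n j‖) ∧ ∑' j, ‖t n j‖ ≤ C)
    (n : ℕ) (s : Finset ℕ) : ‖∑ j ∈ s, t n j‖ ≤ C := by
  refine (norm_sum_le _ _).trans ?_
  exact ((hC n).1.sum_le_tsum s (fun _ _ => norm_nonneg _)).trans (hC n).2

lemma cc_norm {C : ℝ} (hC : ∀ n, Summable (fun j => ‖t n j‖) ∧ ∑' j, ‖t n j‖ ≤ C)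
    (n N i : ℕ) : ‖cc t n N i‖ ≤ ‖t n i‖ * (3 * C) := by
  have hC0 : 0 ≤ C := (norm_nonneg _).trans (tail_bound hC 0 ∅)
  unfold cc
  split_ifs with h
  · rw [norm_mul]
    gcongr
    refine (norm_add_le _ _).trans ?_
    have h1 : ‖t n i‖ ≤ C := by
      have := tail_bound hC n {i}
      simpa using this
    have h2 : ‖(2 : 𝕜) * ∑ j ∈ Finset.Ico (i + 1) N, t n j‖ ≤ 2 * C := by
      rw [norm_mul, RCLike.norm_ofNat]
      gcongr
      exact tail_bound hC n _
    linarith
  · rw [norm_zero]
    positivity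

end

section main

variable {𝕜 E : Type*} [RCLike 𝕜] [NormedAddCommGroup E] [NormedSpace 𝕜 E] [CompleteSpace E]
  {t : ℕ → ℕ → 𝕜} {x : ℕ → E}

/-- continuity of the coefficients -/
lemma co_cont (hc : Consistent t) (hB : IsTBasis t x) (i : ℕ) :
    ∃ K, 0 ≤ K ∧ ∀ y, ‖co hB y i‖ ≤ K * ‖y‖ := by
  obtain ⟨n, C, hC0, hC⟩ := coeff_bound2 hc hB i
  obtain ⟨D, hD0, hD⟩ := qq_cont hc hB (n + 1)
  refine ⟨C * D, mul_nonneg hC0 hD0, fun y => ?_⟩
  refine (hC _ _ (fun N => le_qq_succ hB n N y)).trans ?_
  rw [mul_assoc]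
  gcongr
  exact hD y

/-- the coefficient functional -/
noncomputable def coL (hc : Consistent t) (hB : IsTBasis t x) (i : ℕ) : E →L[𝕜] 𝕜 :=
  LinearMap.mkContinuous
    { toFun := fun y => co hB y i
      map_add' := fun y z => by rw [co_add]; rfl
      map_smul' := fun c y => by rw [co_smul]; rfl } (co_cont hc hB i).choose
    (fun y => (co_cont hc hB i).choose_spec.2 y)

lemma coL_apply (hc : Consistent t) (hB : IsTBasis t x) (i : ℕ) (y : E) :
    coL hc hB i y = co hB y i := rfl

lemma co_x (hc : Consistent t) (hB : IsTBasis t x) (i : ℕ) : co hB (x i) = un i :=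
  co_unique hB (TSums_un hc x i)

lemma coL_ps (hc : Consistent t) (hB : IsTBasis t x) (i : ℕ) (a : ℕ → 𝕜) (j : ℕ) :
    coL hc hB i (ps x a j) = if i ≤ j then a i else 0 := by
  unfold ps
  rw [map_sum]
  have : ∀ k ∈ range (j + 1), coL hc hB i (a k • x k) = if k = i then a i else 0 := by
    intro k _
    rw [map_smul, coL_apply, co_x hc]
    unfold un
    by_cases h : k = i
    · subst h; simp
    · rw [if_neg h, if_neg (Ne.symm h), smul_zero]
  rw [Finset.sum_congr rfl this, Finset.sum_ite_eq']
  simp only [Finset.mem_range, Nat.lt_succ_iff]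

/-- A `T`-basis whose coefficient sequences represent all vectors with respect to another
consistent, triangular matrix is a basis with respect to that matrix. -/
lemma unique_of_tri (hc : Consistent t) (hB : IsTBasis t x) {t' : ℕ → ℕ → 𝕜}
    (hc' : Consistent t') (htri : ∀ n j, n < j → t' n j = 0) {a : ℕ → 𝕜} {y : E}
    (h : TSums t' x a y) : a = co hB y := by
  obtain ⟨σ, h1, h2⟩ := h
  have hσ : ∀ n, σ n = ∑ j ∈ range (n + 1), t' n j • ps x a j := by
    intro n
    apply tendsto_nhds_unique (h1 n)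
    apply tendsto_atTop_of_eventually_const (i₀ := n + 1)
    intro N hN
    rw [← Finset.sum_range_add_sum_Ico _ hN]
    rw [Finset.sum_eq_zero (s := Finset.Ico (n + 1) N), add_zero]
    intro j hj
    rw [htri n j (by rw [Finset.mem_Ico] at hj; omega), zero_smul]
  funext i
  have h3 : Tendsto (fun n => coL hc hB i (σ n)) atTop (𝓝 (co hB y i)) :=
    ((coL hc hB i).continuous.tendsto y).comp h2
  have h4 : ∀ n, coL hc hB i (σ n) = ta t' n i * a i := by
    intro n
    rw [hσ, map_sum]
    have e : ∀ j ∈ range (n + 1), coL hc hB i (t' n j • ps x a j) =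
        (if i ≤ j then t' n j else 0) * a i := by
      intro j _
      rw [map_smul, coL_ps]
      split_ifs <;> simp
    rw [Finset.sum_congr rfl e, ← Finset.sum_mul]
    congr 1
    unfold ta
    obtain ⟨C, hC⟩ := hc'.rows
    have hs : Summable (fun j => t' n j) := (hC n).1.of_norm
    have e2 : ∑ j ∈ range (n + 1), (if i ≤ j then t' n j else 0) =
        ∑' j, (if i ≤ j then t' n j else 0) := by
      symm
      apply tsum_eq_sum
      intro j hj
      rw [Finset.mem_range, not_lt] at hj
      rw [htri n j (by omega)]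
      simp
    have hs3 : Summable (fun j => if i ≤ j then t' n j else 0) := by
      apply summable_of_ne_finset_zero (s := range (n + 1))
      intro j hj
      rw [Finset.mem_range, not_lt] at hj
      rw [htri n j (by omega)]
      simp
    rw [e2, ← hs3.sum_add_tsum_nat_add i]
    rw [Finset.sum_eq_zero, zero_add]
    · apply tsum_congr
      intro k
      rw [if_pos (by omega)]
    · intro j hj
      rw [Finset.mem_range] at hj
      rw [if_neg (by omega)]
  have h5 : Tendsto (fun n => coL hc hB i (σ n)) atTop (𝓝 (a i)) := by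
    simp only [h4]
    have := (ta_col hc' i).mul_const (a i)
    simpa using this
  exact tendsto_nhds_unique h5 h3

end main

end Pool.Agent.H5.TB
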