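import Mathlib
import Pool.Agent.H5.TB.Triang

set_option autoImplicit false

namespace Pool.Agent.H5.TB

open Finset Filter Topology

variable {𝕜 E : Type*} [RCLike 𝕜] [NormedAddCommGroup E] [NormedSpace 𝕜 E] [CompleteSpace E]
  {t : ℕ → ℕ → 𝕜} {x : ℕ → E}

/-- Truncations of the squares of the means converge pointwise. -/
theorem exists_trunc (hc : Consistent t) (hB : IsTBasis t x) :
    ∃ Nn : ℕ → ℕ, (∀ y, Tendsto (fun n => RR t x n (Nn n) (co hB y)) atTop (𝓝 y)) ∧
      Tendsto (fun n => ∑ i ∈ range (Nn n), t n i) atTop (𝓝 1) := by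
  choose C hC0 hC using qq_cont hc hB
  -- the operators
  let sigC : ℕ → E →L[𝕜] E := fun n =>
    LinearMap.mkContinuous
      { toFun := fun y => sig hB n y
        map_add' := sig_add hB n
        map_smul' := sig_smul hB n } (C 0)
      (fun y => (le_qq_zero hB n y).trans (hC 0 y))
  let UC : ℕ → ℕ → E →L[𝕜] E := fun n N =>
    LinearMap.mkContinuous
      { toFun := fun y => UU t x n N (co hB y)
        map_add' := fun y z => by rw [co_add, UU_add]
        map_smul' := fun c y => by rw [co_smul, UU_smul, RingHom.id_apply] } (C (n + 1))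
      (fun y => (le_qq_succ hB n N y).trans (hC (n + 1) y))
  have hsigC : ∀ n y, sigC n y = sig hB n y := fun _ _ => rfl
  have hUC : ∀ n N y, UC n N y = UU t x n N (co hB y) := fun _ _ _ => rfl
  have hUCnorm : ∀ n N, ‖UC n N‖ ≤ C (n + 1) := fun n N =>
    LinearMap.mkContinuous_norm_le _ (hC0 (n + 1)) _
  let RC : ℕ → ℕ → E →L[𝕜] E := fun n N => ∑ j ∈ range N, t n j • (UC n j + UC n (j + 1))
  have hRC : ∀ n N y, RC n N y = RR t x n N (co hB y) := by
    intro n N y
    simp only [RC, RR]
    rw [_root_.sum_apply]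
    rfl
  -- norm convergence
  have hsum : ∀ n, Summable (fun j => t n j • (UC n j + UC n (j + 1))) := by
    intro n
    obtain ⟨D, hD⟩ := hc.rows
    apply Summable.of_norm_bounded ((hD n).1.mul_right (2 * C (n + 1)))
    intro j
    rw [norm_smul]
    gcongr
    refine (norm_add_le _ _).trans ?_
    have := hUCnorm n j
    have := hUCnorm n (j + 1)
    linarith
  have hlim : ∀ n, Tendsto (fun N => RC n N) atTop
      (𝓝 (∑' j, t n j • (UC n j + UC n (j + 1)))) := fun n => (hsum n).hasSum.tendsto_sum_nat
  have hpt : ∀ n y, Tendsto (fun N => RC n N y) atTop (𝓝 (sig hB n (sig hB n y))) := by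
    intro n y
    have h1 : Tendsto (fun N => sig hB n (UU t x n N (co hB y))) atTop
        (𝓝 (sig hB n (sig hB n y))) := by
      have := ((sigC n).continuous.tendsto (sig hB n y)).comp (sig_spec hB n y)
      exact this
    have h2 : Tendsto (fun N => ta t n N • UU t x n N (co hB y)) atTop (𝓝 0) := by
      have := (ta_lim t n).smul (sig_spec hB n y)
      simpa using this
    have h3 := h1.sub h2
    rw [sub_zero] at h3
    refine h3.congr (fun N => ?_)
    rw [hRC, abel_id hc hB]
    abel
  set LL : ℕ → E →L[𝕜] E := fun n => ∑' j, t n j • (UC n j + UC n (j + 1)) with hLL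
  have hLLpt : ∀ n y, LL n y = sig hB n (sig hB n y) := by
    intro n y
    have h1 : Tendsto (fun N => RC n N y) atTop (𝓝 (LL n y)) :=
      ((ContinuousLinearMap.apply 𝕜 E y).continuous.tendsto _).comp (hlim n)
    exact tendsto_nhds_unique h1 (hpt n y)
  -- choose N
  have hex : ∀ n : ℕ, ∃ N, ‖RC n N - LL n‖ ≤ 1 / (n + 1 : ℝ) ∧
      ‖∑ i ∈ range N, t n i - ∑' i, t n i‖ ≤ 1 / (n + 1 : ℝ) := by
    intro n
    have h1 := (hlim n).sub_const (LL n)
    rw [show (∑' j, t n j • (UC n j + UC n (j + 1))) = LL n from rfl, sub_self] at h1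
    have h2 := h1.norm
    rw [norm_zero] at h2
    obtain ⟨D, hD⟩ := hc.rows
    have hs : Summable (fun j => t n j) := (hD n).1.of_norm
    have h3 := (hs.hasSum.tendsto_sum_nat.sub_const (∑' i, t n i)).norm
    rw [sub_self, norm_zero] at h3
    have hpos : (0:ℝ) < 1 / (n + 1 : ℝ) := by positivity
    exact ((h2.eventually_le_const hpos).and (h3.eventually_le_const hpos)).exists
  choose Nn hNn1 hNn2 using hex
  refine ⟨Nn, ?_, ?_⟩
  · intro y
    have h1 : Tendsto (fun n => LL n y) atTop (𝓝 y) := by
      have h2 : Tendsto (fun n => sig hB n (sig hB n y - y)) atTop (𝓝 0) := by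
        have h3 : Tendsto (fun n => C 0 * ‖sig hB n y - y‖) atTop (𝓝 0) := by
          have h4 := (sig_lim hB y).sub_const y
          rw [sub_self] at h4
          have h5 := h4.norm.const_mul (C 0)
          simpa using h5
        apply squeeze_zero_norm (fun n => ?_) h3
        exact (le_qq_zero hB n _).trans (hC 0 _)
      have h3 := h2.add (sig_lim hB y)
      rw [zero_add] at h3
      refine h3.congr (fun n => ?_)
      rw [hLLpt, ← sig_add]
      congr 1
      abel
    have h2 : Tendsto (fun n => (RC n (Nn n) - LL n) y) atTop (𝓝 0) := by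
      have h3 : Tendsto (fun n : ℕ => 1 / (n + 1 : ℝ) * ‖y‖) atTop (𝓝 0) := by
        have h4 := (tendsto_one_div_add_atTop_nhds_zero_nat (𝕜 := ℝ)).mul_const ‖y‖
        simpa using h4
      apply squeeze_zero_norm (fun n => ?_) h3
      refine ((RC n (Nn n) - LL n).le_opNorm y).trans ?_
      gcongr
      exact hNn1 n
    have h3 := h2.add h1
    rw [zero_add] at h3
    refine h3.congr (fun n => ?_)
    rw [sub_apply, ← hRC]
    abel
  · have h1 : Tendsto (fun n => ∑ i ∈ range (Nn n), t n i - ∑' i, t n i) atTop (𝓝 0) := by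
      apply squeeze_zero_norm hNn2
      exact tendsto_one_div_add_atTop_nhds_zero_nat (𝕜 := ℝ)
    have h2 := h1.add hc.lim
    rw [zero_add] at h2
    refine h2.congr (fun n => ?_)
    abel

/-- slowing down -/
lemma exists_slow (Nn : ℕ → ℕ) : ∃ k : ℕ → ℕ, Tendsto k atTop atTop ∧
    ∀ᶠ m in atTop, Nn (k m) ≤ m + 1 := by
  refine ⟨fun m => Nat.findGreatest (fun k => Nn k ≤ m + 1) m, ?_, ?_⟩
  · rw [tendsto_atTop]
    intro K
    filter_upwards [eventually_ge_atTop (max K (Nn K))] with m hm
    apply Nat.le_findGreatest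
    · exact (le_max_left _ _).trans hm
    · exact ((le_max_right _ _).trans hm).trans (Nat.le_succ m)
  · filter_upwards [eventually_ge_atTop (Nn 0)] with m hm
    exact Nat.findGreatest_spec (P := fun k => Nn k ≤ m + 1) (m := 0) (Nat.zero_le m)
      (hm.trans (Nat.le_succ m))

/-- Every `T`-basis is a triangular `T`-basis, for another consistent matrix. -/
theorem tbasis_triangular (hc : Consistent t) (hB : IsTBasis t x) :
    ∃ t' : ℕ → ℕ → 𝕜, Consistent t' ∧ (∀ n j, n < j → t' n j = 0) ∧ IsTBasis t' x := by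
  classical
  obtain ⟨Nn, hN1, hN2⟩ := exists_trunc hc hB
  obtain ⟨k, hk1, hk2⟩ := exists_slow Nn
  let t' : ℕ → ℕ → 𝕜 := fun m j => if Nn (k m) ≤ m + 1 then cc t (k m) (Nn (k m)) j else 0
  have htri : ∀ m j, m < j → t' m j = 0 := by
    intro m j hmj
    simp only [t']
    split_ifs with h
    · unfold cc
      rw [if_neg (by omega)]
    · rfl
  obtain ⟨C, hC⟩ := hc.rows
  have hC0 : 0 ≤ C := (norm_nonneg _).trans (tail_bound hC 0 ∅)
  have hnorm : ∀ m j, ‖t' m j‖ ≤ ‖t (k m) j‖ * (3 * C) := by
    intro m j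
    simp only [t']
    split_ifs with h
    · exact cc_norm hC _ _ _
    · rw [norm_zero]; positivity
  have hsupp : ∀ m j, j ∉ range (m + 1) → t' m j = 0 := by
    intro m j hj
    rw [Finset.mem_range, not_lt] at hj
    exact htri m j (by omega)
  have hc' : Consistent t' := by
    refine ⟨⟨C * (3 * C), fun m => ⟨?_, ?_⟩⟩, ?_, ?_⟩
    · exact Summable.of_nonneg_of_le (fun _ => norm_nonneg _) (hnorm m)
        ((hC (k m)).1.mul_right _)
    · have h1 := (Summable.of_nonneg_of_le (fun _ => norm_nonneg _) (hnorm m)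
        ((hC (k m)).1.mul_right _)).tsum_le_tsum (hnorm m) ((hC (k m)).1.mul_right _)
      refine h1.trans ?_
      rw [tsum_mul_right]
      gcongr
      exact (hC (k m)).2
    · intro j
      have h1 : Tendsto (fun m => ‖t (k m) j‖ * (3 * C)) atTop (𝓝 0) := by
        have := (((hc.cols j).comp hk1).norm).mul_const (3 * C)
        simpa using this
      exact squeeze_zero_norm (fun m => hnorm m j) h1
    · have h1 : Tendsto (fun m => (∑ i ∈ range (Nn (k m)), t (k m) i) ^ 2) atTop (𝓝 1) := by
        have := (hN2.comp hk1).pow 2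
        simpa using this
      refine h1.congr' ?_
      filter_upwards [hk2] with m hm
      rw [← cc_sum]
      rw [tsum_eq_sum (s := range (Nn (k m)))]
      · apply Finset.sum_congr rfl
        intro i _
        simp only [t']
        rw [if_pos hm]
      · intro j hj
        simp only [t']
        rw [if_pos hm]
        unfold cc
        rw [if_neg (by rwa [Finset.mem_range] at hj)]
  refine ⟨t', hc', htri, ?_⟩
  intro y
  refine ⟨co hB y, ?_, fun a ha => unique_of_tri hc hB hc' htri ha⟩
  refine ⟨fun m => ∑ j ∈ range (m + 1), t' m j • ps x (co hB y) j, fun m => ?_, ?_⟩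
  · apply tendsto_atTop_of_eventually_const (i₀ := m + 1)
    intro N hN
    rw [← Finset.sum_range_add_sum_Ico _ hN]
    rw [Finset.sum_eq_zero (s := Finset.Ico (m + 1) N), add_zero]
    intro j hj
    rw [htri m j (by rw [Finset.mem_Ico] at hj; omega), zero_smul]
  · refine ((hN1 y).comp hk1).congr' ?_
    filter_upwards [hk2] with m hm
    simp only [Function.comp]
    rw [RR_eq]
    rw [← Finset.sum_range_add_sum_Ico (fun j => t' m j • ps x (co hB y) j) hm]
    rw [Finset.sum_eq_zero (s := Finset.Ico (Nn (k m)) (m + 1)), add_zero]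
    · apply Finset.sum_congr rfl
      intro i _
      simp only [t']
      rw [if_pos hm]
    · intro j hj
      simp only [t']
      rw [if_pos hm]
      unfold cc
      rw [if_neg (by rw [Finset.mem_Ico] at hj; omega), zero_smul]

end Pool.Agent.H5.TB
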